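import Pool.Agent.K3h76.SD.Basic

set_option autoImplicit false

/-!
Convex bodies whose normal cones are circular cones: basic facts.
-/

namespace Pool.Agent.K3h76.RB

open scoped RealInnerProductSpace
open Pool.Agent.W396.Il Module
open Pool.Agent.K3h76.SD

variable {E : Type*} [NormedAddCommGroup E] [InnerProductSpace ℝ E]

/-- `u` is a unit outer normal of `K` at `x` -/
def Nml (K : Set E) (x u : E) : Prop := ‖u‖ = 1 ∧ ∀ y ∈ K, ⟪u, y⟫ ≤ ⟪u, x⟫

/-- the direction `U` makes an acute angle with each outer normal at `x` -/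
def Lit (K : Set E) (x U : E) : Prop := ∀ u, Nml K x u → 0 < ⟪U, u⟫

/-- The unit outer normals at `x` are those which make with `c` an angle with cosine at
least `t`. -/
structure Rd (K : Set E) (x c : E) (t : ℝ) : Prop where
  hc : ‖c‖ = 1
  ht : 0 < t
  ht1 : t < 1
  iff : ∀ u, ‖u‖ = 1 → (Nml K x u ↔ t ≤ ⟪c, u⟫)

/-- The unit outer normals at `x` all make with some `c` an angle with squared cosine more
than `1 - q`. -/
def Nar (q : ℝ) (K : Set E) (x : E) : Prop :=
  ∃ c : E, ‖c‖ = 1 ∧ ∀ u, Nml K x u → 0 < ⟪c, u⟫ ∧ 1 - q < ⟪c, u⟫ ^ 2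

/-- Directions which make an acute angle with each normal illuminate. -/
theorem cover_of_lit [FiniteDimensional ℝ E] {K : Set E} (hK : Convex ℝ K)
    (hKc : IsCompact K) (hKi : (interior K).Nonempty) (T : Finset E)
    (hT : ∀ x ∈ K, ∃ U ∈ T, Lit K x U) : Cov T.card K := by
  classical
  have hcomp : CompleteSpace E := FiniteDimensional.complete ℝ E
  have hfin : Cov (Fintype.card T) K := by
    refine cov_of_ill hK hKc (fun i : T => -(i : E)) ?_
    intro x hx
    obtain ⟨U, hU, hlit⟩ := hT x hx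
    refine ⟨⟨U, hU⟩, ill_of_normal hK hKi hx ?_⟩
    intro f hf hfx
    set w := (InnerProductSpace.toDual ℝ E).symm f with hw
    have hfw : ∀ y, f y = ⟪w, y⟫ := fun y => by
      rw [hw, InnerProductSpace.toDual_symm_apply]
    have hw0 : w ≠ 0 := by
      intro h
      apply hf
      ext y
      rw [hfw, h, inner_zero_left]
      rfl
    have hwn : 0 < ‖w‖ := norm_pos_iff.2 hw0
    have hang : 0 < ⟪U, (‖w‖)⁻¹ • w⟫ := by
      refine hlit _ ⟨by rw [norm_smul, norm_inv, norm_norm, inv_mul_cancel₀ hwn.ne'],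
        fun y hy => ?_⟩
      rw [inner_smul_left, inner_smul_left]
      simp only [conj_trivial]
      rw [← hfw, ← hfw]
      exact mul_le_mul_of_nonneg_left (hfx y hy) (by positivity)
    rw [inner_smul_right] at hang
    have h5 : 0 < ⟪U, w⟫ := by
      by_contra hcon
      push Not at hcon
      have : (‖w‖)⁻¹ * ⟪U, w⟫ ≤ 0 := mul_nonpos_of_nonneg_of_nonpos (by positivity) hcon
      linarith
    show f (-(U : E)) < 0
    rw [map_neg, hfw, real_inner_comm]
    linarith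
  rwa [Fintype.card_coe] at hfin

/-- Each point of a convex body is illuminated by some direction. -/
lemma exists_lit {K : Set E} (hKi : (interior K).Nonempty) {x : E} : ∃ U, Lit K x U := by
  obtain ⟨z, hz⟩ := hKi
  refine ⟨x - z, fun u hu => ?_⟩
  obtain ⟨ε, hε, hball⟩ := Metric.isOpen_iff.1 isOpen_interior z hz
  have h1 : z + (ε / 2) • u ∈ K := by
    apply interior_subset
    apply hball
    rw [Metric.mem_ball, dist_eq_norm, add_sub_cancel_left, norm_smul, hu.1, mul_one,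
      Real.norm_of_nonneg (by positivity)]
    linarith
  have h2 := hu.2 _ h1
  rw [inner_add_right, inner_smul_right, real_inner_self_eq_norm_sq, hu.1] at h2
  rw [inner_sub_left, real_inner_comm, real_inner_comm u z]
  linarith

/-- If the normals of `x` contain all directions near `c`, no other point has a normal in the
interior of this cap. -/
lemma disj {K : Set E} {x y c : E} {t : ℝ}
    (h : ∀ v, ‖v‖ = 1 → t ≤ ⟪c, v⟫ → Nml K x v) (hy : y ∈ K) (hx : x ∈ K) {u : E}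
    (hu : t < ⟪c, u⟫) (huy : Nml K y u) : x = y := by
  by_contra hne
  have hxy : 0 < ‖x - y‖ := norm_pos_iff.2 (sub_ne_zero.2 hne)
  -- the map `ε ↦ ⟪c, u - ε (x - y)⟫ - t ‖u - ε (x - y)‖` is positive at `0`
  have hcont : Continuous fun ε : ℝ => ⟪c, u - ε • (x - y)⟫ - t * ‖u - ε • (x - y)‖ := by fun_prop
  have h0 : 0 < ⟪c, u - (0 : ℝ) • (x - y)⟫ - t * ‖u - (0 : ℝ) • (x - y)‖ := by
    rw [zero_smul, sub_zero, huy.1]
    linarith
  have hopen := (isOpen_Ioi (a := (0 : ℝ))).preimage hcont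
  obtain ⟨δ, hδ, hball⟩ := Metric.isOpen_iff.1 hopen 0 h0
  have hδ2 : (δ / 2) ∈ Metric.ball (0 : ℝ) δ := by
    rw [Metric.mem_ball, dist_zero_right, Real.norm_of_nonneg (by positivity)]
    linarith
  have h1 : 0 < ⟪c, u - (δ / 2) • (x - y)⟫ - t * ‖u - (δ / 2) • (x - y)‖ := hball hδ2
  -- also near `0` the vector is nonzero
  have h2 : ⟪u - (δ / 2) • (x - y), x - y⟫ < 0 := by
    rw [inner_sub_left, inner_smul_left, real_inner_self_eq_norm_sq]
    simp only [conj_trivial]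
    have h3 : ⟪u, x - y⟫ ≤ 0 := by
      rw [inner_sub_right]
      linarith [huy.2 x hx]
    have : 0 < δ / 2 * ‖x - y‖ ^ 2 := by positivity
    linarith
  set w := u - (δ / 2) • (x - y) with hw
  have hw0 : w ≠ 0 := by
    intro h
    rw [h, inner_zero_left] at h2
    exact lt_irrefl _ h2
  have hwn : 0 < ‖w‖ := norm_pos_iff.2 hw0
  have h4 : Nml K x ((‖w‖)⁻¹ • w) := by
    refine h _ (by rw [norm_smul, norm_inv, norm_norm, inv_mul_cancel₀ hwn.ne']) ?_
    rw [inner_smul_right, inv_mul_eq_div, le_div_iff₀ hwn]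
    linarith
  have h5 := h4.2 y hy
  rw [inner_smul_left, inner_smul_left] at h5
  simp only [conj_trivial] at h5
  have h6 : ⟪w, y⟫ ≤ ⟪w, x⟫ := le_of_mul_le_mul_left h5 (by positivity)
  rw [inner_sub_right] at h2
  linarith

/-- The axes of wide normal cones at different points are far apart. -/
lemma far {K : Set E} {x y c c' : E} {τ : ℝ} (hc : ‖c‖ = 1) (hc' : ‖c'‖ = 1)
    (h : ∀ v, ‖v‖ = 1 → τ ≤ ⟪c, v⟫ → Nml K x v) (h' : ∀ v, ‖v‖ = 1 → τ ≤ ⟪c', v⟫ → Nml K y v)
    (hx : x ∈ K) (hy : y ∈ K) (hne : x ≠ y) : ⟪c, c'⟫ ≤ 2 * τ ^ 2 - 1 := by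
  by_contra hcon
  push Not at hcon
  set g := ⟪c, c'⟫ with hg
  have hcc : ⟪c, c⟫ = 1 := by rw [real_inner_self_eq_norm_sq, hc]; norm_num
  have hcc' : ⟪c', c'⟫ = 1 := by rw [real_inner_self_eq_norm_sq, hc']; norm_num
  have hgc : ⟪c', c⟫ = g := by rw [real_inner_comm]
  have hg1 : 0 < 1 + g := by nlinarith
  have hm2 : ‖c + c'‖ ^ 2 = 2 * (1 + g) := by
    rw [← real_inner_self_eq_norm_sq, inner_add_left, inner_add_right, inner_add_right, hcc, hcc',
      hgc]
    ring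
  have hm0 : 0 < ‖c + c'‖ := by
    rcases (norm_nonneg (c + c')).eq_or_lt with h0 | h0
    · rw [← h0] at hm2
      nlinarith
    · exact h0
  have key : τ * ‖c + c'‖ < 1 + g := by
    refine lt_of_pow_lt_pow_left₀ 2 hg1.le ?_
    rw [mul_pow, hm2]
    nlinarith
  have h1 : τ < ⟪c, (‖c + c'‖)⁻¹ • (c + c')⟫ := by
    rw [inner_smul_right, inner_add_right, hcc, inv_mul_eq_div, lt_div_iff₀ hm0]
    exact key
  have h2 : τ < ⟪c', (‖c + c'‖)⁻¹ • (c + c')⟫ := by
    rw [inner_smul_right, inner_add_right, hcc', hgc, inv_mul_eq_div, lt_div_iff₀ hm0]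
    linarith
  have hn : ‖(‖c + c'‖)⁻¹ • (c + c')‖ = 1 := by
    rw [norm_smul, norm_inv, norm_norm, inv_mul_cancel₀ hm0.ne']
  exact hne (disj h hy hx h1 (h' _ hn h2.le))

/-- A direction close enough to the axis of a circular cone containing the normals is fine. -/
lemma lit_of_close {K : Set E} {x c U : E} {a : ℝ} (hc : ‖c‖ = 1)
    (hn : ∀ u, Nml K x u → 0 < ⟪c, u⟫ ∧ a ≤ ⟪c, u⟫ ^ 2) (h2 : 0 < ⟪U, c⟫)
    (h3 : (1 - a) * ‖U‖ ^ 2 < ⟪U, c⟫ ^ 2) : Lit K x U := by
  intro u hu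
  obtain ⟨h4, h5⟩ := hn u hu
  refine angle hc hu.1 h4 h2 ?_
  have h6 : 0 ≤ ‖U‖ ^ 2 := sq_nonneg _
  nlinarith

lemma Rd.lit {K : Set E} {x c U : E} {t : ℝ} (h : Rd K x c t) (h2 : 0 < ⟪U, c⟫)
    (h3 : (1 - t ^ 2) * ‖U‖ ^ 2 < ⟪U, c⟫ ^ 2) : Lit K x U := by
  refine lit_of_close h.hc (a := t ^ 2) (fun u hu => ?_) h2 h3
  have h4 := (h.iff u hu.1).1 hu
  exact ⟨h.ht.trans_le h4, pow_le_pow_left₀ h.ht.le h4 2⟩

end Pool.Agent.K3h76.RB
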