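import Pool.Agent.K3h76.RB.Basic

set_option autoImplicit false

/-!
Cap bodies of balls: their normal cones are circular.
-/

namespace Pool.Agent.K3h76.RB

open scoped RealInnerProductSpace
open Metric

variable {E : Type*} [NormedAddCommGroup E] [InnerProductSpace ℝ E]

/-- The unit outer normals at `x` are those which make with `c` an angle with cosine at
least `t`, for some `t > 0`. -/
def Circ (K : Set E) (x : E) : Prop :=
  ∃ (c : E) (t : ℝ), ‖c‖ = 1 ∧ 0 < t ∧ ∀ u, ‖u‖ = 1 → (Nml K x u ↔ t ≤ ⟪c, u⟫)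

lemma nar_of_subsingleton {K : Set E} {x e : E} (he : ‖e‖ = 1) {q : ℝ} (hq : 0 < q)
    (h : ∀ u v, Nml K x u → Nml K x v → u = v) : Nar q K x := by
  by_cases hex : ∃ u, Nml K x u
  · obtain ⟨u, hu⟩ := hex
    refine ⟨u, hu.1, fun v hv => ?_⟩
    have := h u v hu hv
    subst this
    rw [real_inner_self_eq_norm_sq, hu.1]
    norm_num
    exact hq
  · exact ⟨e, he, fun u hu => absurd ⟨u, hu⟩ hex⟩

lemma Circ.cases {K : Set E} {x : E} (h : Circ K x) {q : ℝ} (hq : 0 < q) :
    Nar q K x ∨ ∃ c t, Rd K x c t := by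
  obtain ⟨c, t, hc, ht, hiff⟩ := h
  rcases lt_or_ge t 1 with h1 | h1
  · exact Or.inr ⟨c, t, ⟨hc, ht, h1, hiff⟩⟩
  · refine Or.inl ⟨c, hc, fun u hu => ?_⟩
    have h2 := (hiff u hu.1).1 hu
    have h3 : 1 ≤ ⟪c, u⟫ := h1.trans h2
    refine ⟨by linarith, ?_⟩
    nlinarith

/-- a point of the ball at maximal height -/
lemma eq_top {a z u : E} {r : ℝ} (hr : 0 ≤ r) (hu : ‖u‖ = 1) (hz : z ∈ closedBall a r)
    (h : ⟪u, a⟫ + r ≤ ⟪u, z⟫) : z = a + r • u := by
  rw [mem_closedBall, dist_eq_norm] at hz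
  have h1 : r ≤ ⟪u, z - a⟫ := by
    rw [inner_sub_right]
    linarith
  have h2 : ‖z - (a + r • u)‖ ^ 2 ≤ 0 := by
    have e : z - (a + r • u) = (z - a) - r • u := by abel
    rw [e, norm_sub_sq_real, inner_smul_right, norm_smul, hu, mul_one, Real.norm_of_nonneg hr,
      real_inner_comm]
    have h3 : ‖z - a‖ ^ 2 ≤ r ^ 2 := pow_le_pow_left₀ (norm_nonneg _) hz 2
    nlinarith
  have h3 : ‖z - (a + r • u)‖ = 0 := by
    have := norm_nonneg (z - (a + r • u))
    nlinarith
  exact sub_eq_zero.1 (norm_eq_zero.1 h3)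

section

variable {a : E} {r : ℝ} (hr : 0 < r) {P : Set E}
  (hP : ∀ p ∈ P, ∀ q ∈ P, p ≠ q → (segment ℝ p q ∩ closedBall a r).Nonempty)

include hr in
lemma top_mem {u : E} (hu : ‖u‖ = 1) :
    a + r • u ∈ convexHull ℝ (closedBall a r ∪ P) := by
  refine subset_convexHull ℝ _ (Or.inl ?_)
  rw [mem_closedBall, dist_eq_norm, add_sub_cancel_left, norm_smul, hu, mul_one,
    Real.norm_of_nonneg hr.le]

include hr in
lemma top_le {x u : E} (hn : Nml (convexHull ℝ (closedBall a r ∪ P)) x u) :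
    ⟪u, a⟫ + r ≤ ⟪u, x⟫ := by
  have := hn.2 _ (top_mem hr hn.1)
  rwa [inner_add_right, inner_smul_right, real_inner_self_eq_norm_sq, hn.1, one_pow,
    mul_one] at this

include hr hP

/-- A point with two different normals is an apex. -/
lemma apex {x u v : E} (hx : x ∈ convexHull ℝ (closedBall a r ∪ P)) (huv : u ≠ v)
    (hu : Nml (convexHull ℝ (closedBall a r ∪ P)) x u)
    (hv : Nml (convexHull ℝ (closedBall a r ∪ P)) x v) : x ∈ P ∧ r < ‖x - a‖ := by
  set S := closedBall a r ∪ P with hS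
  -- a point of the ball cannot be in both faces
  have hball : ∀ z ∈ closedBall a r, ⟪u, z⟫ = ⟪u, x⟫ → ⟪v, z⟫ = ⟪v, x⟫ → False := by
    intro z hz h1 h2
    have h3 := eq_top hr.le hu.1 hz (by rw [h1]; exact top_le hr hu)
    have h4 := eq_top hr.le hv.1 hz (by rw [h2]; exact top_le hr hv)
    rw [h3] at h4
    have h5 : r • u = r • v := add_left_cancel h4
    exact huv (smul_right_injective E hr.ne' h5)
  have hxball : x ∉ closedBall a r := fun h => hball x h rfl rfl
  refine ⟨?_, by rw [mem_closedBall, dist_eq_norm] at hxball; exact not_le.1 hxball⟩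
  obtain ⟨ι, hι, w, z, hw0, hw1, hz, hsum⟩ := mem_convexHull_iff_exists_fintype.1 hx
  have hface : ∀ y : E, Nml (convexHull ℝ S) x y → ∀ i, 0 < w i → ⟪y, z i⟫ = ⟪y, x⟫ := by
    intro y hy
    have h1 : ∑ i, w i * (⟪y, x⟫ - ⟪y, z i⟫) = 0 := by
      have h2 : ⟪y, x⟫ = ∑ i, w i * ⟪y, z i⟫ := by
        nth_rewrite 1 [← hsum]
        rw [inner_sum]
        exact Finset.sum_congr rfl fun i _ => inner_smul_right _ _ _
      simp only [mul_sub, Finset.sum_sub_distrib, ← Finset.sum_mul, hw1, one_mul]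
      rw [← h2, sub_self]
    have h3 : ∀ i, 0 ≤ w i * (⟪y, x⟫ - ⟪y, z i⟫) := fun i =>
      mul_nonneg (hw0 i) (sub_nonneg.2 (hy.2 _ (subset_convexHull ℝ S (hz i))))
    have h4 := (Finset.sum_eq_zero_iff_of_nonneg (fun i _ => h3 i)).1 h1
    intro i hi
    have h5 := h4 i (Finset.mem_univ i)
    rcases mul_eq_zero.1 h5 with h6 | h6
    · exact absurd h6 hi.ne'
    · linarith
  have hzP : ∀ i, 0 < w i → z i ∈ P := by
    intro i hi
    rcases hz i with h | h
    · exact (hball _ h (hface u hu i hi) (hface v hv i hi)).elim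
    · exact h
  obtain ⟨i₀, hi₀⟩ : ∃ i, 0 < w i := by
    by_contra hcon
    push Not at hcon
    have : ∑ i, w i ≤ 0 := Finset.sum_nonpos fun i _ => hcon i
    rw [hw1] at this
    linarith
  have heq : ∀ i, 0 < w i → z i = z i₀ := by
    intro i hi
    by_contra hne
    obtain ⟨b, hb1, hb2⟩ := hP _ (hzP i hi) _ (hzP i₀ hi₀) hne
    obtain ⟨α, β, hα, hβ, hαβ, rfl⟩ := hb1
    refine hball _ hb2 ?_ ?_
    · rw [inner_add_right, inner_smul_right, inner_smul_right, hface u hu i hi,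
        hface u hu i₀ hi₀, ← add_mul, hαβ, one_mul]
    · rw [inner_add_right, inner_smul_right, inner_smul_right, hface v hv i hi,
        hface v hv i₀ hi₀, ← add_mul, hαβ, one_mul]
  have hx2 : x = z i₀ := by
    rw [← hsum]
    have h1 : ∀ i, w i • z i = w i • z i₀ := by
      intro i
      rcases (hw0 i).eq_or_lt with h | h
      · rw [← h, zero_smul, zero_smul]
      · rw [heq i h]
    rw [Finset.sum_congr rfl fun i _ => h1 i, ← Finset.sum_smul, hw1, one_smul]
  rw [hx2]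
  exact hzP i₀ hi₀

/-- The normals at an apex. -/
lemma apex_nml {x u : E} (hx : x ∈ P) (hxr : r < ‖x - a‖) (hu : ‖u‖ = 1) :
    Nml (convexHull ℝ (closedBall a r ∪ P)) x u ↔ r ≤ ⟪u, x - a⟫ := by
  constructor
  · intro h
    have := top_le hr h
    rw [inner_sub_right]
    linarith
  · intro h
    rw [inner_sub_right] at h
    refine ⟨hu, fun y hy => ?_⟩
    have hcv : Convex ℝ {y : E | ⟪u, y⟫ ≤ ⟪u, x⟫} := by
      intro y hy z hz α β hα hβ hαβ
      have hy : ⟪u, y⟫ ≤ ⟪u, x⟫ := hy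
      have hz : ⟪u, z⟫ ≤ ⟪u, x⟫ := hz
      show ⟪u, α • y + β • z⟫ ≤ ⟪u, x⟫
      rw [inner_add_right, inner_smul_right, inner_smul_right]
      calc α * ⟪u, y⟫ + β * ⟪u, z⟫ ≤ α * ⟪u, x⟫ + β * ⟪u, x⟫ :=
            add_le_add (mul_le_mul_of_nonneg_left hy hα) (mul_le_mul_of_nonneg_left hz hβ)
        _ = ⟪u, x⟫ := by rw [← add_mul, hαβ, one_mul]
    have hball : ∀ z ∈ closedBall a r, ⟪u, z⟫ ≤ ⟪u, x⟫ := by
      intro z hz
      rw [mem_closedBall, dist_eq_norm] at hz
      have h1 : ⟪u, z - a⟫ ≤ ‖u‖ * ‖z - a‖ := real_inner_le_norm _ _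
      rw [hu, one_mul, inner_sub_right] at h1
      linarith
    refine convexHull_min ?_ hcv hy
    rintro z (hz | hz)
    · exact hball z hz
    · rcases eq_or_ne x z with rfl | hne
      · show ⟪u, x⟫ ≤ ⟪u, x⟫
        exact le_rfl
      · obtain ⟨b, hb1, hb2⟩ := hP _ hx _ hz hne
        obtain ⟨α, β, hα, hβ, hαβ, rfl⟩ := hb1
        have h1 := hball _ hb2
        rw [inner_add_right, inner_smul_right, inner_smul_right] at h1
        rcases hβ.eq_or_lt with h0 | h0
        · exfalso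
          rw [← h0, zero_smul, add_zero] at hb2
          have hα1 : α = 1 := by linarith
          rw [hα1, one_smul, mem_closedBall, dist_eq_norm] at hb2
          linarith
        · have h2 : β * ⟪u, z⟫ ≤ β * ⟪u, x⟫ := by
            have : α = 1 - β := by linarith
            rw [this] at h1
            linarith
          exact le_of_mul_le_mul_left h2 h0

/-- All points of a cap body have circular normal cones. -/
theorem capbody {e : E} (he : ‖e‖ = 1) {q : ℝ} (hq : 0 < q) {x : E}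
    (hx : x ∈ convexHull ℝ (closedBall a r ∪ P)) :
    Nar q (convexHull ℝ (closedBall a r ∪ P)) x ∨ Circ (convexHull ℝ (closedBall a r ∪ P)) x := by
  by_cases h : ∀ u v, Nml (convexHull ℝ (closedBall a r ∪ P)) x u →
    Nml (convexHull ℝ (closedBall a r ∪ P)) x v → u = v
  · exact Or.inl (nar_of_subsingleton he hq h)
  · push Not at h
    obtain ⟨u, v, hu, hv, huv⟩ := h
    obtain ⟨hxP, hxr⟩ := apex hr hP hx huv hu hv
    right
    have hxn : 0 < ‖x - a‖ := hr.trans hxr
    refine ⟨(‖x - a‖)⁻¹ • (x - a), r / ‖x - a‖, by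
      rw [norm_smul, norm_inv, norm_norm, inv_mul_cancel₀ hxn.ne'], by positivity, ?_⟩
    intro w hw
    rw [apex_nml hr hP hxP hxr hw, inner_smul_left]
    simp only [conj_trivial]
    rw [inv_mul_eq_div, div_le_div_iff_of_pos_right hxn, real_inner_comm]

end

end Pool.Agent.K3h76.RB
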