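import Pool.Agent.K3h76.SD.Codes
import Pool.Agent.K3h76.SD.Small

set_option autoImplicit false

/-!
The explicit sphere codes again, with their sizes.
-/

namespace Pool.Agent.K3h76.RB

open scoped RealInnerProductSpace
open Finset
open Pool.Agent.K3h76.SD

theorem code6' : Code (EuclideanSpace ℝ (Fin 6)) 44 6 := by
  refine code_of (s := orb A6 B6) ?_ 800 1862 (by norm_num) ?_
  · refine (orb_card _ _ ?_).trans ((Nat.add_le_add cardA6 cardB6).trans (by norm_num))
    intro S hS
    rw [← card_pos]
    have := (mem_powersetCard.1 hS).2
    omega
  · intro n τ hτ h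
    obtain ⟨σ, hσ⟩ := exists_sort n
    have hk := hyper 6 2 _ _ _ _ _ _ _ _ chk6 (a := ext0 fun i => |n (σ i)|)
      (fun i => ext0_anti hσ (fun _ => abs_nonneg _) i) (ext0_end _) hτ ?_
    · rw [norm_sorted] at hk
      exact_mod_cast hk
    · intro i hi
      interval_cases i
      · have hc := con_flat (σ := σ) h (K := 1) (by norm_num) (fun S hS => mem_pc S hS)
        have hb := ratio_bound (Q := 20) (R := 20) hc hτ (by norm_num)
        simpa [ev] using hb
      · have hc := con_even (σ := σ) h (by norm_num) (mem_pc univ (by simp))
        have hb := ratio_bound (Q := 20) (R := 49) (w := 6) hc hτ (by norm_num)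
        simp only [Nat.reduceSub] at hb
        simp only [List.getD_cons_succ, List.getD_cons_zero, ev, List.map_cons, List.map_nil,
          List.sum_cons, List.sum_nil]
        push_cast at hb ⊢
        linarith

theorem code9' : Code (EuclideanSpace ℝ (Fin 9)) 418 9 := by
  refine code_of (s := orb A9 B9) ?_ 12000 25653 (by norm_num) ?_
  · refine (orb_card _ _ ?_).trans ((Nat.add_le_add cardA9 cardB9).trans (by norm_num))
    intro S hS
    rw [← card_pos]
    have := (mem_powersetCard.1 hS).2
    omega
  · intro n τ hτ h
    obtain ⟨σ, hσ⟩ := exists_sort n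
    have hk := hyper 9 3 _ _ _ _ _ _ _ _ chk9 (a := ext0 fun i => |n (σ i)|)
      (fun i => ext0_anti hσ (fun _ => abs_nonneg _) i) (ext0_end _) hτ ?_
    · rw [norm_sorted] at hk
      exact_mod_cast hk
    · intro i hi
      interval_cases i
      · have hc := con_flat (σ := σ) h (K := 1) (by norm_num) (fun S hS => mem_union_left _ (mem_pc S hS))
        have hb := ratio_bound (Q := 20) (R := 20) hc hτ (by norm_num)
        simpa [ev] using hb
      · have hc := con_flat (σ := σ) h (K := 2) (by norm_num) (fun S hS => mem_union_right _ (mem_pc S hS))
        have hb := ratio_bound (Q := 20) (R := 29) hc hτ (by norm_num)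
        simpa [ev] using hb
      · have hc := con_even (σ := σ) h (by norm_num) (mem_pc univ (by simp))
        have hb := ratio_bound (Q := 20) (R := 60) (w := 9) hc hτ (by norm_num)
        simp only [Nat.reduceSub] at hb
        simp only [List.getD_cons_succ, List.getD_cons_zero, ev, List.map_cons, List.map_nil,
          List.sum_cons, List.sum_nil]
        push_cast at hb ⊢
        linarith

theorem code10' : Code (EuclideanSpace ℝ (Fin 10)) 712 10 := by
  refine code_of (s := orb A10 B10) ?_ 125000 273315 (by norm_num) ?_
  · refine (orb_card _ _ ?_).trans ((Nat.add_le_add cardA10 cardB10).trans (by norm_num))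
    intro S hS
    rw [← card_pos]
    have := (mem_powersetCard.1 hS).2
    omega
  · intro n τ hτ h
    obtain ⟨σ, hσ⟩ := exists_sort n
    have hk := hyper 10 3 _ _ _ _ _ _ _ _ chk10 (a := ext0 fun i => |n (σ i)|)
      (fun i => ext0_anti hσ (fun _ => abs_nonneg _) i) (ext0_end _) hτ ?_
    · rw [norm_sorted] at hk
      exact_mod_cast hk
    · intro i hi
      interval_cases i
      · have hc := con_flat (σ := σ) h (K := 1) (by norm_num) (fun S hS => mem_union_left _ (mem_pc S hS))
        have hb := ratio_bound (Q := 50) (R := 50) hc hτ (by norm_num)
        simpa [ev] using hb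
      · have hc := con_flat (σ := σ) h (K := 2) (by norm_num) (fun S hS => mem_union_right _ (mem_pc S hS))
        have hb := ratio_bound (Q := 50) (R := 71) hc hτ (by norm_num)
        simpa [ev] using hb
      · have hc := con_even (σ := σ) h (by norm_num) (mem_pc univ (by simp))
        have hb := ratio_bound (Q := 50) (R := 159) (w := 10) hc hτ (by norm_num)
        simp only [Nat.reduceSub] at hb
        simp only [List.getD_cons_succ, List.getD_cons_zero, ev, List.map_cons, List.map_nil,
          List.sum_cons, List.sum_nil]
        push_cast at hb ⊢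
        linarith

theorem code11' : Code (EuclideanSpace ℝ (Fin 11)) 1506 11 := by
  refine code_of (s := orb A11 B11) ?_ 200000 433250 (by norm_num) ?_
  · refine (orb_card _ _ ?_).trans ((Nat.add_le_add cardA11 cardB11).trans (by norm_num))
    intro S hS
    rw [← card_pos]
    have := (mem_powersetCard.1 hS).2
    omega
  · intro n τ hτ h
    obtain ⟨σ, hσ⟩ := exists_sort n
    have hk := hyper 11 4 _ _ _ _ _ _ _ _ chk11 (a := ext0 fun i => |n (σ i)|)
      (fun i => ext0_anti hσ (fun _ => abs_nonneg _) i) (ext0_end _) hτ ?_
    · rw [norm_sorted] at hk
      exact_mod_cast hk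
    · intro i hi
      interval_cases i
      · have hc := con_flat (σ := σ) h (K := 1) (by norm_num) (fun S hS => mem_union_left _ (mem_union_left _ (mem_union_left _ (mem_pc S hS))))
        have hb := ratio_bound (Q := 50) (R := 50) hc hτ (by norm_num)
        simpa [ev] using hb
      · have hc := con_flat (σ := σ) h (K := 2) (by norm_num) (fun S hS => mem_union_left _ (mem_union_left _ (mem_union_right _ (mem_pc S hS))))
        have hb := ratio_bound (Q := 50) (R := 71) hc hτ (by norm_num)
        simpa [ev] using hb
      · have hc := con_triples (σ := σ) h hσ (by norm_num) (fun i : Fin 11 => decide (i.val < 5)) ?_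
        · have hb := ratio_bound (Q := 50) (R := 87) (w := 3) (by exact_mod_cast hc) hτ (by norm_num)
          simp only [List.getD_cons_succ, List.getD_cons_zero, ev, List.map_cons, List.map_nil,
            List.sum_cons, List.sum_nil]
          push_cast at hb ⊢
          linarith
        · intro i j k hij hik hjk hp hq
          by_cases hi : i.val < 5
          · have hj : j.val < 5 := by simpa [hi] using hp
            have hk : k.val < 5 := by simpa [hj] using hq
            exact mem_union_left _ (mem_union_right _ (mem_powersetCard.2 ⟨by simp [insert_subset_iff, hi, hj, hk],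
              card_eq_three.2 ⟨_, _, _, hij, hik, hjk, rfl⟩⟩))
          · have hj : ¬ j.val < 5 := by simpa [hi] using hp
            have hk : ¬ k.val < 5 := by simpa [hj] using hq
            exact mem_union_right _ (mem_powersetCard.2 ⟨by simp [insert_subset_iff, not_lt.1 hi, not_lt.1 hj, not_lt.1 hk],
              card_eq_three.2 ⟨_, _, _, hij, hik, hjk, rfl⟩⟩)
      · have hc := con_even (σ := σ) h (by norm_num) (mem_pc univ (by simp))
        have hb := ratio_bound (Q := 50) (R := 166) (w := 11) hc hτ (by norm_num)
        simp only [Nat.reduceSub] at hb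
        simp only [List.getD_cons_succ, List.getD_cons_zero, ev, List.map_cons, List.map_nil,
          List.sum_cons, List.sum_nil]
        push_cast at hb ⊢
        linarith

theorem code12' : Code (EuclideanSpace ℝ (Fin 12)) 3832 12 := by
  refine code_of (s := orb A12 B12) ?_ 3200 6825 (by norm_num) ?_
  · refine (orb_card _ _ ?_).trans ((Nat.add_le_add cardA12 cardB12).trans (by norm_num))
    intro S hS
    rw [← card_pos]
    have := (mem_powersetCard.1 hS).2
    omega
  · intro n τ hτ h
    obtain ⟨σ, hσ⟩ := exists_sort n
    have hk := hyper 12 3 _ _ _ _ _ _ _ _ chk12 (a := ext0 fun i => |n (σ i)|)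
      (fun i => ext0_anti hσ (fun _ => abs_nonneg _) i) (ext0_end _) hτ ?_
    · rw [norm_sorted] at hk
      exact_mod_cast hk
    · intro i hi
      interval_cases i
      · have hc := con_flat (σ := σ) h (K := 1) (by norm_num) (fun S hS => mem_union_left _ (mem_pc S hS))
        have hb := ratio_bound (Q := 20) (R := 20) hc hτ (by norm_num)
        simpa [ev] using hb
      · have hc := con_flat (σ := σ) h (K := 3) (by norm_num) (fun S hS => mem_union_right _ (mem_pc S hS))
        have hb := ratio_bound (Q := 20) (R := 35) hc hτ (by norm_num)
        simpa [ev] using hb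
      · have hc := con_even (σ := σ) h (by norm_num) (mem_pc univ (by simp))
        have hb := ratio_bound (Q := 20) (R := 70) (w := 12) hc hτ (by norm_num)
        simp only [Nat.reduceSub] at hb
        simp only [List.getD_cons_succ, List.getD_cons_zero, ev, List.map_cons, List.map_nil,
          List.sum_cons, List.sum_nil]
        push_cast at hb ⊢
        linarith

theorem code13' : Code (EuclideanSpace ℝ (Fin 13)) 6410 13 := by
  refine code_of (s := orb A13 B13) ?_ 40000 82878 (by norm_num) ?_
  · refine (orb_card _ _ ?_).trans ((Nat.add_le_add cardA13 cardB13).trans (by norm_num))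
    intro S hS
    rw [← card_pos]
    have := (mem_powersetCard.1 hS).2
    omega
  · intro n τ hτ h
    obtain ⟨σ, hσ⟩ := exists_sort n
    have hk := hyper 13 3 _ _ _ _ _ _ _ _ chk13 (a := ext0 fun i => |n (σ i)|)
      (fun i => ext0_anti hσ (fun _ => abs_nonneg _) i) (ext0_end _) hτ ?_
    · rw [norm_sorted] at hk
      exact_mod_cast hk
    · intro i hi
      interval_cases i
      · have hc := con_flat (σ := σ) h (K := 1) (by norm_num) (fun S hS => mem_union_left _ (mem_pc S hS))
        have hb := ratio_bound (Q := 20) (R := 20) hc hτ (by norm_num)
        simpa [ev] using hb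
      · have hc := con_flat (σ := σ) h (K := 3) (by norm_num) (fun S hS => mem_union_right _ (mem_pc S hS))
        have hb := ratio_bound (Q := 20) (R := 35) hc hτ (by norm_num)
        simpa [ev] using hb
      · have hc := con_even (σ := σ) h (by norm_num) (mem_pc univ (by simp))
        have hb := ratio_bound (Q := 20) (R := 73) (w := 13) hc hτ (by norm_num)
        simp only [Nat.reduceSub] at hb
        simp only [List.getD_cons_succ, List.getD_cons_zero, ev, List.map_cons, List.map_nil,
          List.sum_cons, List.sum_nil]
        push_cast at hb ⊢
        linarith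

theorem code14' : Code (EuclideanSpace ℝ (Fin 14)) 11132 14 := by
  refine code_of (s := orb A14 B14) ?_ 6000 12720 (by norm_num) ?_
  · refine (orb_card _ _ ?_).trans ((Nat.add_le_add cardA14 cardB14).trans (by norm_num))
    intro S hS
    rw [← card_pos]
    have := (mem_powersetCard.1 hS).2
    omega
  · intro n τ hτ h
    obtain ⟨σ, hσ⟩ := exists_sort n
    have hk := hyper 14 3 _ _ _ _ _ _ _ _ chk14 (a := ext0 fun i => |n (σ i)|)
      (fun i => ext0_anti hσ (fun _ => abs_nonneg _) i) (ext0_end _) hτ ?_
    · rw [norm_sorted] at hk
      exact_mod_cast hk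
    · intro i hi
      interval_cases i
      · have hc := con_flat (σ := σ) h (K := 1) (by norm_num) (fun S hS => mem_union_left _ (mem_pc S hS))
        have hb := ratio_bound (Q := 20) (R := 20) hc hτ (by norm_num)
        simpa [ev] using hb
      · have hc := con_flat (σ := σ) h (K := 3) (by norm_num) (fun S hS => mem_union_right _ (mem_pc S hS))
        have hb := ratio_bound (Q := 20) (R := 35) hc hτ (by norm_num)
        simpa [ev] using hb
      · have hc := con_even (σ := σ) h (by norm_num) (mem_pc univ (by simp))
        have hb := ratio_bound (Q := 20) (R := 75) (w := 14) hc hτ (by norm_num)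
        simp only [Nat.reduceSub] at hb
        simp only [List.getD_cons_succ, List.getD_cons_zero, ev, List.map_cons, List.map_nil,
          List.sum_cons, List.sum_nil]
        push_cast at hb ⊢
        linarith

theorem code15' : Code (EuclideanSpace ℝ (Fin 15)) 31394 15 := by
  refine code_of (s := orb A15 B15) ?_ 120000 255080 (by norm_num) ?_
  · refine (orb_card _ _ ?_).trans ((Nat.add_le_add cardA15 cardB15).trans (by norm_num))
    intro S hS
    rw [← card_pos]
    rcases mem_union.1 hS with hS | hS
    · have := (mem_powersetCard.1 hS).2
      omega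
    · have := (mem_powersetCard.1 hS).2
      omega
  · intro n τ hτ h
    obtain ⟨σ, hσ⟩ := exists_sort n
    have hk := hyper 15 5 _ _ _ _ _ _ _ _ chk15 (a := ext0 fun i => |n (σ i)|)
      (fun i => ext0_anti hσ (fun _ => abs_nonneg _) i) (ext0_end _) hτ ?_
    · rw [norm_sorted] at hk
      exact_mod_cast hk
    · intro i hi
      interval_cases i
      · have hc := con_flat (σ := σ) h (K := 1) (by norm_num) (fun S hS => mem_union_left _ (mem_union_left _ (mem_pc S hS)))
        have hb := ratio_bound (Q := 20) (R := 20) hc hτ (by norm_num)
        simpa [ev] using hb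
      · have hc := con_flat (σ := σ) h (K := 2) (by norm_num) (fun S hS => mem_union_left _ (mem_union_right _ (mem_pc S hS)))
        have hb := ratio_bound (Q := 20) (R := 29) hc hτ (by norm_num)
        simpa [ev] using hb
      · have hc := con_flat (σ := σ) h (K := 3) (by norm_num) (fun S hS => mem_union_right _ (mem_pc S hS))
        have hb := ratio_bound (Q := 20) (R := 35) hc hτ (by norm_num)
        simpa [ev] using hb
      · have hc := con_four (σ := σ) h hσ (by norm_num) (fun S hS => mem_union_left _ (mem_pc S hS))
        simp only [List.getD_cons_succ, List.getD_cons_zero, ev, List.map_cons, List.map_nil,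
          List.sum_cons, List.sum_nil]
        push_cast
        linarith
      · have hc := con_even (σ := σ) h (by norm_num) (mem_union_right _ (mem_pc univ (by simp)))
        have hb := ratio_bound (Q := 20) (R := 78) (w := 15) hc hτ (by norm_num)
        simp only [Nat.reduceSub] at hb
        simp only [List.getD_cons_succ, List.getD_cons_zero, ev, List.map_cons, List.map_nil,
          List.sum_cons, List.sum_nil]
        push_cast at hb ⊢
        linarith

theorem code16' : Code (EuclideanSpace ℝ (Fin 16)) 62400 16 := by
  refine code_of (s := orb A16 B16) ?_ 2000 4190 (by norm_num) ?_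
  · refine (orb_card _ _ ?_).trans ((Nat.add_le_add cardA16 cardB16).trans (by norm_num))
    intro S hS
    rw [← card_pos]
    have := (mem_powersetCard.1 hS).2
    omega
  · intro n τ hτ h
    obtain ⟨σ, hσ⟩ := exists_sort n
    have hk := hyper 16 4 _ _ _ _ _ _ _ _ chk16 (a := ext0 fun i => |n (σ i)|)
      (fun i => ext0_anti hσ (fun _ => abs_nonneg _) i) (ext0_end _) hτ ?_
    · rw [norm_sorted] at hk
      exact_mod_cast hk
    · intro i hi
      interval_cases i
      · have hc := con_flat (σ := σ) h (K := 1) (by norm_num) (fun S hS => mem_union_left _ (mem_union_left _ (mem_pc S hS)))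
        have hb := ratio_bound (Q := 10) (R := 10) hc hτ (by norm_num)
        simpa [ev] using hb
      · have hc := con_flat (σ := σ) h (K := 2) (by norm_num) (fun S hS => mem_union_left _ (mem_union_right _ (mem_pc S hS)))
        have hb := ratio_bound (Q := 10) (R := 15) hc hτ (by norm_num)
        simpa [ev] using hb
      · have hc := con_flat (σ := σ) h (K := 4) (by norm_num) (fun S hS => mem_union_right _ (mem_pc S hS))
        have hb := ratio_bound (Q := 10) (R := 20) hc hτ (by norm_num)
        simpa [ev] using hb
      · have hc := con_even (σ := σ) h (by norm_num) (mem_pc univ (by simp))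
        have hb := ratio_bound (Q := 10) (R := 40) (w := 16) hc hτ (by norm_num)
        simp only [Nat.reduceSub] at hb
        simp only [List.getD_cons_succ, List.getD_cons_zero, ev, List.map_cons, List.map_nil,
          List.sum_cons, List.sum_nil]
        push_cast at hb ⊢
        linarith

theorem code17' : Code (EuclideanSpace ℝ (Fin 17)) 104194 17 := by
  refine code_of (s := orb A17 B17) ?_ 10000 20862 (by norm_num) ?_
  · refine (orb_card _ _ ?_).trans ((Nat.add_le_add cardA17 cardB17).trans (by norm_num))
    intro S hS
    rw [← card_pos]
    have := (mem_powersetCard.1 hS).2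
    omega
  · intro n τ hτ h
    obtain ⟨σ, hσ⟩ := exists_sort n
    have hk := hyper 17 4 _ _ _ _ _ _ _ _ chk17 (a := ext0 fun i => |n (σ i)|)
      (fun i => ext0_anti hσ (fun _ => abs_nonneg _) i) (ext0_end _) hτ ?_
    · rw [norm_sorted] at hk
      exact_mod_cast hk
    · intro i hi
      interval_cases i
      · have hc := con_flat (σ := σ) h (K := 1) (by norm_num) (fun S hS => mem_union_left _ (mem_union_left _ (mem_pc S hS)))
        have hb := ratio_bound (Q := 10) (R := 10) hc hτ (by norm_num)
        simpa [ev] using hb
      · have hc := con_flat (σ := σ) h (K := 2) (by norm_num) (fun S hS => mem_union_left _ (mem_union_right _ (mem_pc S hS)))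
        have hb := ratio_bound (Q := 10) (R := 15) hc hτ (by norm_num)
        simpa [ev] using hb
      · have hc := con_flat (σ := σ) h (K := 4) (by norm_num) (fun S hS => mem_union_right _ (mem_pc S hS))
        have hb := ratio_bound (Q := 10) (R := 20) hc hτ (by norm_num)
        simpa [ev] using hb
      · have hc := con_even (σ := σ) h (by norm_num) (mem_pc univ (by simp))
        have hb := ratio_bound (Q := 10) (R := 42) (w := 17) hc hτ (by norm_num)
        simp only [Nat.reduceSub] at hb
        simp only [List.getD_cons_succ, List.getD_cons_zero, ev, List.map_cons, List.map_nil,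
          List.sum_cons, List.sum_nil]
        push_cast at hb ⊢
        linarith

theorem code18' : Code (EuclideanSpace ℝ (Fin 18)) 180680 18 := by
  refine code_of (s := orb A18 B18) ?_ 30000 63253 (by norm_num) ?_
  · refine (orb_card _ _ ?_).trans ((Nat.add_le_add cardA18 cardB18).trans (by norm_num))
    intro S hS
    rw [← card_pos]
    have := (mem_powersetCard.1 hS).2
    omega
  · intro n τ hτ h
    obtain ⟨σ, hσ⟩ := exists_sort n
    have hk := hyper 18 4 _ _ _ _ _ _ _ _ chk18 (a := ext0 fun i => |n (σ i)|)
      (fun i => ext0_anti hσ (fun _ => abs_nonneg _) i) (ext0_end _) hτ ?_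
    · rw [norm_sorted] at hk
      exact_mod_cast hk
    · intro i hi
      interval_cases i
      · have hc := con_flat (σ := σ) h (K := 1) (by norm_num) (fun S hS => mem_union_left _ (mem_union_left _ (mem_pc S hS)))
        have hb := ratio_bound (Q := 10) (R := 10) hc hτ (by norm_num)
        simpa [ev] using hb
      · have hc := con_flat (σ := σ) h (K := 2) (by norm_num) (fun S hS => mem_union_left _ (mem_union_right _ (mem_pc S hS)))
        have hb := ratio_bound (Q := 10) (R := 15) hc hτ (by norm_num)
        simpa [ev] using hb
      · have hc := con_flat (σ := σ) h (K := 4) (by norm_num) (fun S hS => mem_union_right _ (mem_pc S hS))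
        have hb := ratio_bound (Q := 10) (R := 20) hc hτ (by norm_num)
        simpa [ev] using hb
      · have hc := con_even (σ := σ) h (by norm_num) (mem_pc univ (by simp))
        have hb := ratio_bound (Q := 10) (R := 43) (w := 18) hc hτ (by norm_num)
        simp only [Nat.reduceSub] at hb
        simp only [List.getD_cons_succ, List.getD_cons_zero, ev, List.map_cons, List.map_nil,
          List.sum_cons, List.sum_nil]
        push_cast at hb ⊢
        linarith

end Pool.Agent.K3h76.RB
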