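import Pool.Agent.K3h76.SD.Sorted

set_option autoImplicit false

/-!
Two more explicit sphere codes, in dimensions 7 and 8.
-/

namespace Pool.Agent.K3h76.RB

open scoped RealInnerProductSpace
open Finset
open Pool.Agent.K3h76.SD

/-- Criterion for a code. -/
lemma code_ofR {E : Type*} [NormedAddCommGroup E] [InnerProductSpace ℝ E]
    {s : Finset E} {N : ℕ} (hs : s.card ≤ N) {q : ℝ} (hq : 0 ≤ q) (M B : ℕ) (hMB : B * q < M)
    (key : ∀ (n : E) (τ : ℝ), 0 ≤ τ → (∀ u ∈ s, ⟪u, n⟫ ≤ ‖u‖ * τ) →
      M * ‖n‖ ^ 2 ≤ B * τ ^ 2) : CodeR E N q := by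
  refine ⟨s, hs, fun n hn => ?_⟩
  by_contra hcon
  push Not at hcon
  have hn0 : 0 < ‖n‖ := norm_pos_iff.2 hn
  have hτ2 : √q ^ 2 = q := Real.sq_sqrt hq
  have h1 := key n (√q * ‖n‖) (by positivity) (by
    intro u hu
    by_cases h0 : 0 < ⟪u, n⟫
    · have h2 := hcon u hu h0
      refine le_of_sq_le_sq ?_ (by positivity)
      have h3 : (‖u‖ * (√q * ‖n‖)) ^ 2 = q * (‖u‖ ^ 2 * ‖n‖ ^ 2) := by
        rw [mul_pow, mul_pow, hτ2]
        ring
      rw [h3]
      linarith
    · exact (not_lt.1 h0).trans (by positivity))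
  rw [mul_pow, hτ2] at h1
  have h6 : 0 < ‖n‖ ^ 2 := by positivity
  have h7 : (M : ℝ) * ‖n‖ ^ 2 ≤ B * q * ‖n‖ ^ 2 := by linarith
  have h8 := le_of_mul_le_mul_right h7 h6
  linarith

theorem chk7' : Chk 7 2 10 300 747 [10, 27]
    [[(1, 1)], [(2, 6), (-1, 7)]]
    [[10, -10, -10, -10, -10, -10, -10, -10], [27, -10, -20, -30, -40, -50, -60, -50]]
    [[18, 25, 60, 0, 0, 0, 0, 0], [21, 5, 0, 30, 30, 30, 30, 42]]
    [[0, 0], [0, 0]] := by
  decide +kernel

theorem chk8' : Chk 8 2 50 2500 6764 [50, 142]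
    [[(1, 1)], [(2, 7), (-1, 8)]]
    [[50, -50, -50, -50, -50, -50, -50, -50, -50],
      [142, -50, -100, -150, -200, -250, -300, -350, -300]]
    [[16, 46, 100, 0, 0, 0, 0, 0, 0], [42, 4, 0, 50, 50, 50, 50, 50, 67]]
    [[0, 0], [0, 0]] := by
  decide +kernel

/-- supports, all signs -/
def A7' : Finset (Finset (Fin 7)) :=
  powersetCard 1 univ

/-- supports, even number of minus signs -/
def B7' : Finset (Finset (Fin 7)) :=
  powersetCard 7 univ

lemma cardA7' : ∑ S ∈ A7', 2 ^ S.card ≤ 14 := by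
  unfold A7'
  rw [pc_sum]
  decide +kernel

lemma cardB7' : ∑ S ∈ B7', 2 ^ (S.card - 1) ≤ 64 := by
  unfold B7'
  rw [pc_sum']
  decide +kernel

theorem code7' : CodeR (EuclideanSpace ℝ (Fin 7)) 78 (2 / 5) := by
  refine code_ofR (s := orb A7' B7') ?_ (by norm_num) 300 747 (by norm_num) ?_
  · refine (orb_card _ _ ?_).trans ((Nat.add_le_add cardA7' cardB7').trans (by norm_num))
    intro S hS
    rw [← card_pos]
    have := (mem_powersetCard.1 hS).2
    omega
  · intro n τ hτ h
    obtain ⟨σ, hσ⟩ := exists_sort n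
    have hk := hyper 7 2 _ _ _ _ _ _ _ _ chk7' (a := ext0 fun i => |n (σ i)|)
      (fun i => ext0_anti hσ (fun _ => abs_nonneg _) i) (ext0_end _) hτ ?_
    · rw [norm_sorted] at hk
      exact_mod_cast hk
    · intro i hi
      interval_cases i
      · have hc := con_flat (σ := σ) h (K := 1) (by norm_num) (fun S hS => mem_pc S hS)
        have hb := ratio_bound (Q := 10) (R := 10) hc hτ (by norm_num)
        simpa [ev] using hb
      · have hc := con_even (σ := σ) h (by norm_num) (mem_pc univ (by simp))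
        have hb := ratio_bound (Q := 10) (R := 27) (w := 7) hc hτ (by norm_num)
        simp only [Nat.reduceSub] at hb
        simp only [List.getD_cons_succ, List.getD_cons_zero, ev, List.map_cons, List.map_nil,
          List.sum_cons, List.sum_nil]
        push_cast at hb ⊢
        linarith

/-- supports, all signs -/
def A8' : Finset (Finset (Fin 8)) :=
  powersetCard 1 univ

/-- supports, even number of minus signs -/
def B8' : Finset (Finset (Fin 8)) :=
  powersetCard 8 univ

lemma cardA8' : ∑ S ∈ A8', 2 ^ S.card ≤ 16 := by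
  unfold A8'
  rw [pc_sum]
  decide +kernel

lemma cardB8' : ∑ S ∈ B8', 2 ^ (S.card - 1) ≤ 128 := by
  unfold B8'
  rw [pc_sum']
  decide +kernel

theorem code8' : CodeR (EuclideanSpace ℝ (Fin 8)) 144 (9 / 25) := by
  refine code_ofR (s := orb A8' B8') ?_ (by norm_num) 2500 6764 (by norm_num) ?_
  · refine (orb_card _ _ ?_).trans ((Nat.add_le_add cardA8' cardB8').trans (by norm_num))
    intro S hS
    rw [← card_pos]
    have := (mem_powersetCard.1 hS).2
    omega
  · intro n τ hτ h
    obtain ⟨σ, hσ⟩ := exists_sort n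
    have hk := hyper 8 2 _ _ _ _ _ _ _ _ chk8' (a := ext0 fun i => |n (σ i)|)
      (fun i => ext0_anti hσ (fun _ => abs_nonneg _) i) (ext0_end _) hτ ?_
    · rw [norm_sorted] at hk
      exact_mod_cast hk
    · intro i hi
      interval_cases i
      · have hc := con_flat (σ := σ) h (K := 1) (by norm_num) (fun S hS => mem_pc S hS)
        have hb := ratio_bound (Q := 50) (R := 50) hc hτ (by norm_num)
        simpa [ev] using hb
      · have hc := con_even (σ := σ) h (by norm_num) (mem_pc univ (by simp))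
        have hb := ratio_bound (Q := 50) (R := 142) (w := 8) hc hτ (by norm_num)
        simp only [Nat.reduceSub] at hb
        simp only [List.getD_cons_succ, List.getD_cons_zero, ev, List.map_cons, List.map_nil,
          List.sum_cons, List.sum_nil]
        push_cast at hb ⊢
        linarith

end Pool.Agent.K3h76.RB
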