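import Pool.Agent.K3h76.RB.Haar
import Pool.Agent.K3h76.SD.CapG

set_option autoImplicit false

/-!
Bodies with circular normal cones in dimensions three and four.
-/

namespace Pool.Agent.K3h76.RB

open scoped RealInnerProductSpace
open MeasureTheory Module Metric Set
open Pool.Agent.K3h76.SD Pool.Agent.W396.Il

variable {n : ℕ}

/-- the vectors which make with all the vectors of the frame an angle with cosine at most `s` -/
def Un (s : ℝ) (b : OrthonormalBasis (Fin (n + 1)) ℝ (Fs n)) : Set (Fs n) :=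
  {y | ∀ i, |⟪b i, y⟫| ≤ s * ‖y‖}

lemma Un_closed (s : ℝ) (b : OrthonormalBasis (Fin (n + 1)) ℝ (Fs n)) : IsClosed (Un s b) := by
  have : Un s b = ⋂ i, {y : Fs n | |⟪b i, y⟫| ≤ s * ‖y‖} := by
    ext y
    simp [Un]
  rw [this]
  exact isClosed_iInter fun i => isClosed_le (by fun_prop) (by fun_prop)

lemma Un_cone (s : ℝ) (b : OrthonormalBasis (Fin (n + 1)) ℝ (Fs n)) (x : Fs n) (r : ℝ)
    (hr : 0 < r) : r • x ∈ Un s b ↔ x ∈ Un s b := by
  have : ∀ i, |⟪b i, r • x⟫| ≤ s * ‖r • x‖ ↔ |⟪b i, x⟫| ≤ s * ‖x‖ := by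
    intro i
    rw [inner_smul_right, abs_mul, abs_of_pos hr, norm_smul, Real.norm_of_nonneg hr.le]
    constructor
    · intro h
      have h1 : r * |⟪b i, x⟫| ≤ r * (s * ‖x‖) := by linarith
      exact le_of_mul_le_mul_left h1 hr
    · intro h
      have := mul_le_mul_of_nonneg_left h hr.le
      linarith
  exact forall_congr' this

lemma Un_mono {s s' : ℝ} (h : s ≤ s') (b : OrthonormalBasis (Fin (n + 1)) ℝ (Fs n)) :
    Un s b ⊆ Un s' b := fun _ hy i =>
  (hy i).trans (mul_le_mul_of_nonneg_right h (norm_nonneg _))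

lemma Un_fin (s : ℝ) (b : OrthonormalBasis (Fin (n + 1)) ℝ (Fs n)) :
    volume (Un s b ∩ closedBall (0 : Fs n) 1) ≠ ⊤ := by
  refine ne_top_of_le_ne_top ?_ (measure_mono inter_subset_right)
  rw [ball_vol]
  exact ENNReal.ofReal_ne_top

/-- The points not illuminated by the frame. -/
lemma unlit_mem {K : Set (Fs n)} {x c : Fs n} {t : ℝ} (h : Rd K x c t)
    (b : OrthonormalBasis (Fin (n + 1)) ℝ (Fs n)) (φ : Fs n ≃ₗᵢ[ℝ] Fs n) [DecidableEq (Fs n)]
    (hu : ∀ U ∈ frame (b.map φ), ¬ Lit K x U) : φ.symm c ∈ Un (√(1 - t ^ 2)) b := by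
  have ht2 : t ^ 2 < 1 := by
    have := h.ht
    have := h.ht1
    nlinarith
  have hs2 : √(1 - t ^ 2) ^ 2 = 1 - t ^ 2 := Real.sq_sqrt (by linarith)
  have hs0 : 0 ≤ √(1 - t ^ 2) := Real.sqrt_nonneg _
  intro i
  rw [φ.symm.norm_map, h.hc, mul_one]
  by_contra hcon
  push Not at hcon
  have hin : ⟪b.map φ i, c⟫ = ⟪b i, φ.symm c⟫ := by
    rw [OrthonormalBasis.map_apply, ← φ.inner_map_map (b i), φ.apply_symm_apply]
  have hnorm : ‖b.map φ i‖ = 1 := (b.map φ).norm_eq_one i
  have h2 : √(1 - t ^ 2) ^ 2 < ⟪b i, φ.symm c⟫ ^ 2 := by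
    rw [← sq_abs ⟪b i, φ.symm c⟫]
    exact pow_lt_pow_left₀ hcon hs0 (by norm_num)
  rw [hs2] at h2
  rcases lt_trichotomy ⟪b i, φ.symm c⟫ 0 with h0 | h0 | h0
  · refine hu (- b.map φ i) ?_ (h.lit ?_ ?_)
    · exact Finset.mem_union_right _ (Finset.mem_image_of_mem _ (Finset.mem_univ i))
    · rw [inner_neg_left, hin]
      linarith
    · rw [inner_neg_left, neg_sq, hin, norm_neg, hnorm]
      linarith
  · rw [h0, abs_zero] at hcon
    linarith
  · refine hu (b.map φ i) ?_ (h.lit ?_ ?_)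
    · exact Finset.mem_union_left _ (Finset.mem_image_of_mem _ (Finset.mem_univ i))
    · rw [hin]
      exact h0
    · rw [hin, hnorm]
      linarith

/-- a signed vector -/
def sgv (e : Bool) (v : Fs n) : Fs n := if e then v else -v

lemma sgv_norm (e : Bool) (v : Fs n) : ‖sgv e v‖ = ‖v‖ := by
  unfold sgv
  split_ifs <;> simp

lemma sgv_inner (e : Bool) (y v : Fs n) : ⟪y, sgv e v⟫ = if e then ⟪y, v⟫ else -⟪y, v⟫ := by
  unfold sgv
  split_ifs <;> simp

/-- The volume of the set not illuminated by the frame, when the caps are disjoint. -/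
lemma Un_vol (hn : 1 ≤ n) (b : OrthonormalBasis (Fin (n + 1)) ℝ (Fs n)) {s t : ℝ} (hs0 : 0 < s)
    (hs1 : s < 1) (ht : 0 < t) (hst : s ^ 2 + t ^ 2 = 1) (hs : 1 / 2 ≤ s ^ 2) :
    volume.real (Un s b ∩ closedBall (0 : Fs n) 1) ≤
      kap (n + 1) - 2 * (n + 1) * (kap n * J n s t) := by
  classical
  set A : Option (Fin (n + 1) × Bool) → Set (Fs n) := fun o => match o with
    | none => Un s b ∩ closedBall (0 : Fs n) 1
    | some p => capO s n (sgv p.2 (b p.1)) with hA
  have hpos : ∀ (y : Fs n) (i : Fin (n + 1)) (e : Bool), y ∈ capO s n (sgv e (b i)) →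
      s * ‖y‖ < |⟪b i, y⟫| := by
    intro y i e hy
    have h1 := hy.2
    rw [sgv_inner] at h1
    rw [real_inner_comm]
    split_ifs at h1
    · exact h1.trans_le (le_abs_self _)
    · exact h1.trans_le (neg_le_abs _)
  have h1 := sum_vol_le (Finset.univ : Finset (Option (Fin (n + 1) × Bool))) A
    (by
      rintro (_ | p) _
      · exact ((Un_closed s b).inter isClosed_closedBall).measurableSet
      · exact capO_meas _ _ _)
    (by
      rintro (_ | p) _
      · exact inter_subset_right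
      · exact capO_sub _ _ _)
    (by
      rintro (_ | p) _ (_ | q) _ hne
      · exact absurd rfl hne
      · rw [Set.disjoint_left]
        rintro y ⟨hy, -⟩ hy2
        have := hpos y q.1 q.2 hy2
        have := hy q.1
        linarith
      · rw [Set.disjoint_left]
        rintro y hy2 ⟨hy, -⟩
        have := hpos y p.1 p.2 hy2
        have := hy p.1
        linarith
      · rw [Set.disjoint_left]
        intro y hy hy2
        have g1 := hpos y p.1 p.2 hy
        have g2 := hpos y q.1 q.2 hy2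
        have hy0 : 0 ≤ s * ‖y‖ := mul_nonneg hs0.le (norm_nonneg _)
        by_cases hpq : p.1 = q.1
        · have hpq2 : p.2 ≠ q.2 := fun h => hne (by rw [Prod.ext hpq h])
          have k1 := hy.2
          have k2 := hy2.2
          rw [sgv_inner] at k1 k2
          rw [← hpq] at k2
          rcases hp2 : p.2 with _ | _ <;> rcases hq2 : q.2 with _ | _ <;>
            simp [hp2, hq2] at hpq2 k1 k2 <;> linarith
        · have k1 : (s * ‖y‖) ^ 2 < ⟪b p.1, y⟫ ^ 2 := by
            rw [← sq_abs ⟪b p.1, y⟫]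
            exact pow_lt_pow_left₀ g1 hy0 (by norm_num)
          have k2 : (s * ‖y‖) ^ 2 < ⟪b q.1, y⟫ ^ 2 := by
            rw [← sq_abs ⟪b q.1, y⟫]
            exact pow_lt_pow_left₀ g2 hy0 (by norm_num)
          have k3 := b.sum_sq_norm_inner_right y
          have k4 : ∑ i ∈ ({p.1, q.1} : Finset (Fin (n + 1))), ‖⟪b i, y⟫‖ ^ 2 ≤
              ∑ i, ‖⟪b i, y⟫‖ ^ 2 :=
            Finset.sum_le_sum_of_subset_of_nonneg (Finset.subset_univ _)
              (fun i _ _ => sq_nonneg _)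
          rw [Finset.sum_pair hpq, k3, Real.norm_eq_abs, Real.norm_eq_abs, sq_abs, sq_abs] at k4
          rw [mul_pow] at k1 k2
          have : 0 ≤ ‖y‖ ^ 2 := sq_nonneg _
          nlinarith)
  rw [Fintype.sum_option, Fintype.sum_prod_type] at h1
  have h2 : ∀ i : Fin (n + 1), ∀ e : Bool,
      kap n * J n s t ≤ volume.real (A (some (i, e))) := by
    intro i e
    exact capO_vol hs0 hs1 ht hst hn (by rw [sgv_norm]; exact b.norm_eq_one i)
  have h3 : 2 * ((n : ℝ) + 1) * (kap n * J n s t) ≤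
      ∑ i : Fin (n + 1), ∑ e : Bool, volume.real (A (some (i, e))) := by
    calc 2 * ((n : ℝ) + 1) * (kap n * J n s t)
        = ∑ _i : Fin (n + 1), ∑ _e : Bool, kap n * J n s t := by
          simp
          ring
      _ ≤ _ := Finset.sum_le_sum fun i _ => Finset.sum_le_sum fun e _ => h2 i e
  have h4 : A none = Un s b ∩ closedBall (0 : Fs n) 1 := rfl
  rw [h4] at h1
  linarith

/-- Assembling with a random frame. -/
theorem cover_frame (hn : 1 ≤ n) {m : ℕ} (b : OrthonormalBasis (Fin (n + 1)) ℝ (Fs n))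
    (hnum : ∀ s t : ℝ, 0 < t → t < 1 → 0 < s → s < 1 → t ^ 2 + s ^ 2 = 1 →
      1 / ((n : ℝ) + 1) ≤ s ^ 2 →
      volume.real (Un s b ∩ closedBall (0 : Fs n) 1) < (m + 1) * (kap n * J n t s))
    {K : Set (Fs n)} (hK : Convex ℝ K) (hKc : IsCompact K) (hKi : (interior K).Nonempty)
    (h : ∀ x ∈ K, Nar (1 / ((n : ℝ) + 1)) K x ∨ ∃ c t, Rd K x c t) : Cov (2 * (n + 1) + m) K := by
  classical
  have hn0 : (0 : ℝ) < (n : ℝ) + 1 := by positivity
  have hn1 : (1 : ℝ) ≤ n := by exact_mod_cast hn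
  have hq0 : 0 < 1 / ((n : ℝ) + 1) := by positivity
  have hq1 : 1 / ((n : ℝ) + 1) < 1 := by
    rw [div_lt_one hn0]
    linarith
  obtain ⟨X, c, t, hX, hXK⟩ := wide_data h
  have hXfin : X.Finite := finite_wide hn (fun x hx => (hX x hx).1) hq0 hq1
    (fun x hx => (hX x hx).2)
  set F := hXfin.toFinset with hF
  have hFX : ∀ x, x ∈ F ↔ x ∈ X := fun x => by rw [hF, Set.Finite.mem_toFinset]
  set s : Fs n → ℝ := fun x => √(1 - t x ^ 2) with hs
  have hdata : ∀ x ∈ F, 0 < t x ∧ t x < 1 ∧ 0 < s x ∧ s x < 1 ∧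
      t x ^ 2 + s x ^ 2 = 1 ∧ 1 / ((n : ℝ) + 1) ≤ s x ^ 2 := by
    intro x hx
    obtain ⟨⟨hxK, hr⟩, hq⟩ := hX x ((hFX x).1 hx)
    have h1 : s x ^ 2 = 1 - t x ^ 2 := Real.sq_sqrt (by linarith)
    have ht0 := hr.ht
    refine ⟨hr.ht, hr.ht1, ?_, ?_, by linarith, by rw [h1]; exact hq⟩
    · exact Real.sqrt_pos.2 (by linarith)
    · rw [hs]
      simp only
      rw [Real.sqrt_lt' one_pos]
      nlinarith
  have hk := kap_pos (n + 1)
  obtain ⟨φ, hφ⟩ := exists_rot F c (fun x => Un (s x) b)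
    (fun x hx => (hX x ((hFX x).1 hx)).1.2.hc) (fun x _ => (Un_closed _ _).measurableSet)
    (fun x _ => Un_cone _ _)
  have hpack : ∑ x ∈ F, kap n * J n (t x) (s x) ≤ kap (n + 1) := by
    refine le_trans (Finset.sum_le_sum fun x hx => ?_) (sum_vol_le F
      (fun x => capO (t x) n (c x)) (fun x _ => capO_meas _ _ _)
      (fun x _ => capO_sub _ _ _) (fun x hx y hy hne => caps_disjoint
        (hX x ((hFX x).1 hx)).1.1 (hX y ((hFX y).1 hy)).1.1 (hX x ((hFX x).1 hx)).1.2
        (hX y ((hFX y).1 hy)).1.2 hne))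
    obtain ⟨h1, h2, h3, h4, h5, h6⟩ := hdata x hx
    exact capO_vol h1 h2 h3 h5 hn (hX x ((hFX x).1 hx)).1.2.hc
  have hcount : (F.filter fun x => ∀ U ∈ frame (b.map φ), ¬ Lit K x U).card ≤ m := by
    have hsub : (F.filter fun x => ∀ U ∈ frame (b.map φ), ¬ Lit K x U) ⊆
        F.filter fun x => φ.symm (c x) ∈ Un (s x) b := by
      intro x hx
      rw [Finset.mem_filter] at hx ⊢
      exact ⟨hx.1, unlit_mem (hX x ((hFX x).1 hx.1)).1.2 b φ hx.2⟩
    refine (Finset.card_le_card hsub).trans ?_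
    rcases F.eq_empty_or_nonempty with hFe | hFne
    · rw [hFe]
      simp
    · have h1 : ∑ x ∈ F, volume.real (Un (s x) b ∩ closedBall (0 : Fs n) 1) <
          ∑ x ∈ F, ((m : ℝ) + 1) * (kap n * J n (t x) (s x)) := by
        refine Finset.sum_lt_sum_of_nonempty hFne fun x hx => ?_
        obtain ⟨h1, h2, h3, h4, h5, h6⟩ := hdata x hx
        exact hnum (s x) (t x) h1 h2 h3 h4 h5 h6
      rw [← Finset.mul_sum] at h1
      have h2 : kap (n + 1) * ((F.filter fun x => φ.symm (c x) ∈ Un (s x) b).card : ℝ) <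
          kap (n + 1) * (m + 1) := by
        calc _ ≤ _ := hφ
          _ < _ := h1
          _ ≤ (m + 1) * kap (n + 1) := mul_le_mul_of_nonneg_left hpack (by positivity)
          _ = _ := by ring
      have h3 := lt_of_mul_lt_mul_left h2 hk.le
      have h4 : (F.filter fun x => φ.symm (c x) ∈ Un (s x) b).card < m + 1 := by
        exact_mod_cast h3
      omega
  exact assemble hK hKc hKi (frame (b.map φ)) F (by
    intro x hx
    rcases hXK x hx with h1 | h1
    · exact Or.inl ((hFX x).2 h1)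
    · exact Or.inr (frame_lit (by omega : 1 ≤ n + 1) (b.map φ) (by exact_mod_cast h1)))
    (frame_card _) hcount

/-- the standard frame -/
noncomputable def fr0 (n : ℕ) : OrthonormalBasis (Fin (n + 1)) ℝ (Fs n) :=
  (stdOrthonormalBasis ℝ (Fs n)).reindex (finCongr (finrank_Fs n))

/-! ### Dimension three -/

theorem cover3 {K : Set (Fs 2)} (hK : Convex ℝ K) (hKc : IsCompact K)
    (hKi : (interior K).Nonempty)
    (h : ∀ x ∈ K, Nar (1 / 3) K x ∨ ∃ c t, Rd K x c t) : Cov (2 ^ 3) K := by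
  refine cover_frame (n := 2) (m := 2) (by norm_num) (fr0 2) ?_ hK hKc hKi (by
    norm_num at h ⊢
    exact h)
  intro s t ht ht1 hs hs1 hts hq
  have hk := kap_pos 3
  have hk23 := kap23
  rw [J2 hts ht ht1, hk23]
  push_cast at hq ⊢
  -- in the range `1/2 ≤ s²`
  have key : ∀ s t : ℝ, 0 < t → 0 < s → s < 1 → s ^ 2 + t ^ 2 = 1 → 1 / 2 ≤ s ^ 2 →
      volume.real (Un s (fr0 2) ∩ closedBall (0 : Fs 2) 1) ≤ kap 3 * (3 * s - 2) := by
    intro s t ht hs hs1 hst hq
    have h1 := Un_vol (n := 2) (by norm_num) (fr0 2) hs hs1 ht hst hq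
    rw [J2 hst hs hs1, hk23] at h1
    norm_num at h1
    linarith
  rcases le_total (1 / 2) (s ^ 2) with h1 | h1
  · refine (key s t ht hs hs1 (by linarith) h1).trans_lt ?_
    have h2 : 3 * s - 2 < 3 / 2 * (1 - t) := by
      nlinarith [sq_nonneg (s - 2 * t)]
    have := mul_lt_mul_of_pos_left h2 hk
    linarith
  · have hh2 : (√2 / 2) ^ 2 = (1 : ℝ) / 2 := by
      rw [div_pow, Real.sq_sqrt (by norm_num)]
      norm_num
    have hh0 : (0 : ℝ) < √2 / 2 := by positivity
    have hh1 : √2 / 2 < 0.708 := by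
      have : √2 < 1.416 := by
        rw [Real.sqrt_lt' (by norm_num)]
        norm_num
      linarith
    have hsh : s ≤ √2 / 2 := by
      refine le_of_sq_le_sq ?_ hh0.le
      rw [hh2]
      exact h1
    have h2 : volume.real (Un s (fr0 2) ∩ closedBall (0 : Fs 2) 1) ≤
        volume.real (Un (√2 / 2) (fr0 2) ∩ closedBall (0 : Fs 2) 1) :=
      measureReal_mono (inter_subset_inter_left _ (Un_mono hsh _)) (Un_fin _ _)
    have h3 := key (√2 / 2) (√2 / 2) hh0 hh0 (by linarith) (by rw [hh2]; norm_num)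
      (by rw [hh2])
    refine (h2.trans h3).trans_lt ?_
    have ht2 : t ≤ 0.82 := by
      refine le_of_sq_le_sq ?_ (by norm_num)
      norm_num at hq ⊢
      linarith
    have h4 : 3 * (√2 / 2) - 2 < 3 / 2 * (1 - t) := by linarith
    have := mul_lt_mul_of_pos_left h4 hk
    linarith

/-! ### Dimension four -/

section

variable {c s : ℝ} (hc0 : 0 < c) (hc1 : c < 1) (hs : 0 < s) (hcs : c ^ 2 + s ^ 2 = 1)

include hc0 hc1 hs hcs

lemma J_ge (n : ℕ) : s ^ n / (n + 1) ≤ J n c s := by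
  have h3 : 0 < 1 - c := by linarith
  have hcont := radG_cont (c := c) (s := s)
  have e2 : ∫ t in c..1, radG c s t ^ n = s ^ n * (1 - c) / (n + 1) := by
    have : ∫ t in c..1, radG c s t ^ n = ∫ t in c..1, (s / (1 - c)) ^ n * (1 - t) ^ n := by
      refine intervalIntegral.integral_congr fun t ht => ?_
      rw [uIcc_of_le hc1.le] at ht
      simp only [radG_high hc0 hc1 hs ht.1, mul_pow]
    rw [this, intervalIntegral.integral_const_mul,
      intervalIntegral.integral_comp_sub_left (fun t => t ^ n) 1, integral_pow, sub_self,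
      zero_pow (Nat.succ_ne_zero n), sub_zero, pow_succ (1 - c)]
    calc (s / (1 - c)) ^ n * ((1 - c) ^ n * (1 - c) / ((n : ℝ) + 1))
        = (s / (1 - c) * (1 - c)) ^ n * (1 - c) / (n + 1) := by rw [mul_pow]; ring
      _ = s ^ n * (1 - c) / (n + 1) := by rw [div_mul_cancel₀ _ h3.ne']
  have h4 : ∫ t in c..1, radG c s t ^ n ≤ ∫ t in c..1, √(1 - t ^ 2) ^ n := by
    refine intervalIntegral.integral_mono_on hc1.le ((hcont.pow n).intervalIntegrable _ _)
      (Continuous.intervalIntegrable (by fun_prop) _ _) fun t ht => ?_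
    have h5 := radG_nonneg hc0 hc1 hs (hc0.le.trans ht.1) ht.2
    refine pow_le_pow_left₀ h5 (Real.le_sqrt_of_sq_le ?_) n
    have := radG_ball hc0 hc1 hs hcs h5 le_rfl
    linarith
  rw [e2] at h4
  unfold J
  have h5 : s ^ n / ((n : ℝ) + 1) = s ^ n * c / (n + 1) + s ^ n * (1 - c) / (n + 1) := by ring
  rw [h5]
  linarith

end

/-- the sector with half-angle 45 degrees in dimension four -/
lemma J3_diag : 0.1053 ≤ J 3 (√2 / 2) (√2 / 2) := by
  set h : ℝ := √2 / 2 with hh
  have hh2 : h ^ 2 = (1 : ℝ) / 2 := by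
    rw [hh, div_pow, Real.sq_sqrt (by norm_num)]
    norm_num
  have hh0 : 0 < h := by positivity
  have hh1 : h < 0.7072 := by
    refine lt_of_pow_lt_pow_left₀ 2 (by norm_num) ?_
    rw [hh2]
    norm_num
  have hh3 : 0.7071 < h := by
    refine lt_of_pow_lt_pow_left₀ 2 hh0.le ?_
    rw [hh2]
    norm_num
  have i1 : ∀ k : ℕ, IntervalIntegrable (fun t : ℝ => t ^ k) volume h 1 := fun k =>
    (Continuous.intervalIntegrable (by fun_prop) _ _)
  have hp : ∀ k : ℕ, ∫ t in h..1, t ^ k = (1 - h ^ (k + 1)) / (k + 1) := by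
    intro k
    rw [integral_pow]
    simp
  have h1 : ∫ t in h..1, (5 / 2 * (1 - t ^ 2) ^ 2 - 125 / 54 * (1 - t ^ 2) ^ 3) ≤
      ∫ t in h..1, √(1 - t ^ 2) ^ 3 := by
    refine intervalIntegral.integral_mono_on (by linarith)
      (Continuous.intervalIntegrable (by fun_prop) _ _)
      (Continuous.intervalIntegrable (by fun_prop) _ _) fun t ht => ?_
    have hw : 0 ≤ 1 - t ^ 2 := by nlinarith [ht.1, ht.2]
    set v := √(1 - t ^ 2) with hv
    have hv0 : 0 ≤ v := Real.sqrt_nonneg _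
    have hv2 : v ^ 2 = 1 - t ^ 2 := Real.sq_sqrt hw
    rw [← hv2]
    have h2 : 0 ≤ v ^ 3 * ((v - 3 / 5) ^ 2 * (v + 6 / 5)) := by positivity
    nlinarith
  have h2 : ∫ t in h..1, (5 / 2 * (1 - t ^ 2) ^ 2 - 125 / 54 * (1 - t ^ 2) ^ 3) =
      ∫ t in h..1, ((5 / 27) * t ^ 0 + (35 / 18) * t ^ 2 + (-40 / 9) * t ^ 4 +
        (125 / 54) * t ^ 6) := by
    refine intervalIntegral.integral_congr fun t _ => ?_
    ring
  have h3 : ∫ t in h..1, ((5 / 27) * t ^ 0 + (35 / 18) * t ^ 2 + (-40 / 9) * t ^ 4 +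
        (125 / 54) * t ^ 6) = (5 / 27) * (1 - h ^ 1) + (35 / 18) * ((1 - h ^ 3) / 3) +
        (-40 / 9) * ((1 - h ^ 5) / 5) + (125 / 54) * ((1 - h ^ 7) / 7) := by
    rw [intervalIntegral.integral_add (((((i1 0).const_mul _).add ((i1 2).const_mul _))).add
        ((i1 4).const_mul _)) ((i1 6).const_mul _),
      intervalIntegral.integral_add (((i1 0).const_mul _).add ((i1 2).const_mul _))
        ((i1 4).const_mul _),
      intervalIntegral.integral_add ((i1 0).const_mul _) ((i1 2).const_mul _),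
      intervalIntegral.integral_const_mul, intervalIntegral.integral_const_mul,
      intervalIntegral.integral_const_mul, intervalIntegral.integral_const_mul, hp, hp, hp, hp]
    norm_num
  have e3 : h ^ 3 = h / 2 := by
    calc h ^ 3 = h ^ 2 * h := by ring
      _ = h / 2 := by rw [hh2]; ring
  have e4 : h ^ 4 = 1 / 4 := by
    calc h ^ 4 = h ^ 2 * h ^ 2 := by ring
      _ = 1 / 4 := by rw [hh2]; norm_num
  have e5 : h ^ 5 = h / 4 := by
    calc h ^ 5 = h ^ 4 * h := by ring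
      _ = h / 4 := by rw [e4]; ring
  have e7 : h ^ 7 = h / 8 := by
    calc h ^ 7 = h ^ 4 * h ^ 2 * h := by ring
      _ = h / 8 := by rw [e4, hh2]; ring
  rw [h2, h3, e3, e5, e7] at h1
  unfold J
  have e6 : h ^ 3 * h = 1 / 4 := by rw [← e4]; ring
  rw [e6]
  push_cast
  norm_num at h1 ⊢
  linarith

/-- The holes of the frame in dimension four. -/
lemma Un_hole (b : OrthonormalBasis (Fin (3 + 1)) ℝ (Fs 3)) {s : ℝ} (hs0 : 0 < s)
    (hs : 1 / 4 ≤ s ^ 2) :
    volume.real (Un s b ∩ closedBall (0 : Fs 3) 1) ≤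
      4 * kap 3 * √(4 * s ^ 2 - 1) ^ 3 := by
  classical
  set m : (Fin (3 + 1) → Bool) → Fs 3 := fun e => ∑ i, ((if e i then 1 / 2 else -1 / 2 : ℝ)) • b i
    with hm
  have ha2 : √(4 * s ^ 2 - 1) ^ 2 = 4 * s ^ 2 - 1 := Real.sq_sqrt (by linarith)
  have hm1 : ∀ e, ‖m e‖ = 1 := by
    intro e
    have h1 : ‖m e‖ ^ 2 = 1 := by
      have h2 := b.sum_sq_norm_inner_right (m e)
      rw [← h2]
      have h3 : ∀ i, ⟪b i, m e⟫ = (if e i then 1 / 2 else -1 / 2 : ℝ) := by
        intro i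
        rw [hm]
        exact b.orthonormal.inner_right_fintype _ i
      have h4 : ∀ i, ‖⟪b i, m e⟫‖ ^ 2 = (1 / 4 : ℝ) := by
        intro i
        rw [h3 i, Real.norm_eq_abs, sq_abs]
        split_ifs <;> norm_num
      rw [Finset.sum_congr rfl fun i _ => h4 i]
      norm_num
    have h2 := norm_nonneg (m e)
    nlinarith
  have hsub : Un s b ∩ closedBall (0 : Fs 3) 1 ⊆
      ⋃ e ∈ (Finset.univ : Finset (Fin (3 + 1) → Bool)), capC (1 / (2 * s)) 3 (m e) := by
    rintro y ⟨hy, hyB⟩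
    have hyB : ‖y‖ ≤ 1 := by simpa using hyB
    simp only [mem_iUnion, Finset.mem_univ, exists_true_left]
    refine ⟨fun i => decide (0 ≤ ⟪b i, y⟫), hyB, ?_⟩
    have h1 : ⟪y, m fun i => decide (0 ≤ ⟪b i, y⟫)⟫ = (1 / 2) * ∑ i, |⟪b i, y⟫| := by
      rw [hm]
      simp only [inner_sum, inner_smul_right]
      rw [Finset.mul_sum]
      refine Finset.sum_congr rfl fun i _ => ?_
      have hcomm : ⟪y, b i⟫ = ⟪b i, y⟫ := real_inner_comm _ _
      by_cases h0 : 0 ≤ ⟪b i, y⟫
      · have h1 : decide (0 ≤ ⟪b i, y⟫) = true := decide_eq_true h0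
        rw [if_pos h1, abs_of_nonneg h0, hcomm]
      · have h1 : ¬ (decide (0 ≤ ⟪b i, y⟫) = true) := fun h => h0 (of_decide_eq_true h)
        rw [if_neg h1, abs_of_neg (not_le.1 h0), hcomm]
        ring
    rw [h1]
    rcases eq_or_ne y 0 with rfl | hy0
    · simp
    have hyn : 0 < ‖y‖ := norm_pos_iff.2 hy0
    have h2 := b.sum_sq_norm_inner_right y
    have h3 : ∑ i, ‖⟪b i, y⟫‖ ^ 2 ≤ ∑ i, s * ‖y‖ * |⟪b i, y⟫| := by
      refine Finset.sum_le_sum fun i _ => ?_
      rw [Real.norm_eq_abs, sq]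
      exact mul_le_mul_of_nonneg_right (hy i) (abs_nonneg _)
    rw [h2, ← Finset.mul_sum] at h3
    have h4 : ‖y‖ ≤ s * ∑ i, |⟪b i, y⟫| := by
      refine le_of_mul_le_mul_left ?_ hyn
      calc ‖y‖ * ‖y‖ = ‖y‖ ^ 2 := by ring
        _ ≤ _ := h3
        _ = _ := by ring
    rw [div_mul_eq_mul_div, one_mul, div_le_iff₀ (by positivity)]
    linarith
  have hfin : ∀ e, volume (capC (1 / (2 * s)) 3 (m e)) ≠ ⊤ := by
    intro e
    refine ne_top_of_le_ne_top ?_ (measure_mono (t := closedBall (0 : Fs 3) 1) fun y hy => ?_)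
    · rw [ball_vol]
      exact ENNReal.ofReal_ne_top
    · simpa using hy.1
  have hU : volume (⋃ e ∈ (Finset.univ : Finset (Fin (3 + 1) → Bool)),
      capC (1 / (2 * s)) 3 (m e)) ≠ ⊤ := by
    refine ne_top_of_le_ne_top ?_ (measure_mono (t := closedBall (0 : Fs 3) 1) ?_)
    · rw [ball_vol]
      exact ENNReal.ofReal_ne_top
    · refine iUnion₂_subset fun e _ y hy => ?_
      simpa using hy.1
  refine (measureReal_mono hsub hU).trans ((measureReal_biUnion_finset_le _ _).trans ?_)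
  have h5 : ∀ e, volume.real (capC (1 / (2 * s)) 3 (m e)) ≤
      kap 3 * (√(4 * s ^ 2 - 1) ^ 3 / 4) := by
    intro e
    have := capC_vol (c := 1 / (2 * s)) (a := √(4 * s ^ 2 - 1)) (n := 3) (by positivity)
      (Real.sqrt_nonneg _) (by
        rw [ha2]
        field_simp
        ring) (by norm_num) (hm1 e)
    norm_num at this ⊢
    exact this
  refine (Finset.sum_le_sum fun e _ => h5 e).trans (le_of_eq ?_)
  rw [Finset.sum_const, Finset.card_univ, Fintype.card_fun, nsmul_eq_mul]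
  norm_num
  ring

theorem cover4 {K : Set (Fs 3)} (hK : Convex ℝ K) (hKc : IsCompact K)
    (hKi : (interior K).Nonempty)
    (h : ∀ x ∈ K, Nar (1 / 4) K x ∨ ∃ c t, Rd K x c t) : Cov (2 ^ 4) K := by
  refine cover_frame (n := 3) (m := 8) (by norm_num) (fr0 3) ?_ hK hKc hKi (by
    norm_num at h ⊢
    exact h)
  intro s t ht ht1 hs hs1 hts hq
  have hk := kap_pos 4
  have hk3 := kap_pos 3
  -- the constant
  set r : ℝ := 8 / (3 * Real.pi) with hr
  have hr0 : 0.8465 < r := by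
    rw [hr, lt_div_iff₀ (by have := Real.pi_pos; positivity)]
    have := Real.pi_lt_d2
    linarith
  have hk34 : kap 3 = r * kap 4 := kap34
  have hJt : s ^ 3 / 4 ≤ J 3 t s := by
    have := J_ge ht ht1 hs hts 3
    norm_num at this ⊢
    exact this
  have hgoal : ((8 : ℕ) : ℝ) + 1 = 9 := by norm_num
  rw [hgoal]
  have hh2 : (√2 / 2) ^ 2 = (1 : ℝ) / 2 := by
    rw [div_pow, Real.sq_sqrt (by norm_num)]
    norm_num
  have hh0 : (0 : ℝ) < √2 / 2 := by positivity
  have hh1 : √2 / 2 < 0.7072 := by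
    refine lt_of_pow_lt_pow_left₀ 2 (by norm_num) ?_
    rw [hh2]
    norm_num
  have hh3 : 0.7071 < √2 / 2 := by
    refine lt_of_pow_lt_pow_left₀ 2 hh0.le ?_
    rw [hh2]
    norm_num
  -- it is enough to bound by `9/4 kap 3 s^3`
  refine lt_of_lt_of_le (b := 9 / 4 * kap 3 * s ^ 3) ?_ (by
    have := mul_le_mul_of_nonneg_left hJt hk3.le
    linarith)
  rcases le_total (1 / 2) (s ^ 2) with h1 | h1
  · have h2 := Un_vol (n := 3) (by norm_num) (fr0 3) hs hs1 ht (by linarith) h1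
    have h3 := J_ge hs hs1 ht (by linarith : s ^ 2 + t ^ 2 = 1) 3
    norm_num at h2 h3
    have h4 : kap 3 * (t ^ 3 / 4) ≤ kap 3 * J 3 s t := mul_le_mul_of_nonneg_left h3 hk3.le
    have h5 : kap 4 < kap 3 * (2 * t ^ 3 + 9 / 4 * s ^ 3) := by
      rw [hk34]
      set g : ℝ := √2 / 2 with hg
      -- tangents
      have t1 : 3 / 2 * g * t ^ 2 - g / 4 ≤ t ^ 3 := by
        have : 0 ≤ (t - g) ^ 2 * (t + g / 2) := by positivity
        have e : (t - g) ^ 2 * (t + g / 2) = t ^ 3 - 3 / 2 * g * t ^ 2 + g ^ 2 * g / 2 := by ring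
        rw [e, hh2] at this
        linarith
      have t2 : 3 / 2 * g * s ^ 2 - g / 4 ≤ s ^ 3 := by
        have : 0 ≤ (s - g) ^ 2 * (s + g / 2) := by positivity
        have e : (s - g) ^ 2 * (s + g / 2) = s ^ 3 - 3 / 2 * g * s ^ 2 + g ^ 2 * g / 2 := by ring
        rw [e, hh2] at this
        linarith
      have t3 : 0 ≤ s ^ 3 := by positivity
      have t4 : 2 * g ≤ 2 * t ^ 3 + 9 / 4 * s ^ 3 := by
        have : 3 / 2 * g * t ^ 2 + 3 / 2 * g * s ^ 2 = 3 / 2 * g := by
          rw [← mul_add, hts, mul_one]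
        linarith
      have t5 : 1 < r * (2 * t ^ 3 + 9 / 4 * s ^ 3) := by nlinarith
      have := mul_lt_mul_of_pos_left t5 hk
      linarith
    linarith
  rcases le_total (s ^ 2) (29 / 100) with h6 | h6
  · -- holes
    have h2 := Un_hole (fr0 3) hs (by norm_num at hq ⊢; linarith)
    refine h2.trans_lt ?_
    have ha0 : 0 ≤ 4 * s ^ 2 - 1 := by norm_num at hq; linarith
    set a := √(4 * s ^ 2 - 1) with ha
    have ha2 : a ^ 2 = 4 * s ^ 2 - 1 := Real.sq_sqrt ha0
    have haa : 0 ≤ a := Real.sqrt_nonneg _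
    have h3 : a < 0.8 * s := by
      refine lt_of_pow_lt_pow_left₀ 2 (by positivity) ?_
      rw [ha2, mul_pow]
      norm_num
      linarith
    have h4 : a ^ 3 < (0.8 * s) ^ 3 := pow_lt_pow_left₀ h3 haa (by norm_num)
    rw [mul_pow] at h4
    have h5 : 0 < s ^ 3 := by positivity
    have h7 : 4 * a ^ 3 < 9 / 4 * s ^ 3 := by
      norm_num at h4
      linarith
    have := mul_lt_mul_of_pos_left h7 hk3
    linarith
  · -- between
    have hsh : s ≤ √2 / 2 := by
      refine le_of_sq_le_sq ?_ hh0.le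
      rw [hh2]
      exact h1
    have h2 : volume.real (Un s (fr0 3) ∩ closedBall (0 : Fs 3) 1) ≤
        volume.real (Un (√2 / 2) (fr0 3) ∩ closedBall (0 : Fs 3) 1) :=
      measureReal_mono (inter_subset_inter_left _ (Un_mono hsh _)) (Un_fin _ _)
    have h3 := Un_vol (n := 3) (by norm_num) (fr0 3) hh0 (by linarith) hh0
      (by rw [hh2]; norm_num) (by rw [hh2])
    have h4 := J3_diag
    have h5 := mul_le_mul_of_nonneg_left h4 hk3.le
    norm_num at h3
    have hs3 : 0.1561 < s ^ 3 := by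
      have h7 : 0.5385 ≤ s := by
        refine le_of_sq_le_sq ?_ hs.le
        norm_num at h6 ⊢
        linarith
      have : (0.5385 : ℝ) ^ 3 ≤ s ^ 3 := pow_le_pow_left₀ (by norm_num) h7 3
      norm_num at this ⊢
      linarith
    have h8 : kap 4 < kap 3 * (8 * 0.1053 + 9 / 4 * s ^ 3) := by
      rw [hk34]
      have : 1 < r * (8 * 0.1053 + 9 / 4 * s ^ 3) := by nlinarith
      have := mul_lt_mul_of_pos_left this hk
      linarith
    linarith

end Pool.Agent.K3h76.RB
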