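import Pool.Agent.K3h76.RB.Pack

set_option autoImplicit false

/-!
Bodies with circular normal cones: assembling an illumination; dimension five.
-/

namespace Pool.Agent.K3h76.RB

open scoped RealInnerProductSpace
open MeasureTheory Module Metric Set
open Pool.Agent.K3h76.SD Pool.Agent.W396.Il

section

variable {E : Type*} [NormedAddCommGroup E] [InnerProductSpace ℝ E]

/-- the vectors of a basis and their negatives -/
noncomputable def frame {d : ℕ} [DecidableEq E] (b : OrthonormalBasis (Fin d) ℝ E) : Finset E :=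
  Finset.univ.image (fun i => b i) ∪ Finset.univ.image (fun i => - b i)

lemma frame_card {d : ℕ} [DecidableEq E] (b : OrthonormalBasis (Fin d) ℝ E) :
    (frame b).card ≤ 2 * d := by
  refine (Finset.card_union_le _ _).trans ?_
  have h1 : (Finset.univ.image (fun i => b i)).card ≤ d :=
    Finset.card_image_le.trans (by simp)
  have h2 : (Finset.univ.image (fun i => - b i)).card ≤ d :=
    Finset.card_image_le.trans (by simp)
  omega

lemma frame_lit {d : ℕ} (hd : 1 ≤ d) [DecidableEq E] (b : OrthonormalBasis (Fin d) ℝ E)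
    {K : Set E} {x : E} (h : Nar (1 / d) K x) : ∃ U ∈ frame b, Lit K x U := by
  obtain ⟨c, hc, hn⟩ := h
  have hd0 : (0 : ℝ) < d := by exact_mod_cast hd
  obtain ⟨i, hi⟩ : ∃ i, 1 / (d : ℝ) ≤ ⟪b i, c⟫ ^ 2 := by
    by_contra hcon
    push Not at hcon
    have h1 := b.sum_sq_norm_inner_right c
    rw [hc] at h1
    have h2 : ∑ i, ‖⟪b i, c⟫‖ ^ 2 < ∑ _i : Fin d, 1 / (d : ℝ) := by
      refine Finset.sum_lt_sum_of_nonempty ?_ fun i _ => ?_
      · exact ⟨⟨0, by omega⟩, Finset.mem_univ _⟩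
      · rw [Real.norm_eq_abs, sq_abs]
        exact hcon i
    rw [h1] at h2
    simp at h2
    rw [mul_inv_cancel₀ hd0.ne'] at h2
    exact lt_irrefl _ h2
  have hbi : ‖b i‖ = 1 := b.norm_eq_one i
  have key : ∀ U : E, ‖U‖ = 1 → 0 < ⟪U, c⟫ → ⟪U, c⟫ ^ 2 = ⟪b i, c⟫ ^ 2 → Lit K x U := by
    intro U hU hU0 hU2 u hu
    obtain ⟨h1, h2⟩ := hn u hu
    refine angle hc hu.1 h1 hU0 ?_
    rw [hU, hU2]
    have hp : 0 ≤ ⟪c, u⟫ ^ 2 := sq_nonneg _
    nlinarith
  rcases lt_trichotomy ⟪b i, c⟫ 0 with h0 | h0 | h0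
  · refine ⟨- b i, ?_, key _ (by rw [norm_neg, hbi]) ?_ ?_⟩
    · exact Finset.mem_union_right _ (Finset.mem_image_of_mem _ (Finset.mem_univ i))
    · rw [inner_neg_left]
      linarith
    · rw [inner_neg_left, neg_sq]
  · rw [h0] at hi
    have : 0 < 1 / (d : ℝ) := by positivity
    norm_num at hi
    linarith
  · exact ⟨b i, Finset.mem_union_left _ (Finset.mem_image_of_mem _ (Finset.mem_univ i)),
      key _ hbi h0 rfl⟩

open Classical in
lemma assemble [FiniteDimensional ℝ E] {K : Set E} (hK : Convex ℝ K)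
    (hKc : IsCompact K) (hKi : (interior K).Nonempty) (T X : Finset E)
    (hX : ∀ x ∈ K, x ∈ X ∨ ∃ U ∈ T, Lit K x U) {N m : ℕ} (hN : T.card ≤ N)
    (hm : (X.filter fun x => ∀ U ∈ T, ¬ Lit K x U).card ≤ m) : Cov (N + m) K := by
  choose U hU using fun x : E => exists_lit (K := K) hKi (x := x)
  obtain ⟨T', hT', hcov⟩ := cover_of_lit hK hKc hKi
    (T ∪ (X.filter fun x => ∀ U ∈ T, ¬ Lit K x U).image U) (by
      intro x hx
      by_cases h : ∃ U ∈ T, Lit K x U
      · obtain ⟨V, hV, hV'⟩ := h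
        exact ⟨V, Finset.mem_union_left _ hV, hV'⟩
      · have hxX : x ∈ X := (hX x hx).resolve_right h
        push Not at h
        exact ⟨U x, Finset.mem_union_right _ (Finset.mem_image_of_mem _
          (Finset.mem_filter.2 ⟨hxX, h⟩)), hU x⟩)
  refine ⟨T', hT'.trans ((Finset.card_union_le _ _).trans (add_le_add hN ?_)), hcov⟩
  exact Finset.card_image_le.trans hm

/-- the points with wide normal cones -/
lemma wide_data {K : Set E} {q : ℝ} (h : ∀ x ∈ K, Nar q K x ∨ ∃ c t, Rd K x c t) :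
    ∃ (X : Set E) (c : E → E) (t : E → ℝ),
      (∀ x ∈ X, (x ∈ K ∧ Rd K x (c x) (t x)) ∧ q ≤ 1 - t x ^ 2) ∧ ∀ x ∈ K, x ∈ X ∨ Nar q K x := by
  have hch : ∀ x : E, ∃ p : E × ℝ, (∃ c t, Rd K x c t ∧ q ≤ 1 - t ^ 2) →
      Rd K x p.1 p.2 ∧ q ≤ 1 - p.2 ^ 2 := by
    intro x
    by_cases hx : ∃ c t, Rd K x c t ∧ q ≤ 1 - t ^ 2
    · obtain ⟨c, t, h⟩ := hx
      exact ⟨(c, t), fun _ => h⟩
    · exact ⟨(0, 0), fun h => absurd h hx⟩
  choose p hp using hch
  refine ⟨{x | x ∈ K ∧ ∃ c t, Rd K x c t ∧ q ≤ 1 - t ^ 2}, fun x => (p x).1, fun x => (p x).2,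
    fun x hx => ⟨⟨hx.1, (hp x hx.2).1⟩, (hp x hx.2).2⟩, fun x hx => ?_⟩
  rcases h x hx with hn | ⟨c, t, hc⟩
  · exact Or.inr hn
  · by_cases hq : q ≤ 1 - t ^ 2
    · exact Or.inl ⟨hx, c, t, hc, hq⟩
    · push Not at hq
      refine Or.inr ⟨c, hc.hc, fun u hu => ?_⟩
      have h1 := (hc.iff u hu.1).1 hu
      refine ⟨hc.ht.trans_le h1, ?_⟩
      have h2 := pow_le_pow_left₀ hc.ht.le h1 2
      linarith

end

/-! ### Dimension five: a numerical inequality -/

lemma cell {a b T s t : ℝ} (ha : 0 ≤ a) (hb1 : b ≤ 1) (hT0 : 0 ≤ T) (hT1 : T ≤ 1)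
    (hT : 1 - a ^ 2 ≤ T ^ 2)
    (h : (1 - (2 - 3 * b + b ^ 3) / 4) ^ 14 < 9 * ((2 - 3 * T + T ^ 3) / 4))
    (hs : a ≤ s) (hsb : s ≤ b) (hs1 : s < 1) (ht : 0 ≤ t) (hst : t ^ 2 + s ^ 2 = 1) :
    (1 - (2 - 3 * s + s ^ 3) / 4) ^ 14 < 9 * ((2 - 3 * t + t ^ 3) / 4) := by
  have hmono : ∀ x y : ℝ, 0 ≤ x → x ≤ y → y ≤ 1 → 2 - 3 * y + y ^ 3 ≤ 2 - 3 * x + x ^ 3 := by
    intro x y hx hxy hy
    have h1 : y ^ 3 - x ^ 3 = (y - x) * (y ^ 2 + y * x + x ^ 2) := by ring
    have h2 : y ^ 2 + y * x + x ^ 2 ≤ 3 := by nlinarith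
    nlinarith
  have hs0 : 0 ≤ s := ha.trans hs
  have htT : t ≤ T := by
    refine le_of_sq_le_sq ?_ hT0
    nlinarith
  have h1 := hmono t T ht htT hT1
  have h2 := hmono s b hs0 hsb hb1
  have h3 : 0 ≤ 1 - (2 - 3 * s + s ^ 3) / 4 := by
    have := pow_le_pow_left₀ hs0 hs1.le 3
    nlinarith [pow_nonneg hs0 3]
  have h4 : (1 - (2 - 3 * s + s ^ 3) / 4) ^ 14 ≤ (1 - (2 - 3 * b + b ^ 3) / 4) ^ 14 :=
    pow_le_pow_left₀ h3 (by linarith) 14
  linarith

lemma num5 {s t : ℝ} (hs : 447 / 1000 ≤ s) (hs1 : s < 1) (ht : 0 ≤ t) (hst : t ^ 2 + s ^ 2 = 1) :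
    (1 - (2 - 3 * s + s ^ 3) / 4) ^ 14 < 9 * ((2 - 3 * t + t ^ 3) / 4) := by
  rcases le_total s (473 / 1000) with h0 | h0
  · exact cell (a := 447 / 1000) (b := 473 / 1000) (T := 179 / 200) (by norm_num) (by norm_num) (by norm_num) (by norm_num)
      (by norm_num) (by norm_num) hs h0 hs1 ht hst
  rcases le_total s (497 / 1000) with h1 | h1
  · exact cell (a := 473 / 1000) (b := 497 / 1000) (T := 441 / 500) (by norm_num) (by norm_num) (by norm_num) (by norm_num)
      (by norm_num) (by norm_num) h0 h1 hs1 ht hst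
  rcases le_total s (521 / 1000) with h2 | h2
  · exact cell (a := 497 / 1000) (b := 521 / 1000) (T := 217 / 250) (by norm_num) (by norm_num) (by norm_num) (by norm_num)
      (by norm_num) (by norm_num) h1 h2 hs1 ht hst
  rcases le_total s (543 / 1000) with h3 | h3
  · exact cell (a := 521 / 1000) (b := 543 / 1000) (T := 427 / 500) (by norm_num) (by norm_num) (by norm_num) (by norm_num)
      (by norm_num) (by norm_num) h2 h3 hs1 ht hst
  rcases le_total s (113 / 200) with h4 | h4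
  · exact cell (a := 543 / 1000) (b := 113 / 200) (T := 21 / 25) (by norm_num) (by norm_num) (by norm_num) (by norm_num)
      (by norm_num) (by norm_num) h3 h4 hs1 ht hst
  rcases le_total s (117 / 200) with h5 | h5
  · exact cell (a := 113 / 200) (b := 117 / 200) (T := 413 / 500) (by norm_num) (by norm_num) (by norm_num) (by norm_num)
      (by norm_num) (by norm_num) h4 h5 hs1 ht hst
  rcases le_total s (121 / 200) with h6 | h6
  · exact cell (a := 117 / 200) (b := 121 / 200) (T := 203 / 250) (by norm_num) (by norm_num) (by norm_num) (by norm_num)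
      (by norm_num) (by norm_num) h5 h6 hs1 ht hst
  rcases le_total s (5 / 8) with h7 | h7
  · exact cell (a := 121 / 200) (b := 5 / 8) (T := 797 / 1000) (by norm_num) (by norm_num) (by norm_num) (by norm_num)
      (by norm_num) (by norm_num) h6 h7 hs1 ht hst
  rcases le_total s (647 / 1000) with h8 | h8
  · exact cell (a := 5 / 8) (b := 647 / 1000) (T := 781 / 1000) (by norm_num) (by norm_num) (by norm_num) (by norm_num)
      (by norm_num) (by norm_num) h7 h8 hs1 ht hst
  rcases le_total s (67 / 100) with h9 | h9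
  · exact cell (a := 647 / 1000) (b := 67 / 100) (T := 763 / 1000) (by norm_num) (by norm_num) (by norm_num) (by norm_num)
      (by norm_num) (by norm_num) h8 h9 hs1 ht hst
  rcases le_total s (87 / 125) with h10 | h10
  · exact cell (a := 67 / 100) (b := 87 / 125) (T := 743 / 1000) (by norm_num) (by norm_num) (by norm_num) (by norm_num)
      (by norm_num) (by norm_num) h9 h10 hs1 ht hst
  rcases le_total s (727 / 1000) with h11 | h11
  · exact cell (a := 87 / 125) (b := 727 / 1000) (T := 719 / 1000) (by norm_num) (by norm_num) (by norm_num) (by norm_num)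
      (by norm_num) (by norm_num) h10 h11 hs1 ht hst
  rcases le_total s (769 / 1000) with h12 | h12
  · exact cell (a := 727 / 1000) (b := 769 / 1000) (T := 687 / 1000) (by norm_num) (by norm_num) (by norm_num) (by norm_num)
      (by norm_num) (by norm_num) h11 h12 hs1 ht hst
  rcases le_total s (419 / 500) with h13 | h13
  · exact cell (a := 769 / 1000) (b := 419 / 500) (T := 16 / 25) (by norm_num) (by norm_num) (by norm_num) (by norm_num)
      (by norm_num) (by norm_num) h12 h13 hs1 ht hst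
  exact cell (a := 419 / 500) (b := 1) (T := 273 / 500) (by norm_num) (by norm_num) (by norm_num) (by norm_num)
    (by norm_num) (by norm_num) h13 hs1.le hs1 ht hst

/-- Dimension five. -/
theorem cover5 {K : Set (Fs 4)} (hK : Convex ℝ K) (hKc : IsCompact K)
    (hKi : (interior K).Nonempty)
    (h : ∀ x ∈ K, Nar (1 / 5) K x ∨ ∃ c t, Rd K x c t) : Cov (2 ^ 5) K := by
  classical
  obtain ⟨X, c, t, hX, hXK⟩ := wide_data h
  have hXfin : X.Finite := finite_wide (by norm_num) (fun x hx => (hX x hx).1)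
    (q := 1 / 5) (by norm_num) (by norm_num) (fun x hx => (hX x hx).2)
  set F := hXfin.toFinset with hF
  have hFX : ∀ x, x ∈ F ↔ x ∈ X := fun x => by rw [hF, Set.Finite.mem_toFinset]
  set s : Fs 4 → ℝ := fun x => √(1 - t x ^ 2) with hs
  have hdata : ∀ x ∈ F, 0 < t x ∧ t x < 1 ∧ 447 / 1000 ≤ s x ∧ s x < 1 ∧
      t x ^ 2 + s x ^ 2 = 1 := by
    intro x hx
    obtain ⟨⟨hxK, hr⟩, hq⟩ := hX x ((hFX x).1 hx)
    have h1 : s x ^ 2 = 1 - t x ^ 2 := Real.sq_sqrt (by linarith)
    have ht0 := hr.ht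
    refine ⟨hr.ht, hr.ht1, ?_, ?_, by linarith⟩
    · refine Real.le_sqrt_of_sq_le ?_
      norm_num at hq ⊢
      linarith
    · rw [hs]
      simp only
      rw [Real.sqrt_lt' one_pos]
      nlinarith
  have hk4 := kap_pos 4
  have hk5 := kap_pos 5
  have hk := kap45
  obtain ⟨T, hT, hTc⟩ := greedyW (fun x => capO (s x) 4 (c x))
    (fun x => (2 - 3 * s x + s x ^ 3) / 4) (fun x => capO_meas _ _ _) (fun x => capO_sub _ _ _) 14 F
    (by
      intro x hx
      obtain ⟨h1, h2, h3, h4, h5⟩ := hdata x hx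
      have h6 : s x ^ 3 ≤ 1 := pow_le_one₀ (by linarith) h4.le
      linarith)
    (by
      intro x hx
      obtain ⟨h1, h2, h3, h4, h5⟩ := hdata x hx
      have hr := (hX x ((hFX x).1 hx)).1.2
      have hcs : s x ^ 2 + t x ^ 2 = 1 := by linarith
      have h6 := capO_vol (by linarith) h4 h1 hcs (by norm_num : 1 ≤ 4) hr.hc
      rw [J4 hcs (by linarith) h4] at h6
      show kap 5 * _ ≤ _
      rw [hk] at h6
      linarith)
  -- the unlit points
  have hcount : (F.filter fun x => ∀ y ∈ T, ¬ Lit K x y).card ≤ 8 := by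
    have hsub : (F.filter fun x => ∀ y ∈ T, ¬ Lit K x y) ⊆
        F.filter fun x => ∀ y ∈ T, y ∉ capO (s x) 4 (c x) := by
      intro x hx
      rw [Finset.mem_filter] at hx ⊢
      refine ⟨hx.1, fun y hy hyc => hx.2 y hy ?_⟩
      obtain ⟨h1, h2, h3, h4, h5⟩ := hdata x hx.1
      have hr := (hX x ((hFX x).1 hx.1)).1.2
      obtain ⟨-, hyc⟩ := hyc
      have hy0 : 0 ≤ s x * ‖y‖ := mul_nonneg (by linarith) (norm_nonneg y)
      refine hr.lit (hy0.trans_lt hyc) ?_
      have h6 : (s x * ‖y‖) ^ 2 < ⟪y, c x⟫ ^ 2 := pow_lt_pow_left₀ hyc hy0 (by norm_num)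
      rw [mul_pow] at h6
      have h7 : 1 - t x ^ 2 = s x ^ 2 := by linarith
      rw [h7]
      exact h6
    refine (Finset.card_le_card hsub).trans ?_
    rcases F.eq_empty_or_nonempty with hFe | hFne
    · rw [hFe]
      simp
    · have h1 : ∑ x ∈ F, (1 - (2 - 3 * s x + s x ^ 3) / 4) ^ 14 <
          ∑ x ∈ F, 9 * ((2 - 3 * t x + t x ^ 3) / 4) := by
        refine Finset.sum_lt_sum_of_nonempty hFne fun x hx => ?_
        obtain ⟨h1, h2, h3, h4, h5⟩ := hdata x hx
        exact num5 h3 h4 h1.le h5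
      have h2 : ∑ x ∈ F, (2 - 3 * t x + t x ^ 3) / 4 ≤ 1 := by
        have h3 := sum_vol_le F (fun x => capO (t x) 4 (c x)) (fun x _ => capO_meas _ _ _)
          (fun x _ => capO_sub _ _ _) (fun x hx y hy hne => caps_disjoint
            (hX x ((hFX x).1 hx)).1.1 (hX y ((hFX y).1 hy)).1.1 (hX x ((hFX x).1 hx)).1.2
            (hX y ((hFX y).1 hy)).1.2 hne)
        have h4 : kap 5 * ∑ x ∈ F, (2 - 3 * t x + t x ^ 3) / 4 ≤
            ∑ x ∈ F, volume.real (capO (t x) 4 (c x)) := by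
          rw [Finset.mul_sum]
          refine Finset.sum_le_sum fun x hx => ?_
          obtain ⟨h1, h2, h3, h4, h5⟩ := hdata x hx
          have hr := (hX x ((hFX x).1 hx)).1.2
          have h6 := capO_vol h1 h2 (by linarith) h5 (by norm_num : 1 ≤ 4) hr.hc
          rw [J4 h5 h1 h2, hk] at h6
          linarith
        have h5 : kap 5 * ∑ x ∈ F, (2 - 3 * t x + t x ^ 3) / 4 ≤ kap 5 * 1 := by
          rw [mul_one]
          exact h4.trans h3
        exact le_of_mul_le_mul_left h5 hk5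
      rw [← Finset.mul_sum] at h1
      have h3 : ((F.filter fun x => ∀ y ∈ T, y ∉ capO (s x) 4 (c x)).card : ℝ) < 9 := by
        calc _ ≤ _ := hTc
          _ < _ := h1
          _ ≤ 9 * 1 := mul_le_mul_of_nonneg_left h2 (by norm_num)
          _ = 9 := by norm_num
      have h4 : (F.filter fun x => ∀ y ∈ T, y ∉ capO (s x) 4 (c x)).card < 9 := by
        exact_mod_cast h3
      omega
  have hfr : finrank ℝ (Fs 4) = 5 := by rw [finrank_Fs]
  set b : OrthonormalBasis (Fin 5) ℝ (Fs 4) :=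
    (stdOrthonormalBasis ℝ (Fs 4)).reindex (finCongr hfr) with hb
  have := assemble hK hKc hKi (frame b ∪ T) F (by
    intro x hx
    rcases hXK x hx with h1 | h1
    · exact Or.inl ((hFX x).2 h1)
    · obtain ⟨U, hU, hU'⟩ := frame_lit (by norm_num : 1 ≤ 5) b (by exact_mod_cast h1)
      exact Or.inr ⟨U, Finset.mem_union_left _ hU, hU'⟩) (N := 24) (m := 8)
    (by
      refine (Finset.card_union_le _ _).trans ?_
      have := frame_card b
      omega)
    (by
      refine (Finset.card_le_card ?_).trans hcount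
      intro x hx
      rw [Finset.mem_filter] at hx ⊢
      exact ⟨hx.1, fun y hy => hx.2 y (Finset.mem_union_right _ hy)⟩)
  exact this

end Pool.Agent.K3h76.RB
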