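import Pool.Agent.K3h76.RB.Main

set_option autoImplicit false

/-!
Bodies with circular normal cones: the bound with base `√2`, and linear images.
-/

namespace Pool.Agent.K3h76.RB

open scoped RealInnerProductSpace
open Module Metric Set
open Pool.Agent.W396.Il
open Pool.Agent.K3h76.SD

/-- The bound with base `√2` for bodies with circular normal cones. -/
theorem cover_circ_sqrt {d : ℕ} (hd : 2 ≤ d) {K : Set (EuclideanSpace ℝ (Fin d))}
    (hK : Convex ℝ K) (hKc : IsCompact K) (hKi : (interior K).Nonempty)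
    (h : ∀ x ∈ K, (∃ c, ‖c‖ = 1 ∧ ∀ u, Nml K x u → 0 < ⟪c, u⟫ ∧
        1 / 2 + 1 / (2 * ((d : ℝ) + 1)) ≤ ⟪c, u⟫ ^ 2) ∨ Circ K x) :
    ∃ N : ℕ, (N : ℝ) ≤ 1 + (d + 1) * √(2 * Real.pi * d) *
        Real.log (1 + 4 * √2 * ((d : ℝ) + 1)) * √2 ^ (d - 1) ∧ Cov N K := by
  have hdr : (2 : ℝ) ≤ d := by exact_mod_cast hd
  have hb2 : √(1 / 2 + 1 / (2 * ((d : ℝ) + 1))) ^ 2 = 1 / 2 + 1 / (2 * ((d : ℝ) + 1)) :=
    Real.sq_sqrt (by positivity)
  set b : ℝ := √(1 / 2 + 1 / (2 * ((d : ℝ) + 1))) with hb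
  have hb0 : 0 < b := Real.sqrt_pos.2 (by positivity)
  have h12 : 1 / (2 * ((d : ℝ) + 1)) < 1 / 2 := by
    rw [div_lt_div_iff₀ (by positivity) (by norm_num)]
    linarith
  have hb1 : b < 1 := by
    rw [hb, Real.sqrt_lt' one_pos]
    linarith
  obtain ⟨N, hN, hcov⟩ := cover_two hd (a := 1 / 2) (b := b) (by norm_num) (by norm_num) hb0 hb1
    hK hKc hKi (by
      intro x hx
      have e : (1 / 2 : ℝ) + (1 - 1 / 2) / (d + 1) = 1 / 2 + 1 / (2 * (d + 1)) := by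
        field_simp
        ring
      rcases h x hx with h1 | ⟨c, t, hc, ht, hiff⟩
      · left
        rw [e]
        exact h1
      · rcases le_total b t with hbt | hbt
        · left
          refine ⟨c, hc, fun u hu => ?_⟩
          have h2 := (hiff u hu.1).1 hu
          refine ⟨ht.trans_le h2, ?_⟩
          rw [e, ← hb2]
          exact pow_le_pow_left₀ hb0.le (hbt.trans h2) 2
        · right
          exact ⟨c, hc, fun u hu hcu => (hiff u hu).2 (hbt.trans hcu)⟩)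
  refine ⟨N, hN.trans ?_, hcov⟩
  have hs2 : √(1 - 1 / 2 : ℝ) = 1 / √2 := by
    rw [show (1 - 1 / 2 : ℝ) = 1 / 2 by norm_num, Real.sqrt_div zero_le_one, Real.sqrt_one]
  have hs2' : √(1 / 2 : ℝ) = 1 / √2 := by
    rw [Real.sqrt_div zero_le_one, Real.sqrt_one]
  have hs0 : 0 < √2 := by positivity
  rw [hs2, hs2']
  have e1 : 4 * ((d : ℝ) + 1) / (1 / √2) = 4 * √2 * (d + 1) := by
    field_simp
  have e2 : (1 : ℝ) / (1 / √2) = √2 := by rw [one_div_one_div]
  rw [e1, e2]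
  -- the second term
  set L := Real.log (1 + 4 * √2 * ((d : ℝ) + 1)) with hL
  have hs1 : (1.4 : ℝ) ≤ √2 := by
    refine Real.le_sqrt_of_sq_le ?_
    norm_num
  have hLe : 2 ≤ L := by
    rw [hL, Real.le_log_iff_exp_le (by positivity)]
    have h27 := Real.exp_one_lt_d9
    have he : Real.exp 2 = Real.exp 1 ^ 2 := by rw [← Real.exp_nat_mul]; norm_num
    rw [he]
    have : Real.exp 1 ^ 2 ≤ 2.7182818286 ^ 2 :=
      pow_le_pow_left₀ (Real.exp_pos _).le h27.le 2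
    have h3 : (2.7182818286 : ℝ) ^ 2 ≤ 8 := by norm_num
    nlinarith
  have hq : (1 / √(1 - b ^ 2)) ^ (d - 1) ≤ 2 * √2 ^ (d - 1) := by
    have hb3 : 1 - b ^ 2 = (d : ℝ) / (2 * (d + 1)) := by
      rw [hb2]
      field_simp
      ring
    rw [hb3]
    refine le_of_sq_le_sq ?_ (by positivity)
    have hdd : 0 ≤ (d : ℝ) / (2 * (d + 1)) := by positivity
    have e4 : ((1 / √((d : ℝ) / (2 * (d + 1)))) ^ (d - 1)) ^ 2 =
        (1 / ((d : ℝ) / (2 * (d + 1)))) ^ (d - 1) := by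
      rw [← pow_mul, mul_comm (d - 1) 2, pow_mul, div_pow, one_pow, Real.sq_sqrt hdd]
    have e5 : (2 * √2 ^ (d - 1)) ^ 2 = 2 ^ 2 * 2 ^ (d - 1) := by
      rw [mul_pow, ← pow_mul, mul_comm (d - 1) 2, pow_mul, Real.sq_sqrt (by norm_num)]
    rw [e4, e5]
    have e3 : 1 / ((d : ℝ) / (2 * (d + 1))) = 2 * (1 + 1 / d) := by
      have : (d : ℝ) ≠ 0 := by positivity
      field_simp
    rw [e3, mul_pow, mul_comm (2 ^ 2 : ℝ)]
    refine mul_le_mul_of_nonneg_left ?_ (by positivity)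
    have h4 : 1 + 1 / (d : ℝ) ≤ Real.exp (1 / d) := by
      have := Real.add_one_le_exp (1 / (d : ℝ))
      linarith
    have h5 : (1 + 1 / (d : ℝ)) ^ (d - 1) ≤ (1 + 1 / (d : ℝ)) ^ d :=
      pow_le_pow_right₀ (by have : 0 ≤ 1 / (d : ℝ) := by positivity
                            linarith) (by omega)
    have h6 : (1 + 1 / (d : ℝ)) ^ d ≤ Real.exp (1 / d) ^ d :=
      pow_le_pow_left₀ (by positivity) h4 _
    have h7 : Real.exp (1 / (d : ℝ)) ^ d = Real.exp 1 := by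
      rw [← Real.exp_nat_mul]
      congr 1
      have : (d : ℝ) ≠ 0 := by positivity
      field_simp
    have h8 := Real.exp_one_lt_d9
    rw [h7] at h6
    calc (1 + 1 / (d : ℝ)) ^ (d - 1) ≤ (1 + 1 / (d : ℝ)) ^ d := h5
      _ ≤ Real.exp 1 := h6
      _ ≤ 2 ^ 2 := by linarith
  have hp : 0 ≤ √(2 * Real.pi * d) := Real.sqrt_nonneg _
  have h9 : √(2 * Real.pi * d) * (1 / √(1 - b ^ 2)) ^ (d - 1) ≤
      √(2 * Real.pi * d) * L * √2 ^ (d - 1) := by
    have h10 : 0 ≤ √2 ^ (d - 1) := by positivity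
    calc √(2 * Real.pi * d) * (1 / √(1 - b ^ 2)) ^ (d - 1)
        ≤ √(2 * Real.pi * d) * (2 * √2 ^ (d - 1)) := mul_le_mul_of_nonneg_left hq hp
      _ = √(2 * Real.pi * d) * 2 * √2 ^ (d - 1) := by ring
      _ ≤ √(2 * Real.pi * d) * L * √2 ^ (d - 1) :=
          mul_le_mul_of_nonneg_right (mul_le_mul_of_nonneg_left hLe hp) h10
  linarith

/-- Linear images. -/
lemma cov_image {d : ℕ} (A : EuclideanSpace ℝ (Fin d) ≃L[ℝ] EuclideanSpace ℝ (Fin d)) {N : ℕ}
    {K : Set (EuclideanSpace ℝ (Fin d))} (h : Cov N K) : Cov N (A '' K) := by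
  refine Pool.Agent.R753.SJ.cover_equiv A.symm (A '' K) N ?_
  have e : A.symm '' (A '' K) = K := by
    rw [← Set.image_comp]
    simp
  rw [e]
  exact h

end Pool.Agent.K3h76.RB
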