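import Pool.Agent.K3h76.RB.D5

set_option autoImplicit false

/-!
Random orthonormal frames.
-/

namespace Pool.Agent.K3h76.RB

open scoped RealInnerProductSpace
open MeasureTheory Module Metric Set
open Pool.Agent.K3h76.SD Pool.Agent.W396.Il

/-- The orthogonal group. -/
noncomputable abbrev Gr (n : ℕ) := unitary (Fs n →L[ℝ] Fs n)

instance cstar_Gr (n : ℕ) : ContinuousStar (Fs n →L[ℝ] Fs n) :=
  ⟨(ContinuousLinearMap.adjoint (𝕜 := ℝ) (E := Fs n) (F := Fs n)).continuous⟩

instance compact_Gr (n : ℕ) : CompactSpace (Gr n) := by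
  have h1 : IsClosed (unitary (Fs n →L[ℝ] Fs n) : Set (Fs n →L[ℝ] Fs n)) := isClosed_unitary
  have h2 : Bornology.IsBounded (unitary (Fs n →L[ℝ] Fs n) : Set (Fs n →L[ℝ] Fs n)) := by
    apply (isBounded_iff_forall_norm_le).2
    refine ⟨1, ?_⟩
    intro u hu
    apply ContinuousLinearMap.opNorm_le_bound _ zero_le_one
    intro x
    rw [one_mul]
    exact (Unitary.norm_map ⟨u, hu⟩ x).le
  have h3 : ProperSpace (Fs n →L[ℝ] Fs n) := FiniteDimensional.proper ℝ _
  exact isCompact_iff_compactSpace.1 (Metric.isCompact_of_isClosed_isBounded h1 h2)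

instance second_Gr (n : ℕ) : SecondCountableTopology (Gr n) := by
  have h3 : ProperSpace (Fs n →L[ℝ] Fs n) := FiniteDimensional.proper ℝ _
  have h4 : SecondCountableTopology (Fs n →L[ℝ] Fs n) := inferInstance
  exact TopologicalSpace.Subtype.secondCountableTopology _

/-- The action of the orthogonal group. -/
noncomputable def act (n : ℕ) : Gr n →* (Fs n ≃ₗᵢ[ℝ] Fs n) :=
  Unitary.linearIsometryEquiv.toMonoidHom

theorem act_apply {n : ℕ} (k : Gr n) (v : Fs n) : act n k v = (k : Fs n →L[ℝ] Fs n) v := rfl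

theorem act_cont2 {n : ℕ} : Continuous (fun p : Fs n × Gr n => act n p.2⁻¹ p.1) := by
  have h1 : Continuous fun p : Fs n × Gr n => ((p.2⁻¹ : Gr n) : Fs n →L[ℝ] Fs n) :=
    continuous_subtype_val.comp (continuous_inv.comp continuous_snd)
  exact h1.clm_apply continuous_fst

theorem act_cont {n : ℕ} (v : Fs n) : Continuous (fun g : Gr n => act n g⁻¹ v) := by
  have h1 : Continuous fun g : Gr n => ((g⁻¹ : Gr n) : Fs n →L[ℝ] Fs n) :=
    continuous_subtype_val.comp continuous_inv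
  exact h1.clm_apply continuous_const

theorem act_trans {n : ℕ} (v w : Fs n) (hv : ‖v‖ = 1) (hw : ‖w‖ = 1) : ∃ k, act n k v = w := by
  refine ⟨Unitary.linearIsometryEquiv.symm ((ℝ ∙ (v - w))ᗮ.reflection), ?_⟩
  have h : act n (Unitary.linearIsometryEquiv.symm ((ℝ ∙ (v - w))ᗮ.reflection)) =
      (ℝ ∙ (v - w))ᗮ.reflection := Unitary.linearIsometryEquiv.apply_symm_apply _
  rw [h]
  exact Submodule.reflection_sub (by rw [hv, hw])

theorem act_inv_act {n : ℕ} (g : Gr n) (v : Fs n) : act n g⁻¹ (act n g v) = v := by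
  have : act n g⁻¹ (act n g v) = (act n (g⁻¹ * g)) v := by rw [map_mul]; rfl
  rw [this, inv_mul_cancel, map_one]
  rfl

theorem act_act_inv {n : ℕ} (g : Gr n) (v : Fs n) : act n g (act n g⁻¹ v) = v := by
  have : act n g (act n g⁻¹ v) = (act n (g * g⁻¹)) v := by rw [map_mul]; rfl
  rw [this, mul_inv_cancel, map_one]
  rfl

section haar

variable {n : ℕ} [MeasurableSpace (Gr n)] [BorelSpace (Gr n)] (μ : Measure (Gr n))
  [IsProbabilityMeasure μ] [μ.IsMulLeftInvariant]

/-- the image of a unit vector under a random rotation is uniformly distributed -/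
theorem haar_cone {A : Set (Fs n)} (hA : MeasurableSet A)
    (hcone : ∀ (x : Fs n) (r : ℝ), 0 < r → (r • x ∈ A ↔ x ∈ A)) {c : Fs n} (hc : ‖c‖ = 1) :
    μ {g | act n g⁻¹ c ∈ A} * volume (closedBall (0 : Fs n) 1) =
      volume (A ∩ closedBall (0 : Fs n) 1) := by
  have hnt : Nontrivial (Fs n) := Module.nontrivial_of_finrank_pos (R := ℝ)
    (by rw [finrank_Fs]; omega)
  set m := μ {g | act n g⁻¹ c ∈ A} with hm
  set B : Set (Fs n) := closedBall (0 : Fs n) 1 with hB
  have hBm : MeasurableSet B := isClosed_closedBall.measurableSet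
  -- the probability does not depend on the unit vector
  have hunit : ∀ x : Fs n, ‖x‖ = 1 → μ {g | act n g⁻¹ x ∈ A} = m := by
    intro x hx
    obtain ⟨h, hh⟩ := act_trans c x hc hx
    have e1 : {g : Gr n | act n g⁻¹ x ∈ A} =
        (fun g => h⁻¹ * g) ⁻¹' {g : Gr n | act n g⁻¹ c ∈ A} := by
      ext g
      show act n g⁻¹ x ∈ A ↔ act n (h⁻¹ * g)⁻¹ c ∈ A
      have : act n (h⁻¹ * g)⁻¹ c = act n g⁻¹ x := by
        rw [mul_inv_rev, inv_inv, map_mul, ← hh]
        rfl
      rw [this]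
    rw [e1, measure_preimage_mul]
  have hne : ∀ x : Fs n, x ≠ 0 → μ {g | act n g⁻¹ x ∈ A} = m := by
    intro x hx
    have hx0 : 0 < ‖x‖ := norm_pos_iff.2 hx
    rw [← hunit ((‖x‖)⁻¹ • x) (by
      rw [norm_smul, norm_inv, norm_norm, inv_mul_cancel₀ hx0.ne'])]
    congr 1
    ext g
    show act n g⁻¹ x ∈ A ↔ act n g⁻¹ ((‖x‖)⁻¹ • x) ∈ A
    rw [map_smul]
    exact (hcone _ _ (by positivity)).symm
  set S : Set (Fs n × Gr n) := {p | p.1 ∈ B ∧ act n p.2⁻¹ p.1 ∈ A} with hS
  have hSm : MeasurableSet S :=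
    (hBm.preimage measurable_fst).inter (hA.preimage act_cont2.measurable)
  have e1 : (volume.prod μ) S = ∫⁻ x, μ (Prod.mk x ⁻¹' S) ∂volume := Measure.prod_apply hSm
  have e2 : (volume.prod μ) S = ∫⁻ g, volume ((fun x => (x, g)) ⁻¹' S) ∂μ :=
    Measure.prod_apply_symm hSm
  have e3 : ∀ g : Gr n, volume ((fun x => (x, g)) ⁻¹' S) = volume (A ∩ B) := by
    intro g
    have e4 : (fun x => (x, g)) ⁻¹' S = (act n g⁻¹) ⁻¹' (A ∩ B) := by
      ext x
      show (x ∈ B ∧ act n g⁻¹ x ∈ A) ↔ (act n g⁻¹ x ∈ A ∧ act n g⁻¹ x ∈ B)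
      have : act n g⁻¹ x ∈ B ↔ x ∈ B := by
        rw [hB, mem_closedBall_zero_iff, mem_closedBall_zero_iff, (act n g⁻¹).norm_map]
      rw [this]
      exact and_comm
    rw [e4]
    exact ((act n g⁻¹).measurePreserving).measure_preimage (hA.inter hBm).nullMeasurableSet
  simp_rw [e3] at e2
  rw [lintegral_const, measure_univ, mul_one] at e2
  rw [← e2, e1, ← setLIntegral_const, ← lintegral_indicator hBm]
  refine lintegral_congr_ae ?_
  have hae : ∀ᵐ x ∂(volume : Measure (Fs n)), x ≠ 0 := by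
    have : volume ({0} : Set (Fs n)) = 0 := measure_singleton 0
    exact measure_eq_zero_iff_ae_notMem.1 this
  filter_upwards [hae] with x hx
  by_cases hxB : x ∈ B
  · rw [indicator_of_mem hxB, ← hne x hx]
    congr 1
    ext g
    show act n g⁻¹ x ∈ A ↔ (x ∈ B ∧ act n g⁻¹ x ∈ A)
    exact ⟨fun h => ⟨hxB, h⟩, fun h => h.2⟩
  · rw [indicator_of_notMem hxB]
    have : Prod.mk x ⁻¹' S = ∅ := by
      ext g
      simp only [mem_empty_iff_false, iff_false]
      exact fun h => hxB h.1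
    rw [this, measure_empty]

end haar

/-- the event for a rotation -/
def ev' {n : ℕ} (c : Fs n) (A : Set (Fs n)) : Set (Gr n) := {g | act n g⁻¹ c ∈ A}

lemma ev'_meas {n : ℕ} [MeasurableSpace (Gr n)] [BorelSpace (Gr n)] {c : Fs n} {A : Set (Fs n)}
    (hA : MeasurableSet A) : MeasurableSet (ev' c A) :=
  hA.preimage (act_cont c).measurable

lemma haar_real {n : ℕ} [MeasurableSpace (Gr n)] [BorelSpace (Gr n)] (μ : Measure (Gr n))
    [IsProbabilityMeasure μ] [μ.IsMulLeftInvariant] {A : Set (Fs n)} (hA : MeasurableSet A)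
    (hcone : ∀ (x : Fs n) (r : ℝ), 0 < r → (r • x ∈ A ↔ x ∈ A)) {c : Fs n} (hc : ‖c‖ = 1) :
    kap (n + 1) * μ.real (ev' c A) = volume.real (A ∩ closedBall (0 : Fs n) 1) := by
  have h2 := haar_cone μ hA hcone hc
  have h3 := congrArg ENNReal.toReal h2
  rw [ENNReal.toReal_mul] at h3
  rw [measureReal_def volume, ← h3, ← measureReal_def volume, ball_real, mul_comm]
  rfl

lemma symm_act {n : ℕ} (g : Gr n) (v : Fs n) : (act n g).symm v = act n g⁻¹ v := by
  rw [LinearIsometryEquiv.symm_apply_eq, act_act_inv]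

open Classical in
/-- Averaging over a probability space. -/
theorem exists_avg {Ω : Type*} [MeasurableSpace Ω] (μ : Measure Ω) [IsProbabilityMeasure μ]
    {ι : Type*} (S : Finset ι) (D : ι → Set Ω) (hD : ∀ i ∈ S, MeasurableSet (D i)) :
    ∃ g, ((S.filter fun i => g ∈ D i).card : ℝ) ≤ ∑ i ∈ S, μ.real (D i) := by
  set f : Ω → ℝ := fun g => ∑ i ∈ S, (D i).indicator (fun _ => (1 : ℝ)) g with hf
  have hint : ∀ i ∈ S, Integrable ((D i).indicator (fun _ => (1 : ℝ))) μ := fun i hi =>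
    (integrable_const _).indicator (hD i hi)
  obtain ⟨g, hg⟩ := exists_le_integral (μ := μ) (f := f) (integrable_finsetSum S hint)
  refine ⟨g, ?_⟩
  have hfg : f g = ((S.filter fun i => g ∈ D i).card : ℝ) := by
    rw [hf, Finset.card_filter]
    push_cast
    refine Finset.sum_congr rfl fun i _ => ?_
    by_cases h : g ∈ D i
    · rw [indicator_of_mem h, if_pos h]
    · rw [indicator_of_notMem h, if_neg h]
  have h1 : ∫ g, f g ∂μ = ∑ i ∈ S, μ.real (D i) := by
    rw [hf, integral_finsetSum S hint]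
    refine Finset.sum_congr rfl fun i hi => ?_
    rw [integral_indicator_const _ (hD i hi), smul_eq_mul, mul_one]
  rw [← hfg, ← h1]
  exact hg

open Classical in
/-- Averaging over random rotations. -/
theorem exists_rot {n : ℕ} {ι : Type*} (S : Finset ι) (c : ι → Fs n) (A : ι → Set (Fs n))
    (hc : ∀ i ∈ S, ‖c i‖ = 1) (hA : ∀ i ∈ S, MeasurableSet (A i))
    (hcone : ∀ i ∈ S, ∀ (x : Fs n) (r : ℝ), 0 < r → (r • x ∈ A i ↔ x ∈ A i)) :
    ∃ φ : Fs n ≃ₗᵢ[ℝ] Fs n, kap (n + 1) * ((S.filter fun i => φ.symm (c i) ∈ A i).card : ℝ) ≤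
      ∑ i ∈ S, volume.real (A i ∩ closedBall (0 : Fs n) 1) := by
  let hms : MeasurableSpace (Gr n) := borel _
  have hbs : BorelSpace (Gr n) := ⟨rfl⟩
  obtain ⟨μ, hμ1, hμ2⟩ : ∃ μ : Measure (Gr n), IsProbabilityMeasure μ ∧ μ.IsMulLeftInvariant :=
    ⟨Measure.haarMeasure ⊤, ⟨Measure.haarMeasure_self⟩, inferInstance⟩
  obtain ⟨g, hg⟩ := exists_avg μ S (fun i => ev' (c i) (A i)) (fun i hi => ev'_meas (hA i hi))
  refine ⟨act n g, ?_⟩
  have hk := kap_pos (n + 1)
  have h1 : (S.filter fun i => (act n g).symm (c i) ∈ A i) =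
      S.filter fun i => g ∈ ev' (c i) (A i) := by
    refine Finset.filter_congr fun i _ => ?_
    rw [symm_act]
    rfl
  rw [h1]
  refine (mul_le_mul_of_nonneg_left hg hk.le).trans (le_of_eq ?_)
  rw [Finset.mul_sum]
  exact Finset.sum_congr rfl fun i hi => haar_real μ (hA i hi) (hcone i hi) (hc i hi)

end Pool.Agent.K3h76.RB
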