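import Pool.Agent.K3h76.SD.Count

set_option autoImplicit false

/-!
Codes with fewer than `2 ^ d - 3 d` points in large dimensions.
-/

namespace Pool.Agent.K3h76.RB

open scoped RealInnerProductSpace
open MeasureTheory Module Metric Set
open Pool.Agent.K3h76.SD

/-- the codes in large dimensions, given the numerical condition -/
theorem code_k {n : ℕ} (hn : 18 ≤ n) {k : ℕ}
    (hnum : (6 * (((n + 1 : ℕ) : ℝ) + 1)) ^ (n + 1) * (1 - share n) ^ k < 1) :
    Code (Fs n) k (n + 1) := by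
  classical
  set d : ℝ := ((n + 1 : ℕ) : ℝ) with hdd
  have hd1 : (19 : ℝ) ≤ d := by
    rw [hdd]
    exact_mod_cast (by omega : 19 ≤ n + 1)
  have hs2 : √2 * √2 = (2 : ℝ) := sqrt2_sq
  have hs0 : 0 < √2 := by positivity
  have hδ : 0 < 1 / (2 * √2 * (d + 1)) := by positivity
  obtain ⟨S, hSc, hS1, hS⟩ := net_sphere (E := Fs n) _ hδ
  obtain ⟨T, hT, hT0, hTc⟩ := greedy (by omega : 1 ≤ n) S hS1 (share_le_one (by omega)) k
  have hSc' : (S.card : ℝ) ≤ (6 * (d + 1)) ^ (n + 1) := by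
    rw [finrank_Fs] at hSc
    refine hSc.trans (pow_le_pow_left₀ (by positivity) ?_ _)
    have : 2 / (1 / (2 * √2 * (d + 1))) = 4 * √2 * (d + 1) := by
      field_simp
      ring
    rw [this]
    have h1 : √2 ≤ 1.42 := by
      rw [Real.sqrt_le_left (by norm_num)]
      norm_num
    nlinarith
  have hs1 := share_le_one (by omega : 1 ≤ n)
  have hempty : (S.filter fun m => ∀ y ∈ T, y ∉ cap n m).card = 0 := by
    have h1 : ((S.filter fun m => ∀ y ∈ T, y ∉ cap n m).card : ℝ) < 1 := by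
      have h2 : (1 - share n) ^ k * (S.card : ℝ) ≤
          (1 - share n) ^ k * (6 * (d + 1)) ^ (n + 1) :=
        mul_le_mul_of_nonneg_left hSc' (pow_nonneg (by linarith) _)
      have h3 := hnum
      rw [mul_comm] at h3
      calc _ ≤ _ := hTc
        _ ≤ _ := h2
        _ < 1 := h3
    have h4 : (S.filter fun m => ∀ y ∈ T, y ∉ cap n m).card < 1 := by exact_mod_cast h1
    omega
  refine ⟨T, hT, fun v hv => ?_⟩
  have hv0 : 0 < ‖v‖ := norm_pos_iff.2 hv
  obtain ⟨m, hmS, hm⟩ := hS ((‖v‖)⁻¹ • v)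
    (by rw [norm_smul, norm_inv, norm_norm, inv_mul_cancel₀ hv0.ne'])
  have hmf : m ∉ S.filter fun m => ∀ y ∈ T, y ∉ cap n m := by
    rw [Finset.card_eq_zero.1 hempty]
    simp
  have hex : ∃ y ∈ T, y ∈ cap n m := by
    by_contra hcon
    push Not at hcon
    exact hmf (Finset.mem_filter.2 ⟨hmS, hcon⟩)
  obtain ⟨y, hyT, hy⟩ := hex
  have hy0 : 0 < ‖y‖ := norm_pos_iff.2 (hT0 y hyT)
  have hy2 : ‖y‖ ≤ √2 * ⟪y, m⟫ := hy.2
  -- inner product with the unit vector
  set c : Fs n := (‖v‖)⁻¹ • v with hc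
  have h1 : |⟪y, c - m⟫| ≤ ‖y‖ * (1 / (2 * √2 * (d + 1))) :=
    (abs_real_inner_le_norm _ _).trans (mul_le_mul_of_nonneg_left hm hy0.le)
  have h2 : ⟪y, c⟫ = ⟪y, m⟫ + ⟪y, c - m⟫ := by rw [inner_sub_right]; ring
  have h3 : ‖y‖ * (1 - 1 / (2 * (d + 1))) ≤ √2 * ⟪y, c⟫ := by
    have h4 : √2 * (‖y‖ * (1 / (2 * √2 * (d + 1)))) = ‖y‖ * (1 / (2 * (d + 1))) := by
      field_simp
    have h5 := (abs_le.1 h1).1
    have h6 := mul_le_mul_of_nonneg_left h5 hs0.le
    have h7 : √2 * ⟪y, c⟫ = √2 * ⟪y, m⟫ + √2 * ⟪y, c - m⟫ := by rw [h2]; ring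
    have h8 : ‖y‖ * (1 - 1 / (2 * (d + 1))) = ‖y‖ - ‖y‖ * (1 / (2 * (d + 1))) := by ring
    rw [h7, h8]
    linarith
  have hq : 0 < 1 - 1 / (2 * (d + 1)) := by
    have : 1 / (2 * (d + 1)) < 1 := by
      rw [div_lt_one (by positivity)]
      linarith
    linarith
  have h4 : 0 < √2 * ⟪y, c⟫ := lt_of_lt_of_le (mul_pos hy0 hq) h3
  have hyc : 0 < ⟪y, c⟫ := by
    by_contra hcon
    push Not at hcon
    nlinarith
  have hv2 : ⟪y, v⟫ = ‖v‖ * ⟪y, c⟫ := by
    rw [hc, inner_smul_right, ← mul_assoc, mul_inv_cancel₀ hv0.ne', one_mul]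
  refine ⟨y, hyT, by rw [hv2]; exact mul_pos hv0 hyc, ?_⟩
  have h5 : (‖y‖ * (1 - 1 / (2 * (d + 1)))) ^ 2 ≤ (√2 * ⟪y, c⟫) ^ 2 :=
    pow_le_pow_left₀ (by positivity) h3 2
  have h6 : (√2 * ⟪y, c⟫) ^ 2 = 2 * ⟪y, c⟫ ^ 2 := by
    rw [mul_pow, pow_two √2, hs2]
  rw [h6, mul_pow] at h5
  have h7 : d < (d + 1) * (1 - 1 / (2 * (d + 1))) ^ 2 := by
    have : (d + 1) * (1 - 1 / (2 * (d + 1))) ^ 2 = d + 1 / (4 * (d + 1)) := by
      field_simp
      ring
    rw [this]
    have : 0 < 1 / (4 * (d + 1)) := by positivity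
    linarith
  rw [hv2, mul_pow]
  have h8 : d * ‖y‖ ^ 2 < 2 * (d + 1) * ⟪y, c⟫ ^ 2 := by
    have h9 : d * ‖y‖ ^ 2 < (d + 1) * (1 - 1 / (2 * (d + 1))) ^ 2 * ‖y‖ ^ 2 :=
      mul_lt_mul_of_pos_right h7 (by positivity)
    have h10 := mul_le_mul_of_nonneg_left h5 (show 0 ≤ d + 1 by linarith)
    linarith
  have h9 := mul_lt_mul_of_pos_right h8 (show 0 < ‖v‖ ^ 2 by positivity)
  linarith

lemma poly_bound2 {d : ℕ} (hd : 19 ≤ d) :
    3.1416 * (d : ℝ) * (d * ((76.792 + d) / 20) + 1) ^ 2 < 2 ^ d := by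
  induction d, hd using Nat.le_induction with
  | base => norm_num
  | succ d hd ih =>
    have hd' : (19 : ℝ) ≤ d := by exact_mod_cast hd
    have h1 : ((d : ℝ) + 1) ≤ (20 / 19) * d := by linarith
    have h2 : ((d : ℝ) + 1) * ((76.792 + ((d : ℝ) + 1)) / 20) + 1 ≤
        (1.08 * (d * ((76.792 + d) / 20) + 1)) := by
      nlinarith
    have h3 : (((d : ℝ) + 1) * ((76.792 + ((d : ℝ) + 1)) / 20) + 1) ^ 2 ≤
        (1.08 * (d * ((76.792 + d) / 20) + 1)) ^ 2 :=
      pow_le_pow_left₀ (by positivity) h2 2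
    have h4 : ((d : ℝ) + 1) * (((d : ℝ) + 1) * ((76.792 + ((d : ℝ) + 1)) / 20) + 1) ^ 2 ≤
        ((20 / 19) * d) * (1.08 * (d * ((76.792 + d) / 20) + 1)) ^ 2 :=
      mul_le_mul h1 h3 (by positivity) (by positivity)
    have h5 : 0 ≤ (d : ℝ) * (d * ((76.792 + d) / 20) + 1) ^ 2 := by positivity
    have h6 : ((20 / 19) * (d : ℝ)) * (1.08 * (d * ((76.792 + d) / 20) + 1)) ^ 2 =
        ((20 / 19) * 1.08 ^ 2) * ((d : ℝ) * (d * ((76.792 + d) / 20) + 1) ^ 2) := by ring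
    have h7 : ((20 / 19 : ℝ) * 1.08 ^ 2) ≤ 2 := by norm_num
    have h8 := mul_le_mul_of_nonneg_right h7 h5
    have h9 : (2 : ℝ) ^ (d + 1) = 2 * 2 ^ d := by ring
    push_cast
    rw [h9]
    rw [h6] at h4
    linarith

lemma num_bound2 {n : ℕ} (hn : 18 ≤ n) :
    (6 * (((n + 1 : ℕ) : ℝ) + 1)) ^ (n + 1) *
      (1 - share n) ^ (2 ^ (n + 1) - 3 * (n + 1)) < 1 := by
  have hd : 19 ≤ n + 1 := by omega
  have h1 := poly_bound2 hd
  have h2 := log_le (d := n + 1)
  have hs := share_sq n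
  have hs1 := share_le_one (by omega : 1 ≤ n)
  have hs0 : 0 ≤ share n := by unfold share; positivity
  have hk3 : 3 * (n + 1) ≤ 2 ^ (n + 1) := by
    have : ∀ m : ℕ, 18 ≤ m → 3 * (m + 1) ≤ 2 ^ (m + 1) := by
      intro m hm
      induction m, hm using Nat.le_induction with
      | base => norm_num
      | succ m hm ih =>
        rw [pow_succ]
        omega
    exact this n hn
  set d : ℝ := ((n + 1 : ℕ) : ℝ) with hdd
  have hd1 : (19 : ℝ) ≤ d := by rw [hdd]; exact_mod_cast hd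
  have e1 : (n : ℝ) + 1 = d := by rw [hdd]; push_cast; ring
  rw [e1] at hs
  have hlog0 : 0 ≤ Real.log (6 * (d + 1)) := Real.log_nonneg (by linarith)
  have hpi : Real.pi < 3.1416 := Real.pi_lt_d4
  have h3 : (d * Real.log (6 * (d + 1)) + 1) ^ 2 < (share n * 2 ^ (n + 1)) ^ 2 := by
    rw [hs, lt_div_iff₀ (by have := Real.pi_pos; positivity)]
    have h4 : d * Real.log (6 * (d + 1)) + 1 ≤ d * ((76.792 + d) / 20) + 1 := by
      have := mul_le_mul_of_nonneg_left h2 (show 0 ≤ d by linarith)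
      linarith
    have h5 : (d * Real.log (6 * (d + 1)) + 1) ^ 2 ≤ (d * ((76.792 + d) / 20) + 1) ^ 2 :=
      pow_le_pow_left₀ (by positivity) h4 2
    have h6 : (d * Real.log (6 * (d + 1)) + 1) ^ 2 * (Real.pi * d) ≤
        (d * ((76.792 + d) / 20) + 1) ^ 2 * (3.1416 * d) :=
      mul_le_mul h5 (by nlinarith) (by have := Real.pi_pos; positivity) (by positivity)
    linarith
  have h4 : d * Real.log (6 * (d + 1)) + 1 < share n * 2 ^ (n + 1) :=
    lt_of_pow_lt_pow_left₀ 2 (by positivity) h3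
  -- the share of `3 d` caps is less than one
  have h3d : share n * (3 * d) ≤ 1 := by
    have hpoly : 9 * d ^ 2 ≤ (d * Real.log (6 * (d + 1)) + 1) ^ 2 := by
      have hlog : 3 ≤ Real.log (6 * (d + 1)) := by
        rw [Real.le_log_iff_exp_le (by positivity)]
        have he : Real.exp 3 = Real.exp 1 ^ 3 := by rw [← Real.exp_nat_mul]; norm_num
        rw [he]
        have h27 := Real.exp_one_lt_d9
        have : Real.exp 1 ^ 3 ≤ 2.7182818286 ^ 3 :=
          pow_le_pow_left₀ (Real.exp_pos _).le h27.le 3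
        have : (2.7182818286 : ℝ) ^ 3 ≤ 120 := by norm_num
        linarith
      have h5 : 3 * d ≤ d * Real.log (6 * (d + 1)) + 1 := by nlinarith
      have := pow_le_pow_left₀ (by positivity) h5 2
      nlinarith
    -- `(share 2^d)^2 (π d) = 2^d`
    have h5 : (share n * (3 * d)) ^ 2 ≤ 1 := by
      have hp2 : (0 : ℝ) < 2 ^ (n + 1) := by positivity
      have h6 : share n ^ 2 * 2 ^ (n + 1) * (Real.pi * d) = 1 := by
        have hpi0 := Real.pi_ne_zero
        have hd0 : d ≠ 0 := by linarith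
        have h7 : (share n * 2 ^ (n + 1)) ^ 2 * (Real.pi * d) = 2 ^ (n + 1) := by
          rw [hs]
          field_simp
        have h8 : (2 : ℝ) ^ (n + 1) * (share n ^ 2 * 2 ^ (n + 1) * (Real.pi * d)) =
            2 ^ (n + 1) * 1 := by
          rw [mul_one]
          calc _ = (share n * 2 ^ (n + 1)) ^ 2 * (Real.pi * d) := by ring
            _ = _ := h7
        exact mul_left_cancel₀ hp2.ne' h8
      have h9 : 9 * d ^ 2 ≤ 2 ^ (n + 1) * (Real.pi * d) := by
        have h10 : (d * Real.log (6 * (d + 1)) + 1) ^ 2 < 2 ^ (n + 1) / (Real.pi * d) := by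
          rw [← hs]; exact h3
        have h11 : 2 ^ (n + 1) / (Real.pi * d) ≤ 2 ^ (n + 1) * (Real.pi * d) := by
          rw [div_le_iff₀ (by have := Real.pi_pos; positivity)]
          have h12 : 1 ≤ Real.pi * d := by nlinarith [Real.pi_gt_three]
          have h13 : (1 : ℝ) ≤ (Real.pi * d) * (Real.pi * d) := by nlinarith
          nlinarith
        linarith
      have h10 := mul_le_mul_of_nonneg_left h9 (sq_nonneg (share n))
      calc (share n * (3 * d)) ^ 2 = share n ^ 2 * (9 * d ^ 2) := by ring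
        _ ≤ share n ^ 2 * (2 ^ (n + 1) * (Real.pi * d)) := h10
        _ = share n ^ 2 * 2 ^ (n + 1) * (Real.pi * d) := by ring
        _ = 1 := h6
    have h6 := Real.le_sqrt_of_sq_le h5
    simpa using h6
  have hkr : ((2 ^ (n + 1) - 3 * (n + 1) : ℕ) : ℝ) = 2 ^ (n + 1) - 3 * d := by
    rw [Nat.cast_sub hk3, hdd]
    push_cast
    ring
  have h5 : (1 - share n) ^ (2 ^ (n + 1) - 3 * (n + 1)) ≤
      Real.exp (-(share n * (2 ^ (n + 1) - 3 * d))) := by
    have h6 : 1 - share n ≤ Real.exp (-share n) := by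
      have := Real.add_one_le_exp (-share n)
      linarith
    refine (pow_le_pow_left₀ (by linarith) h6 _).trans (le_of_eq ?_)
    rw [← Real.exp_nat_mul, hkr]
    congr 1
    ring
  have h7 : (6 * (d + 1)) ^ (n + 1) = Real.exp (d * Real.log (6 * (d + 1))) := by
    rw [mul_comm, hdd, ← Real.log_pow, Real.exp_log]
    positivity
  rw [h7]
  calc Real.exp (d * Real.log (6 * (d + 1))) * (1 - share n) ^ (2 ^ (n + 1) - 3 * (n + 1))
      ≤ Real.exp (d * Real.log (6 * (d + 1))) * Real.exp (-(share n * (2 ^ (n + 1) - 3 * d))) :=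
        mul_le_mul_of_nonneg_left h5 (Real.exp_pos _).le
    _ < 1 := by
        rw [← Real.exp_add, Real.exp_lt_one_iff]
        nlinarith

theorem code_large' {n : ℕ} (hn : 18 ≤ n) :
    Code (Fs n) (2 ^ (n + 1) - 3 * (n + 1)) (n + 1) :=
  code_k hn (num_bound2 hn)

end Pool.Agent.K3h76.RB
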