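import Mathlib

set_option autoImplicit false

/-!
A linear programming bound of degree three for spherical codes.
-/

namespace Pool.Agent.K3h76.RB

open scoped RealInnerProductSpace

variable {ι : Type*} [Fintype ι]

lemma g3 (T : ι → ι → ι → ℝ) (h1 : ∀ a b c, T a b c = T b a c)
    (h2 : ∀ a b c, T a b c = T a c b) :
    3 * ∑ a, (∑ b, T a b b) ^ 2 ≤ ((Fintype.card ι : ℝ) + 2) * ∑ a, ∑ b, ∑ c, T a b c ^ 2 := by
  classical
  set V : ι → ℝ := fun a => ∑ b, T a b b with hV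
  set d : ℝ := (Fintype.card ι : ℝ) with hd
  have hd0 : 0 ≤ d := Nat.cast_nonneg _
  set A : ι → ι → ι → ℝ := fun a b c => if a = b then V c else 0 with hA
  set B : ι → ι → ι → ℝ := fun a b c => if b = c then V a else 0 with hB
  set C : ι → ι → ι → ℝ := fun a b c => if a = c then V b else 0 with hC
  set S := ∑ a, V a ^ 2 with hS
  have tA : ∑ a, ∑ b, ∑ c, T a b c * A a b c = S := by
    have : ∀ a b, ∑ c, T a b c * A a b c = if a = b then ∑ c, T a a c * V c else 0 := by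
      intro a b
      simp only [hA]
      split_ifs with h
      · subst h; rfl
      · simp
    simp only [this, Finset.sum_ite_eq, Finset.mem_univ, if_true]
    rw [Finset.sum_comm, hS]
    refine Finset.sum_congr rfl fun c _ => ?_
    rw [← Finset.sum_mul, sq]
    congr 1
    refine Finset.sum_congr rfl fun a _ => ?_
    rw [h2 a a c, h1 a c a]
  have tB : ∑ a, ∑ b, ∑ c, T a b c * B a b c = S := by
    simp only [hB, mul_ite, mul_zero, Finset.sum_ite_eq, Finset.mem_univ, if_true]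
    rw [hS]
    refine Finset.sum_congr rfl fun a _ => ?_
    rw [← Finset.sum_mul, sq]
  have tC : ∑ a, ∑ b, ∑ c, T a b c * C a b c = S := by
    simp only [hC, mul_ite, mul_zero, Finset.sum_ite_eq, Finset.mem_univ, if_true]
    rw [Finset.sum_comm, hS]
    refine Finset.sum_congr rfl fun b _ => ?_
    rw [← Finset.sum_mul, sq]
    congr 1
    refine Finset.sum_congr rfl fun a _ => ?_
    rw [h1 a b a]
  have aa : ∑ a, ∑ b, ∑ c, A a b c * A a b c = d * S := by
    have : ∀ a b, ∑ c, A a b c * A a b c = if a = b then S else 0 := by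
      intro a b
      simp only [hA]
      split_ifs with h
      · rw [hS]
        exact Finset.sum_congr rfl fun c _ => (sq _).symm
      · simp
    simp only [this, Finset.sum_ite_eq, Finset.mem_univ, if_true]
    simp [hd]
  have bb : ∑ a, ∑ b, ∑ c, B a b c * B a b c = d * S := by
    have : ∀ a b, ∑ c, B a b c * B a b c = V a ^ 2 := by
      intro a b
      simp only [hB, mul_ite, mul_zero, Finset.sum_ite_eq, Finset.mem_univ, if_true, sq]
    simp only [this]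
    simp [hd, hS, Finset.mul_sum]
  have cc : ∑ a, ∑ b, ∑ c, C a b c * C a b c = d * S := by
    have : ∀ a b, ∑ c, C a b c * C a b c = V b ^ 2 := by
      intro a b
      simp only [hC, mul_ite, mul_zero, Finset.sum_ite_eq, Finset.mem_univ, if_true, sq]
    simp only [this]
    simp [hd, hS]
  have ab : ∑ a, ∑ b, ∑ c, A a b c * B a b c = S := by
    simp only [hA, hB, mul_ite, mul_zero, Finset.sum_ite_eq, Finset.mem_univ, if_true, ite_mul,
      zero_mul, hS, sq]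
  have ac : ∑ a, ∑ b, ∑ c, A a b c * C a b c = S := by
    simp only [hA, hC, mul_ite, mul_zero, Finset.sum_ite_eq, Finset.mem_univ, if_true, ite_mul,
      zero_mul, hS, sq]
  have bc : ∑ a, ∑ b, ∑ c, B a b c * C a b c = S := by
    simp only [hB, hC, mul_ite, mul_zero, Finset.sum_ite_eq, Finset.sum_ite_eq', Finset.mem_univ,
      if_true, ite_mul, zero_mul, hS, sq]
  have key : 0 ≤ ∑ a, ∑ b, ∑ c, ((d + 2) * T a b c - (A a b c + B a b c + C a b c)) ^ 2 :=
    Finset.sum_nonneg fun a _ => Finset.sum_nonneg fun b _ => Finset.sum_nonneg fun c _ =>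
      sq_nonneg _
  have expand : ∑ a, ∑ b, ∑ c, ((d + 2) * T a b c - (A a b c + B a b c + C a b c)) ^ 2 =
      (d + 2) ^ 2 * ∑ a, ∑ b, ∑ c, T a b c ^ 2 - 2 * (d + 2) * (S + S + S) +
        (d * S + d * S + d * S + 2 * (S + S + S)) := by
    have h3 : ∀ a b c, ((d + 2) * T a b c - (A a b c + B a b c + C a b c)) ^ 2 =
        (d + 2) ^ 2 * T a b c ^ 2 - 2 * (d + 2) * (T a b c * A a b c + T a b c * B a b c +
          T a b c * C a b c) + (A a b c * A a b c + B a b c * B a b c + C a b c * C a b c +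
          2 * (A a b c * B a b c + A a b c * C a b c + B a b c * C a b c)) := by
      intro a b c
      ring
    simp only [h3, Finset.sum_add_distrib, Finset.sum_sub_distrib, ← Finset.mul_sum, tA, tB, tC,
      aa, bb, cc, ab, ac, bc]
  rw [expand] at key
  have h4 : 0 ≤ (d + 2) * ((d + 2) * ∑ a, ∑ b, ∑ c, T a b c ^ 2 - 3 * S) := by
    calc (0 : ℝ) ≤ _ := key
      _ = _ := by ring
  have h5 := nonneg_of_mul_nonneg_right h4 (by linarith)
  linarith

open Classical in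
/-- The linear programming bound of degree three. -/
theorem lev (S : Finset (EuclideanSpace ℝ ι)) (hS : ∀ u ∈ S, ‖u‖ = 1) {s β : ℝ}
    (hs : ∀ u ∈ S, ∀ v ∈ S, u ≠ v → ⟪u, v⟫ ≤ s) (h1 : s ≤ 2 * β)
    (h2 : 0 ≤ 3 / ((Fintype.card ι : ℝ) + 2) + β ^ 2 - 2 * β * s) (hs1 : s ≤ 1)
    (hcard : 0 < Fintype.card ι) :
    S.card * ((2 * β - s) / Fintype.card ι - s * β ^ 2) ≤ (1 - s) * (1 + β) ^ 2 := by
  set d : ℝ := (Fintype.card ι : ℝ) with hd
  have hd0 : 0 < d := by rw [hd]; exact_mod_cast hcard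
  set N : ℝ := (S.card : ℝ) with hN
  have hin : ∀ u v : EuclideanSpace ℝ ι, ⟪u, v⟫ = ∑ a, u a * v a := by
    intro u v
    rw [PiLp.inner_apply]
    refine Finset.sum_congr rfl fun a _ => ?_
    simp [mul_comm]
  have hun : ∀ u ∈ S, ∑ a, u a * u a = 1 := by
    intro u hu
    rw [← hin, real_inner_self_eq_norm_sq, hS u hu]
    norm_num
  -- first moment
  have m1 : ∑ u ∈ S, ∑ v ∈ S, ⟪u, v⟫ = ∑ a, (∑ u ∈ S, u a) ^ 2 := by
    calc ∑ u ∈ S, ∑ v ∈ S, ⟪u, v⟫ = ∑ u ∈ S, ∑ v ∈ S, ∑ a, u a * v a := by simp only [hin]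
      _ = ∑ u ∈ S, ∑ a, ∑ v ∈ S, u a * v a := by
          refine Finset.sum_congr rfl fun u _ => Finset.sum_comm
      _ = ∑ a, ∑ u ∈ S, ∑ v ∈ S, u a * v a := Finset.sum_comm
      _ = ∑ a, (∑ u ∈ S, u a) ^ 2 := by
          refine Finset.sum_congr rfl fun a _ => ?_
          rw [sq, Finset.sum_mul_sum]
  -- second moment
  have m2 : ∑ u ∈ S, ∑ v ∈ S, ⟪u, v⟫ ^ 2 = ∑ a, ∑ b, (∑ u ∈ S, u a * u b) ^ 2 := by
    have h3 : ∀ u v : EuclideanSpace ℝ ι, ⟪u, v⟫ ^ 2 =
        ∑ a, ∑ b, (u a * u b) * (v a * v b) := by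
      intro u v
      rw [hin, sq, Finset.sum_mul_sum]
      refine Finset.sum_congr rfl fun a _ => Finset.sum_congr rfl fun b _ => by ring
    calc ∑ u ∈ S, ∑ v ∈ S, ⟪u, v⟫ ^ 2
        = ∑ u ∈ S, ∑ v ∈ S, ∑ a, ∑ b, (u a * u b) * (v a * v b) := by simp only [h3]
      _ = ∑ u ∈ S, ∑ a, ∑ v ∈ S, ∑ b, (u a * u b) * (v a * v b) := by
          refine Finset.sum_congr rfl fun u _ => Finset.sum_comm
      _ = ∑ a, ∑ u ∈ S, ∑ v ∈ S, ∑ b, (u a * u b) * (v a * v b) := Finset.sum_comm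
      _ = ∑ a, ∑ u ∈ S, ∑ b, ∑ v ∈ S, (u a * u b) * (v a * v b) := by
          refine Finset.sum_congr rfl fun a _ => Finset.sum_congr rfl fun u _ => Finset.sum_comm
      _ = ∑ a, ∑ b, ∑ u ∈ S, ∑ v ∈ S, (u a * u b) * (v a * v b) := by
          refine Finset.sum_congr rfl fun a _ => Finset.sum_comm
      _ = _ := by
          refine Finset.sum_congr rfl fun a _ => Finset.sum_congr rfl fun b _ => ?_
          rw [sq, Finset.sum_mul_sum]
  -- third moment
  have m3 : ∑ u ∈ S, ∑ v ∈ S, ⟪u, v⟫ ^ 3 =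
      ∑ a, ∑ b, ∑ c, (∑ u ∈ S, u a * u b * u c) ^ 2 := by
    have h3 : ∀ u v : EuclideanSpace ℝ ι, ⟪u, v⟫ ^ 3 =
        ∑ a, ∑ b, ∑ c, (u a * u b * u c) * (v a * v b * v c) := by
      intro u v
      rw [hin, pow_succ, sq, Finset.sum_mul_sum, Finset.sum_mul]
      refine Finset.sum_congr rfl fun a _ => ?_
      rw [Finset.sum_mul]
      refine Finset.sum_congr rfl fun b _ => ?_
      rw [Finset.mul_sum]
      refine Finset.sum_congr rfl fun c _ => by ring
    calc ∑ u ∈ S, ∑ v ∈ S, ⟪u, v⟫ ^ 3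
        = ∑ u ∈ S, ∑ v ∈ S, ∑ a, ∑ b, ∑ c, (u a * u b * u c) * (v a * v b * v c) := by
          simp only [h3]
      _ = ∑ u ∈ S, ∑ a, ∑ v ∈ S, ∑ b, ∑ c, (u a * u b * u c) * (v a * v b * v c) := by
          refine Finset.sum_congr rfl fun u _ => Finset.sum_comm
      _ = ∑ a, ∑ u ∈ S, ∑ v ∈ S, ∑ b, ∑ c, (u a * u b * u c) * (v a * v b * v c) :=
          Finset.sum_comm
      _ = ∑ a, ∑ u ∈ S, ∑ b, ∑ v ∈ S, ∑ c, (u a * u b * u c) * (v a * v b * v c) := by
          refine Finset.sum_congr rfl fun a _ => Finset.sum_congr rfl fun u _ => Finset.sum_comm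
      _ = ∑ a, ∑ b, ∑ u ∈ S, ∑ v ∈ S, ∑ c, (u a * u b * u c) * (v a * v b * v c) := by
          refine Finset.sum_congr rfl fun a _ => Finset.sum_comm
      _ = ∑ a, ∑ b, ∑ u ∈ S, ∑ c, ∑ v ∈ S, (u a * u b * u c) * (v a * v b * v c) := by
          refine Finset.sum_congr rfl fun a _ => Finset.sum_congr rfl fun b _ =>
            Finset.sum_congr rfl fun u _ => Finset.sum_comm
      _ = ∑ a, ∑ b, ∑ c, ∑ u ∈ S, ∑ v ∈ S, (u a * u b * u c) * (v a * v b * v c) := by
          refine Finset.sum_congr rfl fun a _ => Finset.sum_congr rfl fun b _ => Finset.sum_comm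
      _ = _ := by
          refine Finset.sum_congr rfl fun a _ => Finset.sum_congr rfl fun b _ =>
            Finset.sum_congr rfl fun c _ => ?_
          rw [sq, Finset.sum_mul_sum]
  set M1 := ∑ u ∈ S, ∑ v ∈ S, ⟪u, v⟫ with hM1
  set M2 := ∑ u ∈ S, ∑ v ∈ S, ⟪u, v⟫ ^ 2 with hM2
  set M3 := ∑ u ∈ S, ∑ v ∈ S, ⟪u, v⟫ ^ 3 with hM3
  have p1 : 0 ≤ M1 := by
    rw [m1]
    exact Finset.sum_nonneg fun a _ => sq_nonneg _
  have p2 : N ^ 2 ≤ d * M2 := by
    rw [m2]
    have h3 : ∑ a, (∑ u ∈ S, u a * u a) = N := by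
      rw [Finset.sum_comm, Finset.sum_congr rfl hun]
      simp [hN]
    have h4 : ∑ a, (∑ u ∈ S, u a * u a) ^ 2 ≤ ∑ a, ∑ b, (∑ u ∈ S, u a * u b) ^ 2 := by
      refine Finset.sum_le_sum fun a _ => ?_
      exact Finset.single_le_sum (f := fun b => (∑ u ∈ S, u a * u b) ^ 2)
        (fun b _ => sq_nonneg _) (Finset.mem_univ a)
    have h5 := sq_sum_le_card_mul_sum_sq (s := (Finset.univ : Finset ι))
      (f := fun a => ∑ u ∈ S, u a * u a)
    rw [h3, Finset.card_univ] at h5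
    exact h5.trans (mul_le_mul_of_nonneg_left h4 hd0.le)
  have p3 : 3 * M1 ≤ (d + 2) * M3 := by
    rw [m1, m3]
    have h3 := g3 (fun a b c => ∑ u ∈ S, u a * u b * u c)
      (fun a b c => Finset.sum_congr rfl fun u _ => by ring)
      (fun a b c => Finset.sum_congr rfl fun u _ => by ring)
    refine le_trans (le_of_eq ?_) h3
    congr 1
    refine Finset.sum_congr rfl fun a _ => ?_
    congr 1
    rw [Finset.sum_comm]
    refine Finset.sum_congr rfl fun u hu => ?_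
    have : ∀ b, u a * u b * u b = u a * (u b * u b) := fun b => by ring
    simp only [this, ← Finset.mul_sum, hun u hu, mul_one]
  -- upper bound for the sum of `f`
  have hf : ∀ u v : EuclideanSpace ℝ ι, (⟪u, v⟫ - s) * (⟪u, v⟫ + β) ^ 2 =
      ⟪u, v⟫ ^ 3 + (2 * β - s) * ⟪u, v⟫ ^ 2 + (β ^ 2 - 2 * β * s) * ⟪u, v⟫ - s * β ^ 2 := by
    intro u v
    ring
  have hlow : ∑ u ∈ S, ∑ v ∈ S, (⟪u, v⟫ - s) * (⟪u, v⟫ + β) ^ 2 =
      M3 + (2 * β - s) * M2 + (β ^ 2 - 2 * β * s) * M1 - N ^ 2 * (s * β ^ 2) := by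
    simp only [hf, Finset.sum_add_distrib, Finset.sum_sub_distrib, ← Finset.mul_sum]
    simp [hM1, hM2, hM3, hN]
    ring
  have hup : ∑ u ∈ S, ∑ v ∈ S, (⟪u, v⟫ - s) * (⟪u, v⟫ + β) ^ 2 ≤
      N * ((1 - s) * (1 + β) ^ 2) := by
    have h3 : ∀ u ∈ S, ∑ v ∈ S, (⟪u, v⟫ - s) * (⟪u, v⟫ + β) ^ 2 ≤ (1 - s) * (1 + β) ^ 2 := by
      intro u hu
      rw [← Finset.add_sum_erase S _ hu]
      have h4 : ⟪u, u⟫ = 1 := by rw [real_inner_self_eq_norm_sq, hS u hu]; norm_num
      have h5 : ∑ v ∈ S.erase u, (⟪u, v⟫ - s) * (⟪u, v⟫ + β) ^ 2 ≤ 0 := by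
        refine Finset.sum_nonpos fun v hv => ?_
        have := hs u hu v (Finset.mem_of_mem_erase hv) (Finset.ne_of_mem_erase hv).symm
        exact mul_nonpos_of_nonpos_of_nonneg (by linarith) (sq_nonneg _)
      rw [h4]
      linarith
    refine (Finset.sum_le_sum h3).trans (le_of_eq ?_)
    simp [hN]
  rw [hlow] at hup
  rcases Nat.eq_zero_or_pos S.card with h0 | h0
  · have : N = 0 := by rw [hN, h0]; simp
    rw [this, zero_mul]
    exact mul_nonneg (by linarith) (sq_nonneg _)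
  have hN0 : 0 < N := by rw [hN]; exact_mod_cast h0
  have q3 : 3 / (d + 2) * M1 ≤ M3 := by
    rw [div_mul_eq_mul_div, div_le_iff₀ (by linarith)]
    linarith
  have q2 : N ^ 2 / d ≤ M2 := by
    rw [div_le_iff₀ hd0]
    linarith
  have q1 : 0 ≤ (3 / (d + 2) + β ^ 2 - 2 * β * s) * M1 := mul_nonneg h2 p1
  have q4 : (2 * β - s) * (N ^ 2 / d) ≤ (2 * β - s) * M2 :=
    mul_le_mul_of_nonneg_left q2 (by linarith)
  have q5 : N * (N * ((2 * β - s) / d - s * β ^ 2)) ≤ N * ((1 - s) * (1 + β) ^ 2) := by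
    calc N * (N * ((2 * β - s) / d - s * β ^ 2))
        = (2 * β - s) * (N ^ 2 / d) - N ^ 2 * (s * β ^ 2) := by ring
      _ ≤ _ := by linarith
  exact le_of_mul_le_mul_left q5 hN0

end Pool.Agent.K3h76.RB
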