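import Pool.Agent.K3h76.RB.Basic
import Pool.Agent.K3h76.RB.Lev
import Pool.Agent.K3h76.RB.Codes2
import Pool.Agent.K3h76.RB.Codes3
import Pool.Agent.K3h76.RB.Large

set_option autoImplicit false

/-!
Bodies each normal cone of which lies in, or contains, a circular cone of a certain size:
dimensions at least 6.
-/

namespace Pool.Agent.K3h76.RB

open scoped RealInnerProductSpace
open Module
open Pool.Agent.W396.Il
open Pool.Agent.K3h76.SD

section

variable {E : Type*} [NormedAddCommGroup E] [InnerProductSpace ℝ E]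

/-- The unit outer normals at `x` all lie in a spherical cap with squared sine `q`, or they include
such a cap. -/
def InOut (q : ℝ) (K : Set E) (x : E) : Prop :=
  (∃ c : E, ‖c‖ = 1 ∧ ∀ u, Nml K x u → 0 < ⟪c, u⟫ ∧ 1 - q ≤ ⟪c, u⟫ ^ 2) ∨
  (∃ c : E, ‖c‖ = 1 ∧ ∀ u, ‖u‖ = 1 → 0 < ⟪c, u⟫ → 1 - q ≤ ⟪c, u⟫ ^ 2 → Nml K x u)

/-- Bodies with narrow normal cones apart from at most `M` points. -/
theorem cover_code_add [FiniteDimensional ℝ E] {q : ℝ} {N M : ℕ} (hcode : CodeR E N q)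
    {K : Set E} (hK : Convex ℝ K) (hKc : IsCompact K) (hKi : (interior K).Nonempty) (W : E → Prop)
    (h : ∀ x ∈ K, (∃ c : E, ‖c‖ = 1 ∧ ∀ u, Nml K x u → 0 < ⟪c, u⟫ ∧ 1 - q ≤ ⟪c, u⟫ ^ 2) ∨ W x)
    (hW : ∀ F : Finset E, (∀ x ∈ F, x ∈ K ∧ W x) → F.card ≤ M) : Cov (N + M) K := by
  classical
  obtain ⟨s, hs, hcode⟩ := hcode
  set X : Set E := {x | x ∈ K ∧ W x} with hX
  have hXfin : X.Finite := by
    by_contra hinf
    obtain ⟨F, hFX, hFc⟩ := Set.Infinite.exists_subset_card_eq hinf (M + 1)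
    have := hW F (fun x hx => hFX hx)
    omega
  set F := hXfin.toFinset with hF
  have hFc : F.card ≤ M := hW F (fun x hx => by
    rw [hF, Set.Finite.mem_toFinset] at hx
    exact hx)
  choose U hU using fun x : E => exists_lit (K := K) hKi (x := x)
  have hcov := cover_of_lit hK hKc hKi (s ∪ F.image U) (by
    intro x hx
    rcases h x hx with ⟨e, he, hn⟩ | hw
    · obtain ⟨u, hu, hu1, hu2⟩ := hcode e (by
        rintro rfl
        simp at he)
      refine ⟨u, Finset.mem_union_left _ hu, lit_of_close he hn hu1 ?_⟩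
      rw [he] at hu2
      linarith
    · exact ⟨U x, Finset.mem_union_right _ (Finset.mem_image_of_mem _ (by
        rw [hF, Set.Finite.mem_toFinset]
        exact ⟨hx, hw⟩)), hU x⟩)
  obtain ⟨T, hT, hcov⟩ := hcov
  refine ⟨T, hT.trans ((Finset.card_union_le _ _).trans (add_le_add hs ?_)), hcov⟩
  exact Finset.card_image_le.trans hFc

theorem cover_inout [FiniteDimensional ℝ E] {q : ℝ} (hq0 : 0 < q) (hq1 : q < 1) {N M : ℕ}
    (hcode : CodeR E N q)
    (hM : ∀ S : Finset E, (∀ u ∈ S, ‖u‖ = 1) → (∀ u ∈ S, ∀ v ∈ S, u ≠ v → ⟪u, v⟫ ≤ 1 - 2 * q) →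
      S.card ≤ M)
    {K : Set E} (hK : Convex ℝ K) (hKc : IsCompact K) (hKi : (interior K).Nonempty)
    (h : ∀ x ∈ K, InOut q K x) : Cov (N + M) K := by
  classical
  refine cover_code_add hcode hK hKc hKi _ h ?_
  intro F hF
  have hXc : ∀ x : E, ∃ c : E, x ∈ F → ‖c‖ = 1 ∧
      ∀ u, ‖u‖ = 1 → 0 < ⟪c, u⟫ → 1 - q ≤ ⟪c, u⟫ ^ 2 → Nml K x u := by
    intro x
    by_cases hx : x ∈ F
    · obtain ⟨c, hc⟩ := (hF x hx).2
      exact ⟨c, fun _ => hc⟩
    · exact ⟨0, fun h => absurd h hx⟩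
  choose c hc using hXc
  have hτ0 : 0 < √(1 - q) := Real.sqrt_pos.2 (by linarith)
  have hτ2 : √(1 - q) ^ 2 = 1 - q := Real.sq_sqrt (by linarith)
  have hcap : ∀ x ∈ F, ∀ v, ‖v‖ = 1 → √(1 - q) ≤ ⟪c x, v⟫ → Nml K x v := by
    intro x hx v hv hcv
    refine (hc x hx).2 v hv (hτ0.trans_le hcv) ?_
    rw [← hτ2]
    exact pow_le_pow_left₀ hτ0.le hcv 2
  have hfar : ∀ x ∈ F, ∀ y ∈ F, x ≠ y → ⟪c x, c y⟫ ≤ 1 - 2 * q := by
    intro x hx y hy hne
    have := far (hc x hx).1 (hc y hy).1 (hcap x hx) (hcap y hy) (hF x hx).1 (hF y hy).1 hne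
    rw [hτ2] at this
    linarith
  have hinj : ∀ x ∈ F, ∀ y ∈ F, c x = c y → x = y := by
    intro x hx y hy hxy
    by_contra hne
    have h1 := hfar x hx y hy hne
    rw [hxy, real_inner_self_eq_norm_sq, (hc y hy).1] at h1
    linarith
  have h1 : (F.image c).card = F.card := Finset.card_image_of_injOn
    (fun x hx y hy hxy => hinj x hx y hy hxy)
  rw [← h1]
  refine hM _ ?_ ?_
  · intro u hu
    obtain ⟨x, hx, rfl⟩ := Finset.mem_image.1 hu
    exact (hc x hx).1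
  · intro u hu v hv huv
    obtain ⟨x, hx, rfl⟩ := Finset.mem_image.1 hu
    obtain ⟨y, hy, rfl⟩ := Finset.mem_image.1 hv
    exact hfar x hx y hy (fun h => huv (by rw [h]))

end

/-- the squared sine which is treated in dimension `d` -/
noncomputable def qd (d : ℕ) : ℝ := if d = 7 then 2 / 5 else if d = 8 then 9 / 25 else
  (d : ℝ) / (2 * (d + 1))

lemma lev_gen {d : ℕ} (hd : 1 ≤ d) (S : Finset (EuclideanSpace ℝ (Fin d)))
    (hS : ∀ u ∈ S, ‖u‖ = 1) (hs : ∀ u ∈ S, ∀ v ∈ S, u ≠ v → ⟪u, v⟫ ≤ 1 / ((d : ℝ) + 1)) :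
    S.card < 3 * d := by
  have hd1 : (1 : ℝ) ≤ d := by exact_mod_cast hd
  have h := lev S hS hs (β := ((d : ℝ) + 2) / (2 * d + 1)) (by
      rw [div_le_iff₀ (by positivity)]
      have : 2 * (((d : ℝ) + 2) / (2 * d + 1)) * (d + 1) = 2 * (d + 2) * (d + 1) / (2 * d + 1) := by
        ring
      rw [this, le_div_iff₀ (by positivity)]
      nlinarith) (by
      rw [Fintype.card_fin]
      have h1 : 2 * (((d : ℝ) + 2) / (2 * d + 1)) * (1 / (d + 1)) ≤ 3 / (d + 2) := by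
        have : 2 * (((d : ℝ) + 2) / (2 * d + 1)) * (1 / (d + 1)) =
            2 * (d + 2) / ((2 * d + 1) * (d + 1)) := by
          field_simp
        rw [this, div_le_div_iff₀ (by positivity) (by positivity)]
        nlinarith [mul_nonneg (by linarith : (0:ℝ) ≤ d) (by linarith : (0:ℝ) ≤ d - 1)]
      have h2 : 0 ≤ (((d : ℝ) + 2) / (2 * d + 1)) ^ 2 := sq_nonneg _
      linarith) (by
      rw [div_le_one (by positivity)]
      linarith) (by rw [Fintype.card_fin]; exact hd)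
  rw [Fintype.card_fin] at h
  have e1 : (2 * (((d : ℝ) + 2) / (2 * d + 1)) - 1 / (d + 1)) / d -
      1 / (d + 1) * (((d : ℝ) + 2) / (2 * d + 1)) ^ 2 =
      3 * (d ^ 2 + d + 1) / (d * (2 * d + 1) ^ 2) := by
    have : (d : ℝ) ≠ 0 := by positivity
    field_simp
    ring
  have e2 : (1 - 1 / ((d : ℝ) + 1)) * (1 + (d + 2) / (2 * d + 1)) ^ 2 =
      9 * d * (d + 1) / (2 * d + 1) ^ 2 := by
    field_simp
    ring
  rw [e1, e2, mul_div_assoc', div_le_div_iff₀ (by positivity) (by positivity)] at h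
  have h3 : (S.card : ℝ) < 3 * d := by
    by_contra hcon
    push Not at hcon
    have hp : (0 : ℝ) < (2 * d + 1) ^ 2 := by positivity
    have h4 : (S.card : ℝ) * (3 * (d ^ 2 + d + 1)) ≤ 9 * d * (d + 1) * d := by
      refine le_of_mul_le_mul_right ?_ hp
      calc _ = (S.card : ℝ) * (3 * (d ^ 2 + d + 1)) * (2 * d + 1) ^ 2 := by ring
        _ ≤ _ := h
        _ = _ := by ring
    have h5 := mul_le_mul_of_nonneg_right hcon (show (0:ℝ) ≤ 3 * (d ^ 2 + d + 1) by positivity)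
    nlinarith
  exact_mod_cast h3

lemma lev7 (S : Finset (EuclideanSpace ℝ (Fin 7)))
    (hS : ∀ u ∈ S, ‖u‖ = 1) (hs : ∀ u ∈ S, ∀ v ∈ S, u ≠ v → ⟪u, v⟫ ≤ 1 / 5) :
    S.card ≤ 28 := by
  have h := lev S hS hs (β := 1 / 2) (by norm_num) (by rw [Fintype.card_fin]; norm_num)
    (by norm_num) (by simp)
  rw [Fintype.card_fin] at h
  norm_num at h
  have : (S.card : ℝ) ≤ 28 := by linarith
  exact_mod_cast this

lemma lev8 (S : Finset (EuclideanSpace ℝ (Fin 8)))
    (hS : ∀ u ∈ S, ‖u‖ = 1) (hs : ∀ u ∈ S, ∀ v ∈ S, u ≠ v → ⟪u, v⟫ ≤ 7 / 25) :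
    S.card ≤ 69 := by
  have h := lev S hS hs (β := 2 / 5) (by norm_num) (by rw [Fintype.card_fin]; norm_num)
    (by norm_num) (by simp)
  rw [Fintype.card_fin] at h
  norm_num at h
  have : (S.card : ℝ) < 70 := by linarith
  have h2 : S.card < 70 := by exact_mod_cast this
  omega

lemma qd_pos {d : ℕ} (hd : 1 ≤ d) : 0 < qd d := by
  unfold qd
  have hd1 : (1 : ℝ) ≤ d := by exact_mod_cast hd
  split_ifs <;> positivity

lemma qd_lt {d : ℕ} : qd d < 1 := by
  unfold qd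
  have hd1 : (0 : ℝ) ≤ d := Nat.cast_nonneg d
  split_ifs
  · norm_num
  · norm_num
  · rw [div_lt_one (by positivity)]
    linarith

/-- Codes with sizes, for `d = 6` and `d` at least `9`. -/
lemma code_sizes (d : ℕ) (hd : 6 ≤ d) (h7 : d ≠ 7) (h8 : d ≠ 8) :
    ∃ N, N + (3 * d - 1) ≤ 2 ^ d ∧ Code (EuclideanSpace ℝ (Fin d)) N d := by
  rcases le_or_gt d 18 with h | h
  · interval_cases d
    · exact ⟨_, by norm_num, code6'⟩
    · exact absurd rfl h7
    · exact absurd rfl h8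
    · exact ⟨_, by norm_num, code9'⟩
    · exact ⟨_, by norm_num, code10'⟩
    · exact ⟨_, by norm_num, code11'⟩
    · exact ⟨_, by norm_num, code12'⟩
    · exact ⟨_, by norm_num, code13'⟩
    · exact ⟨_, by norm_num, code14'⟩
    · exact ⟨_, by norm_num, code15'⟩
    · exact ⟨_, by norm_num, code16'⟩
    · exact ⟨_, by norm_num, code17'⟩
    · exact ⟨_, by norm_num, code18'⟩
  · obtain ⟨n, rfl⟩ : ∃ n, d = n + 1 := ⟨d - 1, by omega⟩
    obtain ⟨e⟩ := exists_iso (E := Fs n) (F := EuclideanSpace ℝ (Fin (n + 1))) (by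
      rw [finrank_Fs, finrank_euclideanSpace_fin])
    refine ⟨2 ^ (n + 1) - 3 * (n + 1), ?_, (code_large' (by omega : 18 ≤ n)).map e⟩
    have h1 : 3 * (n + 1) ≤ 2 ^ (n + 1) := by
      have : ∀ m : ℕ, 18 ≤ m → 3 * (m + 1) ≤ 2 ^ (m + 1) := by
        intro m hm
        induction m, hm using Nat.le_induction with
        | base => norm_num
        | succ m hm ih =>
          rw [pow_succ]
          omega
      exact this n (by omega)
    omega

/-- Dimensions at least 6. -/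
theorem cover_six {d : ℕ} (hd : 6 ≤ d) {K : Set (EuclideanSpace ℝ (Fin d))} (hK : Convex ℝ K)
    (hKc : IsCompact K) (hKi : (interior K).Nonempty) (h : ∀ x ∈ K, InOut (qd d) K x) :
    Cov (2 ^ d) K := by
  have hmono : ∀ {m : ℕ}, m ≤ 2 ^ d → Cov m K → Cov (2 ^ d) K := by
    rintro m hm ⟨T, hT, hc⟩
    exact ⟨T, hT.trans hm, hc⟩
  by_cases h7 : d = 7
  · subst h7
    have hq : qd 7 = 2 / 5 := by simp [qd]
    rw [hq] at h
    refine hmono (by norm_num : 78 + 28 ≤ 2 ^ 7) (cover_inout (by norm_num) (by norm_num) code7'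
      (fun S hS hs => lev7 S hS (fun u hu v hv huv => ?_)) hK hKc hKi h)
    have := hs u hu v hv huv
    linarith
  by_cases h8 : d = 8
  · subst h8
    have hq : qd 8 = 9 / 25 := by simp [qd]
    rw [hq] at h
    refine hmono (by norm_num : 144 + 69 ≤ 2 ^ 8) (cover_inout (by norm_num) (by norm_num) code8'
      (fun S hS hs => lev8 S hS (fun u hu v hv huv => ?_)) hK hKc hKi h)
    have := hs u hu v hv huv
    linarith
  · obtain ⟨N, hN, hcode⟩ := code_sizes d hd h7 h8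
    have hq : qd d = (1 - 1 / 2) * ((d : ℝ) / (d + 1)) := by
      rw [qd, if_neg h7, if_neg h8]
      field_simp
      ring
    refine hmono hN (cover_inout (qd_pos (by omega)) qd_lt (by rw [hq]; exact hcode.toR)
      (fun S hS hs => ?_) hK hKc hKi h)
    have h1 := lev_gen (by omega : 1 ≤ d) S hS (fun u hu v hv huv => by
      refine (hs u hu v hv huv).trans (le_of_eq ?_)
      rw [qd, if_neg h7, if_neg h8]
      field_simp
      ring)
    omega

end Pool.Agent.K3h76.RB
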