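import Pool.Agent.K3h76.RB.InOut
import Pool.Agent.K3h76.RB.D34
import Pool.Agent.K3h76.RB.CapBody
import Pool.Agent.K3h76.SD.Main
import Pool.Agent.R753.SJ.F

set_option autoImplicit false

/-!
Bodies with circular normal cones: all dimensions.
-/

namespace Pool.Agent.K3h76.RB

open scoped RealInnerProductSpace
open Module MeasureTheory Metric Set
open Pool.Agent.W396.Il
open Pool.Agent.K3h76.SD

section transfer

variable {E F : Type*} [NormedAddCommGroup E] [InnerProductSpace ℝ E]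
  [NormedAddCommGroup F] [InnerProductSpace ℝ F] (e : E ≃ₗᵢ[ℝ] F) {K : Set E}

lemma nml_image (x u : E) : Nml (e '' K) (e x) (e u) ↔ Nml K x u := by
  unfold Nml
  rw [e.norm_map]
  refine and_congr_right fun _ => ?_
  constructor
  · intro h y hy
    have := h (e y) (mem_image_of_mem e hy)
    rwa [e.inner_map_map, e.inner_map_map] at this
  · rintro h _ ⟨y, hy, rfl⟩
    rw [e.inner_map_map, e.inner_map_map]
    exact h y hy

lemma nml_image' (x : E) (v : F) : Nml (e '' K) (e x) v ↔ Nml K x (e.symm v) := by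
  rw [← nml_image e, e.apply_symm_apply]

lemma inner_symm (c : E) (v : F) : ⟪e c, v⟫ = ⟪c, e.symm v⟫ := by
  rw [← e.inner_map_map c (e.symm v), e.apply_symm_apply]

lemma Nar.image {q : ℝ} {x : E} (h : Nar q K x) : Nar q (e '' K) (e x) := by
  obtain ⟨c, hc, hn⟩ := h
  refine ⟨e c, by rw [e.norm_map, hc], fun v hv => ?_⟩
  rw [nml_image'] at hv
  rw [inner_symm]
  exact hn _ hv

lemma Rd.image {x c : E} {t : ℝ} (h : Rd K x c t) : Rd (e '' K) (e x) (e c) t := by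
  refine ⟨by rw [e.norm_map, h.hc], h.ht, h.ht1, fun v hv => ?_⟩
  rw [nml_image', inner_symm]
  exact h.iff _ (by rw [e.symm.norm_map, hv])

lemma cov_of_image [FiniteDimensional ℝ E] [FiniteDimensional ℝ F] {N : ℕ}
    (h : Cov N (e '' K)) : Cov N K :=
  Pool.Agent.R753.SJ.cover_equiv e.toContinuousLinearEquiv K N h

lemma int_image (h : (interior K).Nonempty) : (interior (e '' K)).Nonempty := by
  have : interior (e '' K) = e '' interior K := (e.toHomeomorph.image_interior K).symm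
  rw [this]
  exact h.image _

end transfer

lemma inv_le_qd {d : ℕ} (hd : 6 ≤ d) : 1 / (d : ℝ) ≤ qd d := by
  have hd6 : (6 : ℝ) ≤ d := by exact_mod_cast hd
  unfold qd
  split_ifs with h7 h8
  · rw [h7]; norm_num
  · rw [h8]; norm_num
  · rw [div_le_div_iff₀ (by positivity) (by positivity)]
    nlinarith

/-- The main covering theorem for circular normal cones. -/
theorem cover_circ {d : ℕ} (hd : 1 ≤ d) {K : Set (EuclideanSpace ℝ (Fin d))} (hK : Convex ℝ K)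
    (hKc : IsCompact K) (hKi : (interior K).Nonempty)
    (h : ∀ x ∈ K, Nar (1 / d) K x ∨ Circ K x) : Cov (2 ^ d) K := by
  have hd0 : (0 : ℝ) < d := by exact_mod_cast hd
  have h' : ∀ x ∈ K, Nar (1 / (d : ℝ)) K x ∨ ∃ c t, Rd K x c t := by
    intro x hx
    rcases h x hx with h1 | h1
    · exact Or.inl h1
    · exact h1.cases (by positivity)
  -- transfer
  have trans : ∀ (n : ℕ), d = n + 1 →
      (∀ K' : Set (Fs n), Convex ℝ K' → IsCompact K' → (interior K').Nonempty →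
        (∀ x ∈ K', Nar (1 / (d : ℝ)) K' x ∨ ∃ c t, Rd K' x c t) → Cov (2 ^ d) K') →
      Cov (2 ^ d) K := by
    intro n hn hcov
    obtain ⟨e⟩ := exists_iso (E := EuclideanSpace ℝ (Fin d)) (F := Fs n) (by
      rw [finrank_Fs, finrank_euclideanSpace_fin, hn])
    refine cov_of_image e (hcov _ ?_ ?_ (int_image e hKi) ?_)
    · exact hK.linear_image e.toLinearEquiv.toLinearMap
    · exact hKc.image e.continuous
    · rintro _ ⟨x, hx, rfl⟩
      rcases h' x hx with h1 | ⟨c, t, h1⟩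
      · exact Or.inl (h1.image e)
      · exact Or.inr ⟨_, _, h1.image e⟩
  rcases le_or_gt d 2 with h2 | h2
  · exact Pool.Agent.R753.SJ.cover_le_two (V := EuclideanSpace ℝ (Fin d)) (by simp) h2 hK hKc hKi
  rcases le_or_gt 6 d with h6 | h6
  · refine cover_six h6 hK hKc hKi fun x hx => ?_
    have hq := inv_le_qd h6
    rcases h' x hx with ⟨c, hc, hn⟩ | ⟨c, t, hr⟩
    · refine Or.inl ⟨c, hc, fun u hu => ?_⟩
      obtain ⟨h3, h4⟩ := hn u hu
      exact ⟨h3, by linarith⟩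
    · rcases le_total (1 - qd d) (t ^ 2) with h3 | h3
      · refine Or.inl ⟨c, hr.hc, fun u hu => ?_⟩
        have h4 := (hr.iff u hu.1).1 hu
        have h5 := pow_le_pow_left₀ hr.ht.le h4 2
        exact ⟨hr.ht.trans_le h4, h3.trans h5⟩
      · refine Or.inr ⟨c, hr.hc, fun u hu h4 h5 => ?_⟩
        exact (hr.iff u hu).2 (le_of_sq_le_sq (h3.trans h5) h4.le)
  · have hd345 : d = 3 ∨ d = 4 ∨ d = 5 := by omega
    rcases hd345 with rfl | rfl | rfl
    · exact trans 2 rfl fun K' a1 a2 a3 a4 => cover3 a1 a2 a3 (by exact_mod_cast a4)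
    · exact trans 3 rfl fun K' a1 a2 a3 a4 => cover4 a1 a2 a3 (by exact_mod_cast a4)
    · exact trans 4 rfl fun K' a1 a2 a3 a4 => cover5 a1 a2 a3 (by exact_mod_cast a4)

/-! ### Quantitative statements for cones inside or containing circular cones -/

/-- codes by counting -/
lemma code_angle {n : ℕ} (hn : 1 ≤ n) {a : ℝ} (ha0 : 0 < a) (ha1 : a < 1) {k : ℕ}
    (hk : ((n + 1 : ℕ) : ℝ) * √(2 * Real.pi * ((n + 1 : ℕ) : ℝ)) *
      Real.log (1 + 4 * (((n + 1 : ℕ) : ℝ) + 1) / √(1 - a)) * (1 / √a) ^ n < k) :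
    CodeR (Fs n) k ((1 - a) * (((n + 1 : ℕ) : ℝ) / (((n + 1 : ℕ) : ℝ) + 1))) := by
  have hc2 : √(1 - a) ^ 2 = 1 - a := Real.sq_sqrt (by linarith)
  have hs2 : √a ^ 2 = a := Real.sq_sqrt ha0.le
  have hc0 : 0 < √(1 - a) := Real.sqrt_pos.2 (by linarith)
  have hs0 : 0 < √a := Real.sqrt_pos.2 ha0
  have hc1 : √(1 - a) < 1 := by
    rw [Real.sqrt_lt' one_pos]
    linarith
  have hpi := Real.pi_pos
  have hkey : ((n : ℝ) + 1) * Real.log (1 + 4 * ((n : ℝ) + 2) / √(1 - a)) <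
      k * shareG (√a) n := by
    have hsh := shareG_pos hs0 (n := n)
    have e0 : (((n + 1 : ℕ) : ℝ) + 1) = (n : ℝ) + 2 := by push_cast; ring
    have e0' : ((n + 1 : ℕ) : ℝ) = (n : ℝ) + 1 := by push_cast; ring
    rw [e0, e0'] at hk
    have h1 := mul_lt_mul_of_pos_right hk hsh
    refine lt_of_eq_of_lt ?_ h1
    have h2 : √(2 * Real.pi * ((n : ℝ) + 1)) * √(((n : ℝ) + 1) / (2 * Real.pi)) =
        (n : ℝ) + 1 := by
      rw [← Real.sqrt_mul (by positivity)]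
      have : 2 * Real.pi * ((n : ℝ) + 1) * (((n : ℝ) + 1) / (2 * Real.pi)) =
          ((n : ℝ) + 1) ^ 2 := by
        field_simp
      rw [this, Real.sqrt_sq (by positivity)]
    have h3 : (1 / √a) ^ n * √a ^ n = 1 := by
      rw [← mul_pow, one_div, inv_mul_cancel₀ hs0.ne', one_pow]
    unfold shareG
    have hn1 : ((n : ℝ) + 1) ≠ 0 := by positivity
    calc ((n : ℝ) + 1) * Real.log (1 + 4 * ((n : ℝ) + 2) / √(1 - a))
        = ((n : ℝ) + 1) * Real.log (1 + 4 * ((n : ℝ) + 2) / √(1 - a)) *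
          ((1 / √a) ^ n * √a ^ n) * (((n : ℝ) + 1) / ((n : ℝ) + 1)) := by
          rw [h3, div_self hn1]; ring
      _ = ((n : ℝ) + 1) * Real.log (1 + 4 * ((n : ℝ) + 2) / √(1 - a)) *
          ((1 / √a) ^ n * √a ^ n) * ((√(2 * Real.pi * ((n : ℝ) + 1)) *
            √(((n : ℝ) + 1) / (2 * Real.pi))) / ((n : ℝ) + 1)) := by rw [h2]
      _ = _ := by ring
  obtain ⟨T, hT, hTc⟩ := code_count hc0 hc1 hs0 (by rw [hc2, hs2]; ring) hn hkey
  refine ⟨T, hT, fun v hv => ?_⟩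
  obtain ⟨y, hy, h1, h2⟩ := hTc v hv
  refine ⟨y, hy, h1, ?_⟩
  rw [hc2] at h2
  have e0 : (((n + 1 : ℕ) : ℝ) + 1) = (n : ℝ) + 2 := by push_cast; ring
  have e0' : ((n + 1 : ℕ) : ℝ) = (n : ℝ) + 1 := by push_cast; ring
  rw [e0, e0']
  exact h2

/-- wide normal cones are few -/
lemma wide_count {n : ℕ} (hn : 1 ≤ n) {b : ℝ} (hb0 : 0 < b) (hb1 : b < 1) {K : Set (Fs n)}
    (F : Finset (Fs n)) (hF : ∀ x ∈ F, x ∈ K ∧
      ∃ c : Fs n, ‖c‖ = 1 ∧ ∀ u, ‖u‖ = 1 → b ≤ ⟪c, u⟫ → Nml K x u) :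
    (F.card : ℝ) ≤ √(2 * Real.pi * ((n + 1 : ℕ) : ℝ)) * (1 / √(1 - b ^ 2)) ^ n := by
  classical
  have hXc : ∀ x : Fs n, ∃ c : Fs n, x ∈ F → ‖c‖ = 1 ∧
      ∀ u, ‖u‖ = 1 → b ≤ ⟪c, u⟫ → Nml K x u := by
    intro x
    by_cases hx : x ∈ F
    · obtain ⟨c, hc⟩ := (hF x hx).2
      exact ⟨c, fun _ => hc⟩
    · exact ⟨0, fun h => absurd h hx⟩
  choose c hc using hXc
  have hb2 : 0 < 1 - b ^ 2 := by nlinarith
  have hs0 : 0 < √(1 - b ^ 2) := Real.sqrt_pos.2 hb2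
  have hs2 : √(1 - b ^ 2) ^ 2 = 1 - b ^ 2 := Real.sq_sqrt hb2.le
  have hcs : b ^ 2 + √(1 - b ^ 2) ^ 2 = 1 := by rw [hs2]; ring
  have h1 := sum_vol_le F (fun x => capO b n (c x)) (fun x _ => capO_meas _ _ _)
    (fun x _ => capO_sub _ _ _) (fun x hx y hy hne => by
      rw [Set.disjoint_left]
      rintro z ⟨hz1, hz2⟩ ⟨hz3, hz4⟩
      rcases eq_or_ne z 0 with rfl | hz0
      · simp at hz2
      have hzn : 0 < ‖z‖ := norm_pos_iff.2 hz0
      have hnn : ‖(‖z‖)⁻¹ • z‖ = 1 := by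
        rw [norm_smul, norm_inv, norm_norm, inv_mul_cancel₀ hzn.ne']
      have k1 : b < ⟪c x, (‖z‖)⁻¹ • z⟫ := by
        rw [inner_smul_right, inv_mul_eq_div, lt_div_iff₀ hzn, real_inner_comm]
        exact hz2
      have k2 : b < ⟪c y, (‖z‖)⁻¹ • z⟫ := by
        rw [inner_smul_right, inv_mul_eq_div, lt_div_iff₀ hzn, real_inner_comm]
        exact hz4
      exact hne (disj (fun v hv hcv => (hc x hx).2 v hv hcv) (hF y hy).1 (hF x hx).1 k1
        ((hc y hy).2 _ hnn k2.le)))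
  have hk := kap_pos (n + 1)
  have h2 : ∀ x ∈ F, kap (n + 1) * shareG (√(1 - b ^ 2)) n ≤ volume.real (capO b n (c x)) := by
    intro x hx
    refine le_trans ?_ (capO_vol hb0 hb1 hs0 hcs hn (hc x hx).1)
    rw [mul_comm]
    refine (shareG_le hs0).trans ?_
    exact mul_le_mul_of_nonneg_left (J_ge hb0 hb1 hs0 hcs n) (kap_pos n).le
  have h3 := (Finset.sum_le_sum h2).trans h1
  rw [Finset.sum_const, nsmul_eq_mul] at h3
  have h4 : (F.card : ℝ) * shareG (√(1 - b ^ 2)) n ≤ 1 := by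
    refine le_of_mul_le_mul_left ?_ hk
    linarith
  have h5 : √(2 * Real.pi * ((n + 1 : ℕ) : ℝ)) * (1 / √(1 - b ^ 2)) ^ n *
      shareG (√(1 - b ^ 2)) n = 1 := by
    have hpi := Real.pi_pos
    have e0' : ((n + 1 : ℕ) : ℝ) = (n : ℝ) + 1 := by push_cast; ring
    rw [e0']
    have h6 : √(2 * Real.pi * ((n : ℝ) + 1)) * √(((n : ℝ) + 1) / (2 * Real.pi)) =
        (n : ℝ) + 1 := by
      rw [← Real.sqrt_mul (by positivity)]
      have : 2 * Real.pi * ((n : ℝ) + 1) * (((n : ℝ) + 1) / (2 * Real.pi)) =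
          ((n : ℝ) + 1) ^ 2 := by
        field_simp
      rw [this, Real.sqrt_sq (by positivity)]
    have h7 : (1 / √(1 - b ^ 2)) ^ n * √(1 - b ^ 2) ^ n = 1 := by
      rw [← mul_pow, one_div, inv_mul_cancel₀ hs0.ne', one_pow]
    have hn1 : ((n : ℝ) + 1) ≠ 0 := by positivity
    unfold shareG
    calc _ = ((1 / √(1 - b ^ 2)) ^ n * √(1 - b ^ 2) ^ n) *
        ((√(2 * Real.pi * ((n : ℝ) + 1)) * √(((n : ℝ) + 1) / (2 * Real.pi))) / ((n : ℝ) + 1)) := by
          ring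
      _ = 1 := by rw [h6, h7, div_self hn1, one_mul]
  have hsh := shareG_pos hs0 (n := n)
  refine le_of_mul_le_mul_right ?_ hsh
  rw [h5]
  exact h4

/-- the covering bound for bodies each normal cone of which lies in a circular cone of one size
or contains a circular cone of another size -/
theorem cover_two {d : ℕ} (hd : 2 ≤ d) {a b : ℝ} (ha0 : 0 < a) (ha1 : a < 1) (hb0 : 0 < b)
    (hb1 : b < 1) {K : Set (EuclideanSpace ℝ (Fin d))} (hK : Convex ℝ K)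
    (hKc : IsCompact K) (hKi : (interior K).Nonempty)
    (h : ∀ x ∈ K, (∃ c, ‖c‖ = 1 ∧ ∀ u, Nml K x u → 0 < ⟪c, u⟫ ∧
        a + (1 - a) / (d + 1) ≤ ⟪c, u⟫ ^ 2) ∨
      (∃ c, ‖c‖ = 1 ∧ ∀ u, ‖u‖ = 1 → b ≤ ⟪c, u⟫ → Nml K x u)) :
    ∃ N : ℕ, (N : ℝ) ≤ 1 + d * √(2 * Real.pi * d) *
        Real.log (1 + 4 * ((d : ℝ) + 1) / √(1 - a)) * (1 / √a) ^ (d - 1) +
        √(2 * Real.pi * d) * (1 / √(1 - b ^ 2)) ^ (d - 1) ∧ Cov N K := by
  obtain ⟨n, rfl⟩ : ∃ n, d = n + 1 := ⟨d - 1, by omega⟩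
  rw [Nat.add_sub_cancel]
  have hn : 1 ≤ n := by omega
  obtain ⟨e⟩ := exists_iso (E := EuclideanSpace ℝ (Fin (n + 1))) (F := Fs n) (by
    rw [finrank_Fs, finrank_euclideanSpace_fin])
  set B : ℝ := ((n + 1 : ℕ) : ℝ) * √(2 * Real.pi * ((n + 1 : ℕ) : ℝ)) *
      Real.log (1 + 4 * (((n + 1 : ℕ) : ℝ) + 1) / √(1 - a)) * (1 / √a) ^ n with hB
  have hB0 : 0 ≤ B := by
    have : 0 ≤ Real.log (1 + 4 * (((n + 1 : ℕ) : ℝ) + 1) / √(1 - a)) := by
      refine Real.log_nonneg ?_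
      have : 0 ≤ 4 * (((n + 1 : ℕ) : ℝ) + 1) / √(1 - a) := by positivity
      linarith
    positivity
  set D : ℝ := √(2 * Real.pi * ((n + 1 : ℕ) : ℝ)) * (1 / √(1 - b ^ 2)) ^ n with hD
  have hD0 : 0 ≤ D := by positivity
  refine ⟨(⌊B⌋₊ + 1) + ⌊D⌋₊, ?_, ?_⟩
  · have h1 := Nat.floor_le hB0
    have h2 := Nat.floor_le hD0
    push_cast
    linarith
  · refine cov_of_image e ?_
    refine cover_code_add (code_angle hn ha0 ha1 (k := ⌊B⌋₊ + 1) (by
        push_cast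
        rw [hB]
        push_cast
        exact_mod_cast Nat.lt_floor_add_one _))
      (hK.linear_image e.toLinearEquiv.toLinearMap)
      (hKc.image e.continuous) (int_image e hKi)
      (fun x => ∃ c : Fs n, ‖c‖ = 1 ∧ ∀ u, ‖u‖ = 1 → b ≤ ⟪c, u⟫ → Nml (e '' K) x u) ?_ ?_
    · rintro _ ⟨x, hx, rfl⟩
      rcases h x hx with ⟨c, hc, h1⟩ | ⟨c, hc, h1⟩
      · refine Or.inl ⟨e c, by rw [e.norm_map, hc], fun v hv => ?_⟩
        rw [nml_image'] at hv
        rw [inner_symm]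
        obtain ⟨h2, h3⟩ := h1 _ hv
        refine ⟨h2, le_trans (le_of_eq ?_) h3⟩
        have : (((n + 1 : ℕ) : ℝ) + 1) ≠ 0 := by positivity
        field_simp
        ring
      · refine Or.inr ⟨e c, by rw [e.norm_map, hc], fun v hv hcv => ?_⟩
        rw [nml_image']
        rw [inner_symm] at hcv
        exact h1 _ (by rw [e.symm.norm_map, hv]) hcv
    · intro F hF
      have := wide_count hn hb0 hb1 F hF
      exact Nat.le_floor this

/-- For fixed `a > 1/4` the main term is small compared with `2^d` in large dimensions. -/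
lemma bound_asymp' {a : ℝ} (ha : 1 / 4 < a) (ha1 : a < 1) : ∃ d₀ : ℕ, 2 ≤ d₀ ∧ ∀ d : ℕ, d₀ ≤ d →
    d * √(2 * Real.pi * d) * Real.log (1 + 4 * ((d : ℝ) + 1) / √(1 - a)) *
      (1 / √a) ^ (d - 1) < 2 ^ d / 4 := by
  have ha0 : 0 < a := by linarith
  have hs0 : 0 < √a := Real.sqrt_pos.2 ha0
  have hc0 : 0 < √(1 - a) := Real.sqrt_pos.2 (by linarith)
  have hpi := Real.pi_pos
  have hs : 1 / 2 < √a := by
    rw [Real.lt_sqrt (by norm_num)]
    linarith
  set r : ℝ := 1 / (2 * √a) with hr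
  have hr0 : 0 < r := by positivity
  have hr1 : r < 1 := by
    rw [hr, div_lt_one (by positivity)]
    linarith
  set C : ℝ := 32 * Real.pi / √(1 - a) * √a with hC
  have hC0 : 0 < C := by positivity
  have hlim := tendsto_pow_const_mul_const_pow_of_abs_lt_one 3 (r := r) (by
    rw [abs_of_pos hr0]; exact hr1)
  have hev : ∀ᶠ n : ℕ in Filter.atTop, (n : ℝ) ^ 3 * r ^ n < 1 / (2 * C) :=
    hlim.eventually (gt_mem_nhds (by positivity))
  obtain ⟨N, hN⟩ := Filter.eventually_atTop.1 hev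
  refine ⟨max N 2, le_max_right _ _, fun d hd => ?_⟩
  have h1 := hN d ((le_max_left _ _).trans hd)
  have hd2 : 2 ≤ d := (le_max_right _ _).trans hd
  have hdr : (2 : ℝ) ≤ d := by exact_mod_cast hd2
  -- crude bounds
  have hlog : Real.log (1 + 4 * ((d : ℝ) + 1) / √(1 - a)) ≤ 4 * ((d : ℝ) + 1) / √(1 - a) := by
    have := Real.log_le_sub_one_of_pos (x := 1 + 4 * ((d : ℝ) + 1) / √(1 - a)) (by positivity)
    linarith
  have hlog0 : 0 ≤ Real.log (1 + 4 * ((d : ℝ) + 1) / √(1 - a)) := by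
    refine Real.log_nonneg ?_
    have : 0 ≤ 4 * ((d : ℝ) + 1) / √(1 - a) := by positivity
    linarith
  have hsq : √(2 * Real.pi * d) ≤ 2 * Real.pi * d := by
    rw [Real.sqrt_le_left (by positivity)]
    have : 1 ≤ 2 * Real.pi * d := by nlinarith [Real.pi_gt_three]
    nlinarith
  have hpow : (1 / √a) ^ (d - 1) = √a * (2 ^ d * r ^ d) := by
    have e : d = (d - 1) + 1 := by omega
    have e2 : (2 : ℝ) ^ d * r ^ d = (1 / √a) ^ d := by
      rw [← mul_pow, hr]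
      congr 1
      field_simp
    rw [e2]
    nth_rewrite 2 [e]
    rw [pow_succ]
    field_simp
  have hfin : d * √(2 * Real.pi * d) * Real.log (1 + 4 * ((d : ℝ) + 1) / √(1 - a)) *
      (1 / √a) ^ (d - 1) ≤ C * ((d : ℝ) ^ 3 * r ^ d) * 2 ^ d / 2 := by
    have h3 : (d : ℝ) * √(2 * Real.pi * d) * Real.log (1 + 4 * ((d : ℝ) + 1) / √(1 - a)) ≤
        d * (2 * Real.pi * d) * (4 * ((d : ℝ) + 1) / √(1 - a)) := by
      refine mul_le_mul (mul_le_mul_of_nonneg_left hsq (by positivity)) hlog hlog0 (by positivity)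
    have h4 : (d : ℝ) * (2 * Real.pi * d) * (4 * ((d : ℝ) + 1) / √(1 - a)) ≤
        d * (2 * Real.pi * d) * (4 * (2 * d) / √(1 - a)) := by
      refine mul_le_mul_of_nonneg_left ?_ (by positivity)
      refine div_le_div_of_nonneg_right (by linarith) hc0.le
    rw [hpow]
    calc (d : ℝ) * √(2 * Real.pi * d) * Real.log (1 + 4 * ((d : ℝ) + 1) / √(1 - a)) *
        (√a * (2 ^ d * r ^ d))
        ≤ d * (2 * Real.pi * d) * (4 * (2 * d) / √(1 - a)) * (√a * (2 ^ d * r ^ d)) :=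
          mul_le_mul_of_nonneg_right (h3.trans h4) (by positivity)
      _ = C * ((d : ℝ) ^ 3 * r ^ d) * 2 ^ d / 2 := by
          rw [hC]
          ring
  have h5 : C * ((d : ℝ) ^ 3 * r ^ d) < 1 / 2 := by
    have := mul_lt_mul_of_pos_left h1 hC0
    have e : C * (1 / (2 * C)) = 1 / 2 := by field_simp
    linarith
  have h6 : C * ((d : ℝ) ^ 3 * r ^ d) * 2 ^ d / 2 < 1 / 2 * 2 ^ d / 2 := by
    have := mul_lt_mul_of_pos_right h5 (show (0 : ℝ) < 2 ^ d by positivity)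
    linarith
  linarith

/-- The asymptotic statement: half-angles less than 60 degrees and more than 30 degrees. -/
theorem cover_asymp {a b : ℝ} (ha : 1 / 2 < a) (hb : b < √3 / 2) :
    ∃ d₀ : ℕ, 2 ≤ d₀ ∧ ∀ (d : ℕ) (K : Set (EuclideanSpace ℝ (Fin d))), d₀ ≤ d → Convex ℝ K →
      IsCompact K → (interior K).Nonempty →
      (∀ x ∈ K, (∃ c, ‖c‖ = 1 ∧ ∀ u, Nml K x u → a ≤ ⟪c, u⟫) ∨
        (∃ c, ‖c‖ = 1 ∧ ∀ u, ‖u‖ = 1 → b ≤ ⟪c, u⟫ → Nml K x u)) →
      ∃ N : ℕ, N < 2 ^ d ∧ Cov N K := by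
  -- parameters
  have hs3 : √3 ^ 2 = (3 : ℝ) := Real.sq_sqrt (by norm_num)
  have hs30 : 0 < √3 := by positivity
  have hs31 : √3 < 1.8 := by
    rw [Real.sqrt_lt' (by norm_num)]
    norm_num
  set b' : ℝ := max b (1 / 2) with hb'
  have hb0 : 0 < b' := lt_of_lt_of_le (by norm_num) (le_max_right _ _)
  have hbb : b ≤ b' := le_max_left _ _
  have hb3 : b' < √3 / 2 := by
    refine max_lt hb ?_
    have : (1 : ℝ) < √3 := by
      rw [Real.lt_sqrt (by norm_num)]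
      norm_num
    linarith
  have hb1 : b' < 1 := by linarith
  have hb4 : b' ^ 2 < 3 / 4 := by
    have := pow_lt_pow_left₀ hb3 hb0.le (n := 2) (by norm_num)
    rw [div_pow, hs3] at this
    linarith
  -- a smaller `a`
  set a₁ : ℝ := min (min a (9 / 10) ^ 2) (1 - b' ^ 2) with ha₁
  have hmin : 1 / 2 < min a (9 / 10) := lt_min ha (by norm_num)
  have ha1q : 1 / 4 < a₁ := by
    refine lt_min ?_ (by linarith)
    nlinarith
  have ha1lt : a₁ < 1 := by
    refine lt_of_le_of_lt (min_le_right _ _) ?_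
    have : 0 < b' ^ 2 := by positivity
    linarith
  set a₂ : ℝ := (1 / 4 + a₁) / 2 with ha₂
  have ha2q : 1 / 4 < a₂ := by rw [ha₂]; linarith
  have ha21 : a₂ < a₁ := by rw [ha₂]; linarith
  have ha2lt : a₂ < 1 := by linarith
  obtain ⟨d₁, hd₁2, hd₁⟩ := bound_asymp' ha2q ha2lt
  obtain ⟨d₂, hd₂⟩ := exists_nat_gt (1 / (a₁ - a₂))
  refine ⟨max d₁ d₂, hd₁2.trans (le_max_left _ _), fun d K hd hK hKc hKi h => ?_⟩
  have hdd1 : d₁ ≤ d := (le_max_left _ _).trans hd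
  have hdd2 : d₂ ≤ d := (le_max_right _ _).trans hd
  have hd2 : 2 ≤ d := hd₁2.trans hdd1
  have hdr : (2 : ℝ) ≤ d := by exact_mod_cast hd2
  have hgap : 1 / ((d : ℝ) + 1) ≤ a₁ - a₂ := by
    have h1 : (d₂ : ℝ) ≤ d := by exact_mod_cast hdd2
    have h2 : 1 / (a₁ - a₂) < (d : ℝ) + 1 := by linarith
    rw [div_le_iff₀ (by positivity)]
    rw [div_lt_iff₀ (by linarith)] at h2
    linarith
  obtain ⟨N, hN, hcov⟩ := cover_two hd2 (a := a₂) (b := b') (by linarith) ha2lt hb0 hb1 hK hKc hKi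
    (by
      intro x hx
      rcases h x hx with ⟨c, hc, h1⟩ | ⟨c, hc, h1⟩
      · refine Or.inl ⟨c, hc, fun u hu => ?_⟩
        have h2 := h1 u hu
        refine ⟨by linarith, ?_⟩
        have h3 : min a (9 / 10) ^ 2 ≤ ⟪c, u⟫ ^ 2 :=
          pow_le_pow_left₀ (by linarith) ((min_le_left _ _).trans h2) 2
        have h4 : a₁ ≤ min a (9 / 10) ^ 2 := min_le_left _ _
        have h5 : (1 - a₂) / ((d : ℝ) + 1) ≤ 1 / ((d : ℝ) + 1) :=
          div_le_div_of_nonneg_right (by linarith) (by positivity)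
        linarith
      · exact Or.inr ⟨c, hc, fun u hu hcu => h1 u hu (hbb.trans hcu)⟩)
  refine ⟨N, ?_, hcov⟩
  have h1 := hd₁ d hdd1
  -- the second term is at most the first one
  have hsa2 : 0 < √a₂ := Real.sqrt_pos.2 (by linarith)
  have h2 : (1 / √(1 - b' ^ 2)) ^ (d - 1) ≤ (1 / √a₂) ^ (d - 1) := by
    refine pow_le_pow_left₀ (by positivity) ?_ _
    refine one_div_le_one_div_of_le hsa2 (Real.sqrt_le_sqrt ?_)
    have : a₁ ≤ 1 - b' ^ 2 := min_le_right _ _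
    linarith
  have hlog : 1 ≤ Real.log (1 + 4 * ((d : ℝ) + 1) / √(1 - a₂)) := by
    have hc0 : 0 < √(1 - a₂) := Real.sqrt_pos.2 (by linarith)
    have hc1 : √(1 - a₂) ≤ 1 := by
      rw [Real.sqrt_le_one]
      linarith
    rw [Real.le_log_iff_exp_le (by positivity)]
    have h3 : 4 * ((d : ℝ) + 1) ≤ 4 * ((d : ℝ) + 1) / √(1 - a₂) := by
      rw [le_div_iff₀ hc0]
      nlinarith
    have := Real.exp_one_lt_d9
    linarith
  have h3 : √(2 * Real.pi * d) * (1 / √(1 - b' ^ 2)) ^ (d - 1) ≤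
      d * √(2 * Real.pi * d) * Real.log (1 + 4 * ((d : ℝ) + 1) / √(1 - a₂)) *
      (1 / √a₂) ^ (d - 1) := by
    have h4 : √(2 * Real.pi * d) ≤
        d * √(2 * Real.pi * d) * Real.log (1 + 4 * ((d : ℝ) + 1) / √(1 - a₂)) := by
      have h5 : 0 ≤ √(2 * Real.pi * d) := Real.sqrt_nonneg _
      have h6 : 1 ≤ d * Real.log (1 + 4 * ((d : ℝ) + 1) / √(1 - a₂)) := by nlinarith
      nlinarith
    exact mul_le_mul h4 h2 (by positivity) (le_trans (Real.sqrt_nonneg _) h4)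
  have h2d : (4 : ℝ) ≤ 2 ^ d := by
    calc (4 : ℝ) = 2 ^ 2 := by norm_num
      _ ≤ 2 ^ d := pow_le_pow_right₀ (by norm_num) hd2
  have h4 : (N : ℝ) < 2 ^ d := by linarith
  exact_mod_cast h4

end Pool.Agent.K3h76.RB
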