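import Pool.Agent.K3h76.RB.Vol
import Pool.Agent.K3h76.RB.Basic

set_option autoImplicit false

/-!
The packing inequality for circular normal cones, and directions found by averaging.
-/

namespace Pool.Agent.K3h76.RB

open scoped RealInnerProductSpace
open MeasureTheory Module Metric Set
open Pool.Agent.K3h76.SD

variable {n : ℕ}

lemma ball_real : volume.real (closedBall (0 : Fs n) 1) = kap (n + 1) := by
  rw [measureReal_def, ball_vol, ENNReal.toReal_ofReal (kap_pos _).le]

/-- disjoint measurable subsets of the ball -/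
lemma sum_vol_le {ι : Type*} (S : Finset ι) (A : ι → Set (Fs n))
    (hA : ∀ i ∈ S, MeasurableSet (A i)) (hB : ∀ i ∈ S, A i ⊆ closedBall (0 : Fs n) 1)
    (hd : ∀ i ∈ S, ∀ j ∈ S, i ≠ j → Disjoint (A i) (A j)) :
    ∑ i ∈ S, volume.real (A i) ≤ kap (n + 1) := by
  have hBt : volume (closedBall (0 : Fs n) 1) ≠ ⊤ := by
    rw [ball_vol]
    exact ENNReal.ofReal_ne_top
  rw [← measureReal_biUnion_finset (fun i hi j hj hij => hd i hi j hj hij) hA
    (fun i hi => ne_top_of_le_ne_top hBt (measure_mono (hB i hi))), ← ball_real]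
  exact measureReal_mono (iUnion₂_subset hB) hBt

/-- circular normal cones at different points -/
lemma caps_disjoint {K : Set (Fs n)} {x y c c' : Fs n} {t t' : ℝ} (hx : x ∈ K) (hy : y ∈ K)
    (h : Rd K x c t) (h' : Rd K y c' t') (hne : x ≠ y) :
    Disjoint (capO t n c) (capO t' n c') := by
  rw [Set.disjoint_left]
  rintro z ⟨hz1, hz2⟩ ⟨hz3, hz4⟩
  rcases eq_or_ne z 0 with rfl | hz0
  · simp at hz2
  have hzn : 0 < ‖z‖ := norm_pos_iff.2 hz0
  have hn : ‖(‖z‖)⁻¹ • z‖ = 1 := by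
    rw [norm_smul, norm_inv, norm_norm, inv_mul_cancel₀ hzn.ne']
  have h1 : t < ⟪c, (‖z‖)⁻¹ • z⟫ := by
    rw [inner_smul_right, inv_mul_eq_div, lt_div_iff₀ hzn, real_inner_comm]
    exact hz2
  have h2 : t' < ⟪c', (‖z‖)⁻¹ • z⟫ := by
    rw [inner_smul_right, inv_mul_eq_div, lt_div_iff₀ hzn, real_inner_comm]
    exact hz4
  exact hne (disj (fun v hv hcv => (h.iff v hv).2 hcv) hy hx h1 ((h'.iff _ hn).2 h2.le))

open Classical in
/-- Averaging: some nonzero point is in many of the sets. -/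
lemma exists_point {ι : Type*} (S : Finset ι) (w : ι → ℝ) (A : ι → Set (Fs n))
    (hA : ∀ i ∈ S, MeasurableSet (A i)) (hB : ∀ i ∈ S, A i ⊆ closedBall (0 : Fs n) 1) :
    ∃ y : Fs n, y ≠ 0 ∧ ∑ i ∈ S, w i * volume.real (A i) ≤
      kap (n + 1) * ∑ i ∈ S, (if y ∈ A i then w i else 0) := by
  have hnt : Nontrivial (Fs n) := Module.nontrivial_of_finrank_pos (R := ℝ)
    (by rw [finrank_Fs]; omega)
  set B : Set (Fs n) := closedBall (0 : Fs n) 1 with hBdef
  have hB0 : volume B ≠ 0 := by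
    rw [hBdef, ball_vol]
    simpa using kap_pos (n + 1)
  have hBt : volume B ≠ ⊤ := by
    rw [hBdef, ball_vol]
    exact ENNReal.ofReal_ne_top
  have hsing : volume ({0} : Set (Fs n)) = 0 := measure_singleton 0
  have hBd : volume (B \ {0}) = volume B := measure_sdiff_null hsing
  set f : Fs n → ℝ := fun y => ∑ i ∈ S, (A i).indicator (fun _ => w i) y with hf
  have hintm : ∀ i ∈ S, IntegrableOn ((A i).indicator (fun _ => w i)) (B \ {0}) volume := by
    intro i hi
    refine IntegrableOn.indicator ?_ (hA i hi)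
    exact integrableOn_const (by rw [hBd]; exact hBt) (by simp)
  have hint : IntegrableOn f (B \ {0}) volume := by
    rw [hf]
    exact integrable_finsetSum S hintm
  obtain ⟨y, hy, hle⟩ := exists_setAverage_le (μ := volume) (s := B \ {0}) (f := f)
    (by rw [hBd]; exact hB0) (by rw [hBd]; exact hBt) hint
  refine ⟨y, fun h => hy.2 (by simp [h]), ?_⟩
  have hfy : f y = ∑ i ∈ S, (if y ∈ A i then w i else 0) := by
    rw [hf]
    refine Finset.sum_congr rfl fun i _ => ?_
    by_cases h : y ∈ A i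
    · rw [indicator_of_mem h, if_pos h]
    · rw [indicator_of_notMem h, if_neg h]
  have hBr' : volume.real (B \ {0}) = volume.real B := by
    rw [measureReal_def, hBd, measureReal_def]
  have hBr : 0 < volume.real (B \ {0}) := by
    rw [hBr', hBdef, ball_real]
    exact kap_pos _
  rw [← hfy]
  rw [setAverage_eq, smul_eq_mul, ← div_eq_inv_mul, div_le_iff₀ hBr] at hle
  have h1 : ∫ x in B \ {0}, f x = ∑ i ∈ S, w i * volume.real (A i) := by
    rw [hf, integral_finsetSum S hintm]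
    refine Finset.sum_congr rfl fun i hi => ?_
    rw [setIntegral_indicator (hA i hi), setIntegral_const, smul_eq_mul, mul_comm]
    congr 1
    rw [measureReal_def, measureReal_def]
    congr 1
    have : (B \ {0}) ∩ A i = A i \ {0} := by
      ext z
      simp only [mem_inter_iff, mem_sdiff]
      exact ⟨fun h => ⟨h.2, h.1.2⟩, fun h => ⟨⟨hB i hi h.1, h.2⟩, h.1⟩⟩
    rw [this]
    exact measure_sdiff_null hsing
  rw [h1, hBr', hBdef, ball_real, mul_comm] at hle
  exact hle

open Classical in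
/-- Greedy choice of `k` directions. -/
lemma greedyW {ι : Type*} (A : ι → Set (Fs n)) (p : ι → ℝ)
    (hA : ∀ i, MeasurableSet (A i)) (hB : ∀ i, A i ⊆ closedBall (0 : Fs n) 1) (k : ℕ)
    (S : Finset ι) (hp1 : ∀ i ∈ S, p i ≤ 1)
    (hp : ∀ i ∈ S, kap (n + 1) * p i ≤ volume.real (A i)) :
    ∃ T : Finset (Fs n), T.card ≤ k ∧
      ((S.filter fun i => ∀ y ∈ T, y ∉ A i).card : ℝ) ≤ ∑ i ∈ S, (1 - p i) ^ k := by
  induction k generalizing S with
  | zero => exact ⟨∅, by simp, by simp⟩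
  | succ k ih =>
    obtain ⟨y, -, hy⟩ := exists_point S (fun i => (1 - p i) ^ k) A (fun i _ => hA i)
      (fun i _ => hB i)
    obtain ⟨T, hT, hTc⟩ := ih (S.filter fun i => y ∉ A i)
      (fun i hi => hp1 i (Finset.mem_filter.1 hi).1) (fun i hi => hp i (Finset.mem_filter.1 hi).1)
    refine ⟨insert y T, (Finset.card_insert_le _ _).trans (by omega), ?_⟩
    have h1 : (S.filter fun i => ∀ z ∈ insert y T, z ∉ A i) =
        (S.filter fun i => y ∉ A i).filter fun i => ∀ z ∈ T, z ∉ A i := by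
      ext i
      simp only [Finset.mem_filter, Finset.mem_insert, forall_eq_or_imp]
      tauto
    rw [h1]
    refine hTc.trans ?_
    have hk := kap_pos (n + 1)
    have h2 : ∑ i ∈ S.filter (fun i => y ∉ A i), (1 - p i) ^ k =
        ∑ i ∈ S, (1 - p i) ^ k - ∑ i ∈ S, (if y ∈ A i then (1 - p i) ^ k else 0) := by
      rw [Finset.sum_filter, ← Finset.sum_sub_distrib]
      refine Finset.sum_congr rfl fun i _ => ?_
      by_cases h : y ∈ A i
      · simp [h]
      · simp [h]
    have h3 : ∑ i ∈ S, (1 - p i) ^ k * p i ≤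
        ∑ i ∈ S, (if y ∈ A i then (1 - p i) ^ k else 0) := by
      refine le_of_mul_le_mul_left ?_ hk
      refine le_trans ?_ hy
      rw [Finset.mul_sum]
      refine Finset.sum_le_sum fun i hi => ?_
      have h4 : 0 ≤ (1 - p i) ^ k := pow_nonneg (by linarith [hp1 i hi]) k
      have h5 := mul_le_mul_of_nonneg_left (hp i hi) h4
      linarith
    have h4 : ∑ i ∈ S, (1 - p i) ^ (k + 1) =
        ∑ i ∈ S, (1 - p i) ^ k - ∑ i ∈ S, (1 - p i) ^ k * p i := by
      rw [← Finset.sum_sub_distrib]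
      refine Finset.sum_congr rfl fun i _ => ?_
      ring
    rw [h2, h4]
    linarith

/-- A set of points with wide circular normal cones is finite. -/
lemma finite_wide {K X : Set (Fs n)} {c : Fs n → Fs n} {t : Fs n → ℝ} (hn : 1 ≤ n)
    (hX : ∀ x ∈ X, x ∈ K ∧ Rd K x (c x) (t x)) {q : ℝ} (hq0 : 0 < q) (hq1 : q < 1)
    (ht : ∀ x ∈ X, q ≤ 1 - t x ^ 2) : X.Finite := by
  classical
  have hτ0 : 0 < √(1 - q) := Real.sqrt_pos.2 (by linarith)
  have hτ2 : √(1 - q) ^ 2 = 1 - q := Real.sq_sqrt (by linarith)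
  have hτ1 : √(1 - q) < 1 := by
    rw [Real.sqrt_lt' one_pos]
    linarith
  have hs0 : 0 < √q := Real.sqrt_pos.2 hq0
  have hs2 : √q ^ 2 = q := Real.sq_sqrt hq0.le
  have hcs : √(1 - q) ^ 2 + √q ^ 2 = 1 := by rw [hτ2, hs2]; ring
  have hk := kap_pos n
  have hk1 := kap_pos (n + 1)
  set δ := kap n * J n (√(1 - q)) (√q) with hδ
  have hδ0 : 0 < δ := by
    have h1 : 0 ≤ ∫ t in √(1 - q)..1, √(1 - t ^ 2) ^ n :=
      intervalIntegral.integral_nonneg hτ1.le fun t _ => by positivity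
    have h2 : 0 < √q ^ n * √(1 - q) / ((n : ℝ) + 1) := by positivity
    have h3 : 0 < J n (√(1 - q)) (√q) := by
      unfold J
      linarith
    positivity
  by_contra hinf
  obtain ⟨F, hFX, hFc⟩ := Set.Infinite.exists_subset_card_eq hinf (⌈kap (n + 1) / δ⌉₊ + 1)
  have h1 := sum_vol_le F (fun x => capO (t x) n (c x)) (fun x _ => capO_meas _ _ _)
    (fun x _ => capO_sub _ _ _) (fun x hx y hy hne => caps_disjoint (hX x (hFX hx)).1
      (hX y (hFX hy)).1 (hX x (hFX hx)).2 (hX y (hFX hy)).2 hne)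
  have h2 : ∑ x ∈ F, δ ≤ ∑ x ∈ F, volume.real (capO (t x) n (c x)) := by
    refine Finset.sum_le_sum fun x hx => ?_
    have hx := hFX hx
    have hle : t x ≤ √(1 - q) := Real.le_sqrt_of_sq_le (by linarith [ht x hx])
    refine (capO_vol hτ0 hτ1 hs0 hcs hn (hX x hx).2.hc).trans ?_
    refine measureReal_mono ?_ (capO_fin _ _ _)
    rintro z ⟨hz1, hz2⟩
    exact ⟨hz1, lt_of_le_of_lt (mul_le_mul_of_nonneg_right hle (norm_nonneg z)) hz2⟩
  rw [Finset.sum_const, hFc, nsmul_eq_mul] at h2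
  have h3 : kap (n + 1) / δ ≤ (⌈kap (n + 1) / δ⌉₊ : ℝ) := Nat.le_ceil _
  rw [div_le_iff₀ hδ0] at h3
  push_cast at h2
  linarith

end Pool.Agent.K3h76.RB
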