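import Pool.Agent.K3h76.SD.Count

set_option autoImplicit false

/-!
Volumes of the parts of the ball in circular cones: sharp lower bounds, and an upper bound.
-/

namespace Pool.Agent.K3h76.RB

open scoped RealInnerProductSpace
open MeasureTheory Module Metric Set
open Pool.Agent.K3h76.SD

/-- The radius of the slices of the sector with half-angle given by `c, s`. -/
noncomputable def rE (c s t : ℝ) : ℝ := min (s / c * t) (√(1 - t ^ 2))

/-- the volume of the sector divided by the volume of the unit ball of one dimension less -/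
noncomputable def J (n : ℕ) (c s : ℝ) : ℝ := s ^ n * c / (n + 1) + ∫ t in c..1, √(1 - t ^ 2) ^ n

lemma rE_cont {c s : ℝ} : Continuous (rE c s) := by
  unfold rE
  fun_prop

section

variable {c s : ℝ} (hc0 : 0 < c) (hc1 : c < 1) (hs : 0 < s) (hcs : c ^ 2 + s ^ 2 = 1)

include hc0 hs

lemma rE_nonneg {t : ℝ} (h0 : 0 ≤ t) : 0 ≤ rE c s t :=
  le_min (by positivity) (Real.sqrt_nonneg _)

include hcs

omit hs in
lemma rE_low {t : ℝ} (h0 : 0 ≤ t) (h : t ≤ c) : rE c s t = s / c * t := by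
  refine min_eq_left ?_
  refine Real.le_sqrt_of_sq_le ?_
  have h1 : (s / c * t) ^ 2 = s ^ 2 * (t ^ 2 / c ^ 2) := by ring
  have h2 : t ^ 2 / c ^ 2 ≤ 1 := by
    rw [div_le_one (by positivity)]
    exact pow_le_pow_left₀ h0 h 2
  have h3 : t ^ 2 = c ^ 2 * (t ^ 2 / c ^ 2) := by field_simp
  have h4 : (s / c * t) ^ 2 + t ^ 2 = t ^ 2 / c ^ 2 := by
    rw [h1]
    calc s ^ 2 * (t ^ 2 / c ^ 2) + t ^ 2
        = s ^ 2 * (t ^ 2 / c ^ 2) + c ^ 2 * (t ^ 2 / c ^ 2) := by rw [← h3]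
      _ = (c ^ 2 + s ^ 2) * (t ^ 2 / c ^ 2) := by ring
      _ = _ := by rw [hcs, one_mul]
  linarith

lemma rE_high {t : ℝ} (h : c ≤ t) : rE c s t = √(1 - t ^ 2) := by
  refine min_eq_right ?_
  have ht : 0 < t := hc0.trans_le h
  rw [Real.sqrt_le_left (by positivity)]
  have h1 : (s / c * t) ^ 2 = s ^ 2 * (t ^ 2 / c ^ 2) := by ring
  have h2 : 1 ≤ t ^ 2 / c ^ 2 := by
    rw [one_le_div (by positivity)]
    exact pow_le_pow_left₀ hc0.le h 2
  have h3 : t ^ 2 = c ^ 2 * (t ^ 2 / c ^ 2) := by field_simp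
  have h4 : (s / c * t) ^ 2 + t ^ 2 = t ^ 2 / c ^ 2 := by
    rw [h1]
    calc s ^ 2 * (t ^ 2 / c ^ 2) + t ^ 2
        = s ^ 2 * (t ^ 2 / c ^ 2) + c ^ 2 * (t ^ 2 / c ^ 2) := by rw [← h3]
      _ = (c ^ 2 + s ^ 2) * (t ^ 2 / c ^ 2) := by ring
      _ = _ := by rw [hcs, one_mul]
  linarith

include hc1

lemma rE_int (n : ℕ) : ∫ t in (0 : ℝ)..1, rE c s t ^ n = J n c s := by
  have hcont := rE_cont (c := c) (s := s)
  have hint : ∀ a b : ℝ, IntervalIntegrable (fun t => rE c s t ^ n) volume a b :=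
    fun a b => (hcont.pow n).intervalIntegrable a b
  rw [← intervalIntegral.integral_add_adjacent_intervals (hint 0 c) (hint c 1)]
  have e1 : ∫ t in (0 : ℝ)..c, rE c s t ^ n = s ^ n * c / (n + 1) := by
    have : ∫ t in (0 : ℝ)..c, rE c s t ^ n = ∫ t in (0 : ℝ)..c, (s / c) ^ n * t ^ n := by
      refine intervalIntegral.integral_congr fun t ht => ?_
      rw [uIcc_of_le hc0.le] at ht
      simp only [rE_low hc0 hcs ht.1 ht.2, mul_pow]
    rw [this, intervalIntegral.integral_const_mul, integral_pow, zero_pow (Nat.succ_ne_zero n),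
      sub_zero, pow_succ c]
    calc (s / c) ^ n * (c ^ n * c / ((n : ℝ) + 1)) = (s / c * c) ^ n * c / (n + 1) := by
          rw [mul_pow]; ring
      _ = s ^ n * c / (n + 1) := by rw [div_mul_cancel₀ _ hc0.ne']
  have e2 : ∫ t in c..1, rE c s t ^ n = ∫ t in c..1, √(1 - t ^ 2) ^ n := by
    refine intervalIntegral.integral_congr fun t ht => ?_
    rw [uIcc_of_le hc1.le] at ht
    simp only [rE_high hc0 hs hcs ht.1]
  rw [e1, e2, J]

end

/-- the open sector in the product -/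
def sect (c s : ℝ) (n : ℕ) : Set (ℝ × V n) := {p | ‖p.2‖ < rE c s p.1}

lemma sect_open (c s : ℝ) (n : ℕ) : IsOpen (sect c s n) :=
  isOpen_lt (by fun_prop) (rE_cont.comp continuous_fst)

section

variable {c s : ℝ} (hc0 : 0 < c) (hc1 : c < 1) (hs : 0 < s) (hcs : c ^ 2 + s ^ 2 = 1)

include hc0 hc1 hs hcs

lemma sect_vol {n : ℕ} (hn : 1 ≤ n) :
    ENNReal.ofReal (kap n * J n c s) ≤ volume (sect c s n) := by
  have : Nonempty (Fin n) := ⟨⟨0, by omega⟩⟩
  have hcont := rE_cont (c := c) (s := s)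
  have h1 : volume (sect c s n) =
      ∫⁻ t : ℝ, ENNReal.ofReal (rE c s t) ^ n * ENNReal.ofReal (kap n) := by
    rw [Measure.volume_eq_prod, Measure.prod_apply (sect_open c s n).measurableSet]
    refine lintegral_congr fun t => ?_
    have : Prod.mk t ⁻¹' sect c s n = ball (0 : V n) (rE c s t) := by
      ext z
      simp [sect]
    rw [this, EuclideanSpace.volume_ball, Fintype.card_fin]
    rfl
  rw [h1]
  calc ENNReal.ofReal (kap n * J n c s)
      = ∫⁻ t in Icc (0:ℝ) 1, ENNReal.ofReal (rE c s t ^ n * kap n) := by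
        rw [← ofReal_integral_eq_lintegral_ofReal]
        · congr 1
          rw [integral_Icc_eq_integral_Ioc, ← intervalIntegral.integral_of_le zero_le_one,
            intervalIntegral.integral_mul_const, rE_int hc0 hc1 hs hcs, mul_comm]
        · exact ((hcont.pow n).mul continuous_const).continuousOn.integrableOn_compact isCompact_Icc
        · refine (ae_restrict_iff' measurableSet_Icc).2 (Filter.Eventually.of_forall fun t ht => ?_)
          exact mul_nonneg (pow_nonneg (rE_nonneg hc0 hs ht.1) n) (kap_pos n).le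
    _ = ∫⁻ t in Icc (0:ℝ) 1, ENNReal.ofReal (rE c s t) ^ n * ENNReal.ofReal (kap n) := by
        refine setLIntegral_congr_fun measurableSet_Icc fun t ht => ?_
        rw [ENNReal.ofReal_mul (pow_nonneg (rE_nonneg hc0 hs ht.1) n),
          ENNReal.ofReal_pow (rE_nonneg hc0 hs ht.1)]
    _ ≤ ∫⁻ t : ℝ, ENNReal.ofReal (rE c s t) ^ n * ENNReal.ofReal (kap n) :=
        setLIntegral_le_lintegral _ _

end

/-- part of the ball in the open circular cone around the direction `m` -/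
def capO (c : ℝ) (n : ℕ) (m : Fs n) : Set (Fs n) := {y | ‖y‖ ≤ 1 ∧ c * ‖y‖ < ⟪y, m⟫}

lemma capO_meas (c : ℝ) (n : ℕ) (m : Fs n) : MeasurableSet (capO c n m) := by
  have h1 : IsClosed {y : Fs n | ‖y‖ ≤ 1} := isClosed_le (by fun_prop) (by fun_prop)
  have h2 : IsOpen {y : Fs n | c * ‖y‖ < ⟪y, m⟫} := isOpen_lt (by fun_prop) (by fun_prop)
  exact h1.measurableSet.inter h2.measurableSet

lemma capO_sub (c : ℝ) (n : ℕ) (m : Fs n) : capO c n m ⊆ closedBall (0 : Fs n) 1 :=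
  fun y hy => by simpa using hy.1

lemma capO_fin (c : ℝ) (n : ℕ) (m : Fs n) : volume (capO c n m) ≠ ⊤ := by
  refine ne_top_of_le_ne_top ?_ (measure_mono (capO_sub c n m))
  rw [ball_vol]
  exact ENNReal.ofReal_ne_top

lemma toLp_norm_sq {n : ℕ} (t : ℝ) (z : V n) :
    ‖(WithLp.toLp 2 (t, z) : Fs n)‖ ^ 2 = t ^ 2 + ‖z‖ ^ 2 := by
  rw [WithLp.prod_norm_sq_eq_of_L2]
  simp

lemma toLp_inner {n : ℕ} (t : ℝ) (z : V n) : ⟪(WithLp.toLp 2 (t, z) : Fs n), e1 n⟫ = t := by
  rw [WithLp.prod_inner_apply]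
  simp [e1]

section

variable {c s : ℝ} (hc0 : 0 < c) (hc1 : c < 1) (hs : 0 < s) (hcs : c ^ 2 + s ^ 2 = 1) {n : ℕ}
  (hn : 1 ≤ n)

include hc0 hc1 hs hcs hn

lemma capO_e1 : ENNReal.ofReal (kap n * J n c s) ≤ volume (capO c n (e1 n)) := by
  refine (sect_vol hc0 hc1 hs hcs hn).trans ?_
  rw [← (WithLp.volume_preserving_toLp ℝ (V n)).measure_preimage
    (capO_meas c n _).nullMeasurableSet]
  refine measure_mono ?_
  rintro ⟨t, z⟩ hp
  have hp : ‖z‖ < rE c s t := hp
  have h1 : ‖z‖ < s / c * t := hp.trans_le (min_le_left _ _)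
  have h2 : ‖z‖ < √(1 - t ^ 2) := hp.trans_le (min_le_right _ _)
  have hz := norm_nonneg z
  have ht : 0 < t := by
    by_contra hcon
    push Not at hcon
    have : s / c * t ≤ 0 := mul_nonpos_of_nonneg_of_nonpos (by positivity) hcon
    linarith
  have h3 : ‖z‖ ^ 2 < 1 - t ^ 2 := by
    have := Real.lt_sqrt hz |>.1 h2
    exact this
  refine ⟨?_, ?_⟩
  · refine le_of_sq_le_sq ?_ zero_le_one
    rw [toLp_norm_sq]
    linarith
  · rw [toLp_inner]
    refine lt_of_pow_lt_pow_left₀ 2 ht.le ?_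
    rw [mul_pow, toLp_norm_sq]
    have h4 : ‖z‖ ^ 2 < (s / c * t) ^ 2 := pow_lt_pow_left₀ h1 hz (by norm_num)
    have h5 : c ^ 2 * (s / c * t) ^ 2 = s ^ 2 * t ^ 2 := by field_simp
    have h6 := mul_lt_mul_of_pos_left h4 (show 0 < c ^ 2 by positivity)
    have h7 : c ^ 2 * t ^ 2 + s ^ 2 * t ^ 2 = t ^ 2 := by rw [← add_mul, hcs, one_mul]
    linarith

lemma capO_vol {m : Fs n} (hm : ‖m‖ = 1) :
    kap n * J n c s ≤ volume.real (capO c n m) := by
  have h1 : ENNReal.ofReal (kap n * J n c s) ≤ volume (capO c n m) := by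
    refine (capO_e1 hc0 hc1 hs hcs hn).trans (le_of_eq ?_)
    set φ : Fs n ≃ₗᵢ[ℝ] Fs n := Submodule.reflection (ℝ ∙ (e1 n - m))ᗮ with hφ
    have hφe : φ (e1 n) = m := Submodule.reflection_sub (by rw [norm_e1, hm])
    have hpre : φ ⁻¹' (capO c n m) = capO c n (e1 n) := by
      ext y
      simp only [capO, mem_preimage, mem_ofPred_eq, φ.norm_map]
      rw [← hφe, φ.inner_map_map]
    rw [← hpre]
    exact (φ.measurePreserving).measure_preimage (capO_meas c n _).nullMeasurableSet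
  rw [measureReal_def]
  exact (ENNReal.ofReal_le_iff_le_toReal (capO_fin c n m)).1 h1

end

/-! ### An upper bound -/

/-- the closed cone over a disc -/
def cone (a : ℝ) (n : ℕ) : Set (ℝ × V n) := {p | p.1 ∈ Icc (0:ℝ) 1 ∧ ‖p.2‖ ≤ a * p.1}

lemma cone_closed (a : ℝ) (n : ℕ) : IsClosed (cone a n) := by
  have h1 : IsClosed {p : ℝ × V n | p.1 ∈ Icc (0:ℝ) 1} := isClosed_Icc.preimage continuous_fst
  have h2 : IsClosed {p : ℝ × V n | ‖p.2‖ ≤ a * p.1} := isClosed_le (by fun_prop) (by fun_prop)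
  exact h1.inter h2

lemma cone_vol {a : ℝ} (ha : 0 ≤ a) {n : ℕ} (hn : 1 ≤ n) :
    volume (cone a n) = ENNReal.ofReal (kap n * (a ^ n / (n + 1))) := by
  have : Nonempty (Fin n) := ⟨⟨0, by omega⟩⟩
  have h1 : volume (cone a n) =
      ∫⁻ t in Icc (0 : ℝ) 1, ENNReal.ofReal (a * t) ^ n * ENNReal.ofReal (kap n) := by
    rw [Measure.volume_eq_prod, Measure.prod_apply (cone_closed a n).measurableSet,
      ← lintegral_indicator measurableSet_Icc]
    refine lintegral_congr fun t => ?_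
    by_cases ht : t ∈ Icc (0 : ℝ) 1
    · rw [indicator_of_mem ht]
      have : Prod.mk t ⁻¹' cone a n = closedBall (0 : V n) (a * t) := by
        ext z
        simp only [cone, mem_preimage, mem_ofPred_eq, mem_closedBall, dist_zero_right]
        exact ⟨fun h => h.2, fun h => ⟨ht, h⟩⟩
      rw [this, EuclideanSpace.volume_closedBall, Fintype.card_fin]
      rfl
    · rw [indicator_of_notMem ht]
      have : Prod.mk t ⁻¹' cone a n = ∅ := by
        ext z
        simp only [cone, mem_preimage, mem_ofPred_eq, mem_empty_iff_false, iff_false]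
        exact fun h => ht h.1
      rw [this, measure_empty]
  rw [h1]
  have h2 : ∀ t ∈ Icc (0 : ℝ) 1, ENNReal.ofReal (a * t) ^ n * ENNReal.ofReal (kap n) =
      ENNReal.ofReal ((a * t) ^ n * kap n) := by
    intro t ht
    have h3 : 0 ≤ a * t := mul_nonneg ha ht.1
    rw [ENNReal.ofReal_mul (pow_nonneg h3 n), ENNReal.ofReal_pow h3]
  rw [setLIntegral_congr_fun measurableSet_Icc h2, ← ofReal_integral_eq_lintegral_ofReal]
  · congr 1
    rw [integral_Icc_eq_integral_Ioc, ← intervalIntegral.integral_of_le zero_le_one,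
      intervalIntegral.integral_mul_const]
    have h3 : ∫ t in (0 : ℝ)..1, (a * t) ^ n = a ^ n / (n + 1) := by
      simp only [mul_pow]
      rw [intervalIntegral.integral_const_mul, integral_pow]
      simp
      ring
    rw [h3, mul_comm]
  · exact (Continuous.continuousOn (by fun_prop)).integrableOn_compact isCompact_Icc
  · refine (ae_restrict_iff' measurableSet_Icc).2 (Filter.Eventually.of_forall fun t ht => ?_)
    exact mul_nonneg (pow_nonneg (mul_nonneg ha ht.1) n) (kap_pos n).le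

/-- part of the ball in a closed circular cone -/
def capC (c : ℝ) (n : ℕ) (m : Fs n) : Set (Fs n) := {y | ‖y‖ ≤ 1 ∧ c * ‖y‖ ≤ ⟪y, m⟫}

lemma capC_closed (c : ℝ) (n : ℕ) (m : Fs n) : IsClosed (capC c n m) := by
  have h1 : IsClosed {y : Fs n | ‖y‖ ≤ 1} := isClosed_le (by fun_prop) (by fun_prop)
  have h2 : IsClosed {y : Fs n | c * ‖y‖ ≤ ⟪y, m⟫} := isClosed_le (by fun_prop) (by fun_prop)
  exact h1.inter h2

/-- Upper bound for the volume of the part of the ball in a circular cone; `a` is the tangent of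
the half-angle. -/
lemma capC_vol {c a : ℝ} (hc0 : 0 < c) (ha : 0 ≤ a) (hca : c ^ 2 * (1 + a ^ 2) = 1) {n : ℕ}
    (hn : 1 ≤ n) {m : Fs n} (hm : ‖m‖ = 1) :
    volume.real (capC c n m) ≤ kap n * (a ^ n / (n + 1)) := by
  have h1 : volume (capC c n m) ≤ ENNReal.ofReal (kap n * (a ^ n / (n + 1))) := by
    set φ : Fs n ≃ₗᵢ[ℝ] Fs n := Submodule.reflection (ℝ ∙ (e1 n - m))ᗮ with hφ
    have hφe : φ (e1 n) = m := Submodule.reflection_sub (by rw [norm_e1, hm])
    have hpre : φ ⁻¹' (capC c n m) = capC c n (e1 n) := by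
      ext y
      simp only [capC, mem_preimage, mem_ofPred_eq, φ.norm_map]
      rw [← hφe, φ.inner_map_map]
    rw [← (φ.measurePreserving).measure_preimage (capC_closed c n _).measurableSet.nullMeasurableSet,
      hpre, ← cone_vol ha hn, ← (WithLp.volume_preserving_toLp ℝ (V n)).measure_preimage
        (capC_closed c n _).measurableSet.nullMeasurableSet]
    refine measure_mono ?_
    rintro ⟨t, z⟩ hp
    obtain ⟨hp1, hp2⟩ : ‖(WithLp.toLp 2 (t, z) : Fs n)‖ ≤ 1 ∧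
      c * ‖(WithLp.toLp 2 (t, z) : Fs n)‖ ≤ ⟪(WithLp.toLp 2 (t, z) : Fs n), e1 n⟫ := hp
    rw [toLp_inner] at hp2
    have hn0 := norm_nonneg (WithLp.toLp 2 (t, z) : Fs n)
    have hsq := toLp_norm_sq t z
    have ht0 : 0 ≤ t := (mul_nonneg hc0.le hn0).trans hp2
    have h2 : ‖(WithLp.toLp 2 (t, z) : Fs n)‖ ^ 2 ≤ 1 := by
      have := pow_le_pow_left₀ hn0 hp1 2
      simpa using this
    refine ⟨⟨ht0, ?_⟩, ?_⟩
    · refine le_of_sq_le_sq ?_ zero_le_one
      have := sq_nonneg ‖z‖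
      linarith
    · refine le_of_sq_le_sq ?_ (mul_nonneg ha ht0)
      have h3 : (c * ‖(WithLp.toLp 2 (t, z) : Fs n)‖) ^ 2 ≤ t ^ 2 :=
        pow_le_pow_left₀ (mul_nonneg hc0.le hn0) hp2 2
      rw [mul_pow, hsq] at h3
      have h4 : c ^ 2 * ‖z‖ ^ 2 ≤ c ^ 2 * (a * t) ^ 2 := by
        have h5 : c ^ 2 * (a * t) ^ 2 = t ^ 2 * (c ^ 2 * (1 + a ^ 2)) - c ^ 2 * t ^ 2 := by ring
        rw [h5, hca]
        linarith
      exact le_of_mul_le_mul_left h4 (by positivity)
  have h2 : 0 ≤ kap n * (a ^ n / (n + 1)) := by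
    have := kap_pos n
    positivity
  rw [measureReal_def]
  exact ENNReal.toReal_le_of_le_ofReal h2 h1

/-! ### Constants -/

lemma kap23 : kap 2 = 3 / 4 * kap 3 := by
  have hpi := Real.sqrt_ne_zero'.2 Real.pi_pos
  have h1 : Real.Gamma (((2 : ℕ) : ℝ) / 2 + 1) = 1 := by
    norm_num
  have h2 : Real.Gamma (((3 : ℕ) : ℝ) / 2 + 1) = 3 / 4 * √Real.pi := by
    have : (((3 : ℕ) : ℝ) / 2 + 1) = (1 / 2 + 1) + 1 := by norm_num
    rw [this, Real.Gamma_add_one (by norm_num), Real.Gamma_add_one (by norm_num),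
      Real.Gamma_one_half_eq]
    ring
  unfold kap
  rw [h1, h2]
  field_simp

lemma kap45 : kap 4 = 15 / 16 * kap 5 := by
  have hpi := Real.sqrt_ne_zero'.2 Real.pi_pos
  have h1 : Real.Gamma (((4 : ℕ) : ℝ) / 2 + 1) = 2 := by
    have : (((4 : ℕ) : ℝ) / 2 + 1) = (2 : ℕ) + 1 := by norm_num
    rw [this, Real.Gamma_nat_eq_factorial]
    norm_num
  have h2 : Real.Gamma (((5 : ℕ) : ℝ) / 2 + 1) = 15 / 8 * √Real.pi := by
    have : (((5 : ℕ) : ℝ) / 2 + 1) = ((1 / 2 + 1) + 1) + 1 := by norm_num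
    rw [this, Real.Gamma_add_one (by norm_num), Real.Gamma_add_one (by norm_num),
      Real.Gamma_add_one (by norm_num), Real.Gamma_one_half_eq]
    ring
  unfold kap
  rw [h1, h2]
  field_simp
  norm_num

lemma kap34 : kap 3 = 8 / (3 * Real.pi) * kap 4 := by
  have hpi := Real.sqrt_ne_zero'.2 Real.pi_pos
  have hpi2 := Real.pi_ne_zero
  have hsq : √Real.pi ^ 2 = Real.pi := Real.sq_sqrt Real.pi_pos.le
  have h1 : Real.Gamma (((4 : ℕ) : ℝ) / 2 + 1) = 2 := by
    have : (((4 : ℕ) : ℝ) / 2 + 1) = (2 : ℕ) + 1 := by norm_num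
    rw [this, Real.Gamma_nat_eq_factorial]
    norm_num
  have h2 : Real.Gamma (((3 : ℕ) : ℝ) / 2 + 1) = 3 / 4 * √Real.pi := by
    have : (((3 : ℕ) : ℝ) / 2 + 1) = (1 / 2 + 1) + 1 := by norm_num
    rw [this, Real.Gamma_add_one (by norm_num), Real.Gamma_add_one (by norm_num),
      Real.Gamma_one_half_eq]
    ring
  unfold kap
  rw [h1, h2]
  have h3 : √Real.pi ^ 4 = Real.pi * √Real.pi ^ 2 := by
    calc √Real.pi ^ 4 = √Real.pi ^ 2 * √Real.pi ^ 2 := by ring
      _ = _ := by rw [hsq]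
  rw [h3]
  field_simp
  ring

/-- half-open sectors in dimension three -/
lemma J2 {c s : ℝ} (hcs : c ^ 2 + s ^ 2 = 1) (hc0 : 0 < c) (hc1 : c < 1) :
    J 2 c s = 2 / 3 * (1 - c) := by
  have h1 : ∫ t in c..1, √(1 - t ^ 2) ^ 2 = ∫ t in c..1, (1 - t ^ 2) := by
    refine intervalIntegral.integral_congr fun t ht => ?_
    rw [uIcc_of_le hc1.le] at ht
    have : 0 ≤ 1 - t ^ 2 := by nlinarith [ht.1, ht.2]
    simp only [Real.sq_sqrt this]
  have h2 : ∫ t in c..1, (1 - t ^ 2) = (1 - c) - (1 - c ^ 3) / 3 := by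
    have i2 : IntervalIntegrable (fun t : ℝ => t ^ 2) volume c 1 :=
      (Continuous.intervalIntegrable (by fun_prop) _ _)
    rw [intervalIntegral.integral_sub (by simp) i2, integral_pow]
    simp
    norm_num
  rw [J, h1, h2]
  have h3 : s ^ 2 = 1 - c ^ 2 := by linarith
  rw [h3]
  push_cast
  ring

lemma J4 {c s : ℝ} (hcs : c ^ 2 + s ^ 2 = 1) (hc0 : 0 < c) (hc1 : c < 1) :
    J 4 c s = 4 / 15 * (2 - 3 * c + c ^ 3) := by
  have h1 : ∫ t in c..1, √(1 - t ^ 2) ^ 4 = ∫ t in c..1, (1 - 2 * t ^ 2 + t ^ 4) := by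
    refine intervalIntegral.integral_congr fun t ht => ?_
    rw [uIcc_of_le hc1.le] at ht
    have h0 : 0 ≤ 1 - t ^ 2 := by nlinarith [ht.1, ht.2]
    have h2 : √(1 - t ^ 2) ^ 4 = (√(1 - t ^ 2) ^ 2) ^ 2 := by ring
    have h3 : √(1 - t ^ 2) ^ 4 = 1 - 2 * t ^ 2 + t ^ 4 := by
      rw [h2, Real.sq_sqrt h0]
      ring
    exact h3
  have h2 : ∫ t in c..1, (1 - 2 * t ^ 2 + t ^ 4) =
      (1 - c) - 2 * ((1 - c ^ 3) / 3) + (1 - c ^ 5) / 5 := by
    have i1 : IntervalIntegrable (fun t : ℝ => 1 - 2 * t ^ 2) volume c 1 :=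
      (Continuous.intervalIntegrable (by fun_prop) _ _)
    have i2 : IntervalIntegrable (fun t : ℝ => t ^ 4) volume c 1 :=
      (Continuous.intervalIntegrable (by fun_prop) _ _)
    have i3 : IntervalIntegrable (fun t : ℝ => 2 * t ^ 2) volume c 1 :=
      (Continuous.intervalIntegrable (by fun_prop) _ _)
    rw [intervalIntegral.integral_add i1 i2, intervalIntegral.integral_sub (by simp) i3,
      intervalIntegral.integral_const_mul, integral_pow, integral_pow]
    simp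
    norm_num
  rw [J, h1, h2]
  have h3 : s ^ 4 = (1 - c ^ 2) ^ 2 := by
    have : s ^ 2 = 1 - c ^ 2 := by linarith
    rw [← this]; ring
  rw [h3]
  push_cast
  ring

end Pool.Agent.K3h76.RB
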